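import Pool.Agent.Q88.NB.Chain

/-!
# Row bounded families (project SK): the vectors `VV` and their errors

The proofs follow `Pool.Agent.Q88.NB` (project NB), with `ℓ²` norms in place of absolute sums.
-/

set_option autoImplicit false

namespace Pool.Agent.Q98.SK

open MeasureTheory Set Metric Filter Topology
open scoped ENNReal NNReal ComplexConjugate
open Pool.Agent.Y283.NK (ct)
open Pool.Agent.Y271.RO (ht Bd hHT hCTG)
open Pool.Agent.Q98.RB
open Pool.Agent.Q98.NR (IsK)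
open Pool.Agent.Q88.NB
open Pool.Agent.Q130.TC (cau S_CAU WT S_MZ nm Am)

section mink

variable {α : Type} [MeasurableSpace α] {μ : Measure α}

theorem nm_sq (m : ℕ) (c : ℕ → ℂ) : nm m c * nm m c = ∑ i ∈ Finset.range m, ‖c i‖ ^ 2 := by
  unfold nm
  exact Real.mul_self_sqrt (Finset.sum_nonneg fun _ _ => by positivity)

theorem cs_nm (m : ℕ) (c d : ℕ → ℂ) : ‖∑ i ∈ Finset.range m, c i * d i‖ ≤ nm m c * nm m d := by
  refine (norm_sum_le _ _).trans ?_
  simp only [norm_mul]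
  exact Real.sum_mul_le_sqrt_mul_sqrt _ _ _

theorem nm_conj (m : ℕ) (c : ℕ → ℂ) : nm m (fun i => conj (c i)) = nm m c := by
  unfold nm
  simp

/-- Minkowski's inequality for integrals with values in `ℓ²` -/
theorem nm_integral {m : ℕ} {F : ℕ → α → ℂ} {G : α → ℝ} (hF : ∀ j < m, Integrable (F j) μ)
    (hG : Integrable G μ) (h : ∀ z, nm m (fun j => F j z) ≤ G z) :
    nm m (fun j => ∫ z, F j z ∂μ) ≤ ∫ z, G z ∂μ := by
  set c : ℕ → ℂ := fun j => ∫ z, F j z ∂μ with hc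
  have hG0 : 0 ≤ ∫ z, G z ∂μ := integral_nonneg fun z => (nm_nonneg _ _).trans (h z)
  rcases (nm_nonneg m c).eq_or_lt with h0 | h0
  · rw [← h0]
    exact hG0
  have e1 : ((nm m c * nm m c : ℝ) : ℂ) = ∫ z, ∑ i ∈ Finset.range m, conj (c i) * F i z ∂μ := by
    rw [nm_sq, integral_finsetSum _ fun i hi => (hF i (Finset.mem_range.1 hi)).const_mul _]
    push_cast
    refine Finset.sum_congr rfl fun i _ => ?_
    rw [integral_const_mul]
    show _ = conj (c i) * c i
    rw [mul_comm, Complex.mul_conj, Complex.normSq_eq_norm_sq]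
    push_cast
    rfl
  have e2 : nm m c * nm m c ≤ ∫ z, nm m c * G z ∂μ := by
    calc nm m c * nm m c = ‖((nm m c * nm m c : ℝ) : ℂ)‖ := by
          rw [Complex.norm_real, Real.norm_of_nonneg (mul_self_nonneg _)]
      _ ≤ _ := by
          rw [e1]
          refine norm_integral_le_of_norm_le (hG.const_mul _) (Eventually.of_forall fun z => ?_)
          refine (cs_nm m _ _).trans ?_
          rw [nm_conj]
          exact mul_le_mul_of_nonneg_left (h z) h0.le
  rw [integral_const_mul] at e2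
  exact le_of_mul_le_mul_left e2 h0

theorem nm_mul_le {m : ℕ} {c : ℕ → ℂ} {s : ℂ} {A B : ℝ} (hs : ‖s‖ ≤ A) (hc : nm m c ≤ B)
    (hA : 0 ≤ A) : nm m (fun j => s * c j) ≤ A * B := by
  rw [nm_smul]
  exact mul_le_mul hs hc (nm_nonneg _ _) hA

end mink

variable {X : Type} [NormedAddCommGroup X] [NormedSpace ℂ X]
variable {N : X →L[ℂ] X} {R : ℝ} {Ψ : C(DD R, ℂ) →ₐ[ℂ] (X →L[ℂ] X)}

/-- row bounded families -/
structure RB (Ψ : C(DD R, ℂ) →ₐ[ℂ] (X →L[ℂ] X)) (u : ℕ → X) (U₀ : ℝ) : Prop where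
  nn : 0 ≤ U₀
  row : ∀ (m : ℕ) (h : ℕ → ℂ → ℂ) (M : ℝ), 0 ≤ M → (∀ j < m, Continuous (h j)) →
    (∀ z, ‖z‖ ≤ R → nm m (fun j => h j z) ≤ M) →
    ‖∑ j ∈ Finset.range m, op Ψ (h j) (u j)‖ ≤ U₀ * M
  real : ∀ (f : X →L[ℂ] ℂ) (m : ℕ), ∃ (S : Type) (_ : MeasurableSpace S) (μ : Measure S)
    (_ : SigmaFinite μ) (φ : S → ℂ) (k : Fin m → S → ℂ), Measurable φ ∧
    (∀ i, Integrable (k i) μ) ∧ ∫ s, √(∑ i, ‖k i s‖ ^ 2) ∂μ ≤ U₀ * ‖f‖ ∧
    ∀ i : Fin m, IsK Ψ f (u i) (cau μ φ (k i))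

theorem RB.cst {u : ℕ → X} {U₀ : ℝ} (h : RB Ψ u U₀) (m : ℕ) (c : ℕ → ℂ) :
    ‖∑ j ∈ Finset.range m, c j • u j‖ ≤ U₀ * nm m c := by
  have h1 := h.row m (fun j _ => c j) (nm m c) (nm_nonneg _ _) (fun j _ => continuous_const)
    (fun z _ => le_rfl)
  have e : ∀ j, op Ψ (fun _ => c j) (u j) = c j • u j := fun j => by
    rw [op_const]
    rfl
  simpa only [e] using h1

/-- bounded families of functionals -/
def VB (v : ℕ → (X →L[ℂ] ℂ)) (V₀ : ℝ) : Prop :=
  0 ≤ V₀ ∧ ∀ (m : ℕ) (x : X), nm m (fun i => v i x) ≤ V₀ * ‖x‖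

/-- norm convergence of the finite sections -/
def TL (K : X →L[ℂ] X) (u : ℕ → X) (v : ℕ → (X →L[ℂ] ℂ)) : Prop :=
  ∃ τ : ℕ → ℝ, (∀ m, 0 ≤ τ m) ∧ Tendsto τ atTop (𝓝 0) ∧
    ∀ m x, ‖K x - fr u v m x‖ ≤ τ m * ‖x‖

theorem TL.compact [CompleteSpace X] {K : X →L[ℂ] X} {u : ℕ → X} {v : ℕ → (X →L[ℂ] ℂ)}
    (h : TL K u v) : IsCompactOperator (⇑K) := by
  obtain ⟨τ, hτ0, hτ, hb⟩ := h
  have hlim : Tendsto (fr u v) atTop (𝓝 K) := by
    rw [tendsto_iff_norm_sub_tendsto_zero]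
    refine squeeze_zero (fun _ => norm_nonneg _) (fun m => ?_) hτ
    rw [norm_sub_rev]
    exact ContinuousLinearMap.opNorm_le_bound _ (hτ0 m) fun x => hb m x
  refine isCompactOperator_of_tendsto hlim (Eventually.of_forall fun m => ?_)
  have h1 : fr u v m ∈ (compactOperator (RingHom.id ℂ) X X : Submodule ℂ (X →L[ℂ] X)) := by
    unfold fr
    refine Submodule.sum_mem _ fun j _ => ?_
    exact rank_compact (u j) (v j)
  exact h1

variable {m : ℕ} {a : ℂ} {ρ B : ℝ} {g : ℂ → ℝ} {c : ℕ → ℂ → ℂ}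

theorem Dat.nb2 (h : Dat m a ρ B g c) (k : ℕ) (z : ℂ) :
    nm m (fun j => (z - a) ^ k * ((g z : ℂ) * c j z)) ≤ ρ ^ k * g z := by
  have e : (fun j => (z - a) ^ k * ((g z : ℂ) * c j z)) =
      fun j => ((z - a) ^ k * (g z : ℂ)) * c j z := by
    funext j
    ring
  rw [e]
  have hρ := h.rpos
  have h2 : ‖(z - a) ^ k * (g z : ℂ)‖ ≤ ρ ^ k * g z := by
    rw [norm_mul, norm_pow, Complex.norm_real, Real.norm_of_nonneg (h.g0 z)]
    by_cases hz : z ∈ ball a ρ
    · rw [mem_ball, dist_eq_norm] at hz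
      exact mul_le_mul_of_nonneg_right (pow_le_pow_left₀ (norm_nonneg _) hz.le k) (h.g0 z)
    · rw [h.gs z hz]
      simp
  have h3 := nm_mul_le (m := m) (c := fun j => c j z) h2 (h.c1 z)
    (mul_nonneg (by positivity) (h.g0 z))
  rwa [mul_one] at h3

theorem Dat.bint (h : Dat m a ρ B g c) {j : ℕ} (hj : j < m) (k : ℕ) :
    Integrable fun z => (z - a) ^ k * ((g z : ℂ) * c j z) :=
  ((hHT ρ h.rpos).choose_spec.2 a _ _ (h.bd hj k)).1

theorem Dat.charge2 (h : Dat m a ρ B g c) (k : ℕ) :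
    nm m (fun j => ∫ z, (z - a) ^ k * ((g z : ℂ) * c j z)) ≤ ρ ^ k * ∫ z, g z := by
  rw [← integral_const_mul]
  exact nm_integral (fun j hj => Dat.bint h hj k) (h.gint.const_mul _) (Dat.nb2 h k)

theorem Dat.far2 (h : Dat m a ρ B g c) (k : ℕ) {l : ℂ} (hl : 2 * ρ ≤ ‖l - a‖) :
    nm m (fun j => ht (fun z => (z - a) ^ k * ((g z : ℂ) * c j z)) l) ≤
      ρ ^ k * (∫ z, g z) / ρ := by
  have hρ := h.rpos
  have e : ρ ^ k * (∫ z, g z) / ρ = ∫ z, (ρ ^ k / ρ) * g z := by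
    rw [integral_const_mul]
    ring
  rw [e]
  unfold ht
  refine nm_integral (fun j hj => ((hHT ρ h.rpos).choose_spec.2 a _ _ (h.bd hj k)).2.2.1 l)
    (h.gint.const_mul _) fun z => ?_
  have e2 : (fun j => (z - a) ^ k * ((g z : ℂ) * c j z) * (z - l)⁻¹) =
      fun j => (z - l)⁻¹ * ((z - a) ^ k * ((g z : ℂ) * c j z)) := by
    funext j
    ring
  rw [e2]
  by_cases hz : z ∈ ball a ρ
  · rw [mem_ball, dist_eq_norm] at hz
    have h1 : ρ ≤ ‖z - l‖ := by
      have h2 : ‖l - a‖ ≤ ‖z - l‖ + ‖z - a‖ := by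
        have e : l - a = -(z - l) + (z - a) := by ring
        rw [e]
        refine (norm_add_le _ _).trans ?_
        rw [norm_neg]
      linarith
    have h3 : ‖(z - l)⁻¹‖ ≤ ρ⁻¹ := by
      rw [norm_inv]
      exact inv_anti₀ hρ h1
    calc _ ≤ ρ⁻¹ * (ρ ^ k * g z) := nm_mul_le h3 (Dat.nb2 h k z) (by positivity)
      _ = _ := by ring
  · have h2 := h.gs z hz
    have e3 : (fun j => (z - l)⁻¹ * ((z - a) ^ k * ((g z : ℂ) * c j z))) = fun _ => 0 := by
      funext j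
      rw [h2]
      simp
    rw [e3, h2]
    simp [nm]

/-- the bounds -/
theorem VV_bound2 (hΨ : Cal N R Ψ) {C₀ : ℝ} (hC : CB Ψ C₀) (h : Dat m a ρ B g c) {u : ℕ → X}
    {U₀ : ℝ} (hU : RB Ψ u U₀) (k : ℕ) :
    ‖VV Ψ u m a g c k‖ ≤
      (C₀ + 1) * (‖VV Ψ u m a g c 0‖ + 2 * (∫ z, g z) * U₀ / ρ) * (4 * ρ) ^ k := by
  have hρ := h.rpos
  have hC0 := hC.1
  have hI : 0 ≤ ∫ z, g z := integral_nonneg h.g0
  have hU0 : 0 ≤ U₀ := hU.nn
  set η := cf a (2 * ρ) with hη
  have hηc : Continuous η := cf_cont a (2 * ρ)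
  set G : ℝ := (∫ z, g z) * U₀ with hG
  have hG0 : 0 ≤ G := mul_nonneg hI hU0
  -- the operators `η (z - a)^i`
  have hpc : ∀ i : ℕ, Continuous fun z : ℂ => η z * (z - a) ^ i := fun i => by fun_prop
  have hop : ∀ i : ℕ, ‖op Ψ (fun z => η z * (z - a) ^ i)‖ ≤ C₀ * (4 * ρ) ^ i := by
    intro i
    refine hC.op _ _ (hpc i) (by positivity) fun z _ => ?_
    rw [norm_mul, norm_pow]
    rcases le_or_gt (4 * ρ) ‖z - a‖ with h1 | h1
    · rw [hη, cf_zero (t := 2 * ρ) (by positivity) (by linarith), norm_zero, zero_mul]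
      positivity
    · calc ‖η z‖ * ‖z - a‖ ^ i ≤ 1 * (4 * ρ) ^ i :=
            mul_le_mul (cf_norm _ _ _) (pow_le_pow_left₀ (norm_nonneg _) h1.le i) (by positivity)
              zero_le_one
        _ = _ := one_mul _
  have hs : ∀ k, ‖∑ j ∈ Finset.range m, (∫ z, (z - a) ^ k * ((g z : ℂ) * c j z)) • u j‖ ≤
      ρ ^ k * G := by
    intro k
    refine (hU.cst m _).trans ?_
    calc U₀ * nm m (fun j => ∫ z, (z - a) ^ k * ((g z : ℂ) * c j z)) ≤
          U₀ * (ρ ^ k * ∫ z, g z) := mul_le_mul_of_nonneg_left (Dat.charge2 h k) hU0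
      _ = _ := by rw [hG]; ring
  -- the near part
  have hnear : ∀ k i, ‖op Ψ (fun z => η z * (z - a) ^ i) (VV Ψ u m a g c k)‖ ≤
      C₀ * (4 * ρ) ^ (i + k) * (‖VV Ψ u m a g c 0‖ + (1 - (1 / 4) ^ k) / (3 * ρ) * G) := by
    intro k
    induction k with
    | zero =>
      intro i
      have h1 := (op Ψ (fun z => η z * (z - a) ^ i)).le_opNorm (VV Ψ u m a g c 0)
      have h2 := mul_le_mul_of_nonneg_right (hop i) (norm_nonneg (VV Ψ u m a g c 0))
      simp only [add_zero, pow_zero, sub_self, zero_div, zero_mul]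
      exact h1.trans h2
    | succ k ih =>
      intro i
      have e1 : VV Ψ u m a g c (k + 1) = (N (VV Ψ u m a g c k) - a • VV Ψ u m a g c k) +
          ∑ j ∈ Finset.range m, (∫ z, (z - a) ^ k * ((g z : ℂ) * c j z)) • u j := by
        rw [VV_step hΨ h u k]
        abel
      have e2 : op Ψ (fun z => η z * (z - a) ^ i) (N (VV Ψ u m a g c k) - a • VV Ψ u m a g c k) =
          op Ψ (fun z => η z * (z - a) ^ (i + 1)) (VV Ψ u m a g c k) := by
        have e3 : N (VV Ψ u m a g c k) - a • VV Ψ u m a g c k =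
            op Ψ (fun z => z - a) (VV Ψ u m a g c k) := by
          rw [op_sub continuous_id' continuous_const, op_id hΨ, op_const]
          rfl
        rw [e3, ← op_mul_apply (hpc i) (by fun_prop)]
        congr 2
        funext z
        ring
      rw [e1, map_add, e2]
      have h1 := ih (i + 1)
      have h2 : ‖op Ψ (fun z => η z * (z - a) ^ i)
          (∑ j ∈ Finset.range m, (∫ z, (z - a) ^ k * ((g z : ℂ) * c j z)) • u j)‖ ≤
          C₀ * (4 * ρ) ^ i * (ρ ^ k * G) :=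
        ((op Ψ _).le_opNorm _).trans (mul_le_mul (hop i) (hs k) (norm_nonneg _) (by positivity))
      refine (norm_add_le _ _).trans ((add_le_add h1 h2).trans (le_of_eq ?_))
      have e4 : (4 * ρ) ^ (i + 1 + k) = (4 * ρ) ^ i * (4 * ρ) * (4 * ρ) ^ k := by ring
      have e5 : (4 * ρ) ^ (i + (k + 1)) = (4 * ρ) ^ i * (4 * ρ) * (4 * ρ) ^ k := by ring
      have e6 : (4 * ρ) ^ k = 4 ^ k * ρ ^ k := mul_pow _ _ _
      have e7 : ((1:ℝ) / 4) ^ (k + 1) = (1 / 4) * (1 / 4) ^ k := by ring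
      have e8 : (4:ℝ) ^ k * (1 / 4) ^ k = 1 := by rw [← mul_pow]; norm_num
      rw [e4, e5, e7, e6]
      field_simp
      have e9 : ((1:ℝ) / 4) ^ k = 1 / 4 ^ k := by rw [div_pow, one_pow]
      rw [e9]
      field_simp
      ring
  -- the far part
  have hfar : ‖op Ψ (fun z => 1 - η z) (VV Ψ u m a g c k)‖ ≤ ρ ^ k * G / ρ := by
    have hc1 : Continuous fun z => 1 - η z := continuous_const.sub hηc
    have e1 : op Ψ (fun z => 1 - η z) (VV Ψ u m a g c k) = ∑ j ∈ Finset.range m,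
        op Ψ (fun l => (1 - η l) * ht (fun z => (z - a) ^ k * ((g z : ℂ) * c j z)) l) (u j) := by
      unfold VV
      rw [map_sum]
      refine Finset.sum_congr rfl fun j hj => ?_
      rw [op_mul_apply (h := fun z => 1 - η z) hc1 (h.htc (Finset.mem_range.1 hj) k)]
    rw [e1]
    have h2 := hU.row m (fun j l => (1 - η l) * ht (fun z => (z - a) ^ k * ((g z : ℂ) * c j z)) l)
      (ρ ^ k * (∫ z, g z) / ρ) (by positivity)
      (fun j hj => hc1.mul (h.htc hj k)) (fun z _ => by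
        rcases le_or_gt ‖z - a‖ (2 * ρ) with h2 | h2
        · have e3 : (fun j => (1 - η z) *
              ht (fun z => (z - a) ^ k * ((g z : ℂ) * c j z)) z) = fun _ => 0 := by
            funext j
            rw [hη, cf_one (t := 2 * ρ) (by positivity) h2, sub_self, zero_mul]
          rw [e3]
          have : nm m (fun _ => (0:ℂ)) = 0 := by simp [nm]
          rw [this]
          positivity
        · have h4 : ‖(1:ℂ) - η z‖ ≤ 1 := by
            have e : (1:ℂ) - η z = ((1 - cfr a (2 * ρ) z : ℝ) : ℂ) := by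
              rw [hη]
              unfold cf
              push_cast
              rfl
            rw [e, Complex.norm_real, Real.norm_of_nonneg (sub_nonneg.2 (cfr_le _ _ _))]
            linarith [cfr_nonneg a (2 * ρ) z]
          have h5 := nm_mul_le (m := m)
            (c := fun j => ht (fun z => (z - a) ^ k * ((g z : ℂ) * c j z)) z) h4
            (Dat.far2 h k h2.le) zero_le_one
          rwa [one_mul] at h5)
    refine h2.trans (le_of_eq ?_)
    rw [hG]
    ring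
  -- together
  have e1 : VV Ψ u m a g c k = op Ψ (fun z => η z * (z - a) ^ 0) (VV Ψ u m a g c k) +
      op Ψ (fun z => 1 - η z) (VV Ψ u m a g c k) := by
    have e2 : (fun z => η z * (z - a) ^ 0) = η := by
      funext z
      rw [pow_zero, mul_one]
    rw [e2, op_sub continuous_const hηc, op_const, one_smul]
    simp
  rw [e1]
  refine (norm_add_le _ _).trans ((add_le_add (hnear k 0) hfar).trans ?_)
  have h1 : (1 - (1 / 4 : ℝ) ^ k) / (3 * ρ) * G ≤ 1 / (3 * ρ) * G := by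
    refine mul_le_mul_of_nonneg_right ?_ hG0
    refine div_le_div_of_nonneg_right ?_ (by positivity)
    have : (0:ℝ) ≤ (1 / 4) ^ k := by positivity
    linarith
  have h2 : ρ ^ k * G / ρ ≤ (4 * ρ) ^ k * (G / ρ) := by
    have h3 : ρ ^ k ≤ (4 * ρ) ^ k := pow_le_pow_left₀ hρ.le (by linarith) k
    calc ρ ^ k * G / ρ = ρ ^ k * (G / ρ) := by ring
      _ ≤ _ := mul_le_mul_of_nonneg_right h3 (by positivity)
  have h3 : 1 / (3 * ρ) * G ≤ 2 * G / ρ := by
    have e : 1 / (3 * ρ) * G = 1 / 3 * (G / ρ) := by field_simp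
    have e' : 2 * G / ρ = 2 * (G / ρ) := by ring
    have : 0 ≤ G / ρ := by positivity
    rw [e, e']
    linarith
  have h4 : (0:ℝ) ≤ (4 * ρ) ^ k := by positivity
  have h5 : G / ρ ≤ 2 * G / ρ := by
    have e' : 2 * G / ρ = 2 * (G / ρ) := by ring
    have : 0 ≤ G / ρ := by positivity
    rw [e']
    linarith
  have e10 : 2 * (∫ z, g z) * U₀ / ρ = 2 * G / ρ := by rw [hG]; ring
  rw [zero_add, e10]
  have hV0 := norm_nonneg (VV Ψ u m a g c 0)
  calc C₀ * (4 * ρ) ^ k * (‖VV Ψ u m a g c 0‖ + (1 - (1 / 4) ^ k) / (3 * ρ) * G) +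
        ρ ^ k * G / ρ ≤
        C₀ * (4 * ρ) ^ k * (‖VV Ψ u m a g c 0‖ + 2 * G / ρ) +
        (4 * ρ) ^ k * (‖VV Ψ u m a g c 0‖ + 2 * G / ρ) := by
        refine add_le_add ?_ (h2.trans ?_)
        · refine mul_le_mul_of_nonneg_left ?_ (by positivity)
          linarith
        · refine mul_le_mul_of_nonneg_left ?_ h4
          linarith
    _ = _ := by ring

section err

variable {S : Type} [MeasurableSpace S] {μ : Measure S} {φ : S → ℂ} {u' v' : ℕ → Lp ℂ 2 μ}

/-- the error of the approximate chain -/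
theorem VV_err2 (hΨ : Cal N R Ψ) (h : Dat m a ρ B g c) {u : ℕ → X} {v : ℕ → (X →L[ℂ] ℂ)}
    (hF : ∀ i j, IsK Ψ (v i) (u j) (ct φ (v' i) (u' j))) {U₀ : ℝ}
    (hU : RB Ψ u U₀) (k : ℕ) :
    ‖(N + fr u v m) (VV Ψ u m a g c k) - a • VV Ψ u m a g c k - VV Ψ u m a g c (k + 1)‖ ≤
      U₀ * ρ ^ k * ∫ z, g z * nm m (Am φ u' v' m z fun j => c j z) := by
  obtain ⟨hi1, hi2⟩ := h.Am_int hF
  have hρ := h.rpos
  set E : ℕ → ℂ := fun i => ∫ z, (z - a) ^ k * ((g z : ℂ) * Am φ u' v' m z (fun j => c j z) i)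
    with hE
  have hI : 0 ≤ ∫ z, g z * nm m (Am φ u' v' m z fun j => c j z) :=
    integral_nonneg fun z => mul_nonneg (h.g0 z) (nm_nonneg _ _)
  -- integrability with the power
  have hkey : ∀ i < m, Integrable (fun z => (z - a) ^ k *
      ((g z : ℂ) * Am φ u' v' m z (fun j => c j z) i)) := by
    intro i hi
    obtain ⟨h3, h4⟩ := VV_pair h u (v i) (fun j => ct φ (v' i) (u' j)) (fun j _ => hF i j) k
    have h5 := ((hHT ρ h.rpos).choose_spec.2 a _ _ (h.bd hi k)).1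
    refine (h5.sub h3).congr (Eventually.of_forall fun z => ?_)
    simp only [Pi.sub_apply, Am]
    have e : ∑ j ∈ Finset.range m, ct φ (v' i) (u' j) z * c j z =
        ∑ j ∈ Finset.range m, c j z * ct φ (v' i) (u' j) z :=
      Finset.sum_congr rfl fun j _ => mul_comm _ _
    rw [e]
    ring
  have e1 : (N + fr u v m) (VV Ψ u m a g c k) - a • VV Ψ u m a g c k - VV Ψ u m a g c (k + 1) =
      -∑ i ∈ Finset.range m, E i • u i := by
    have h1 : (N + fr u v m) (VV Ψ u m a g c k) = N (VV Ψ u m a g c k) +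
        ∑ i ∈ Finset.range m, v i (VV Ψ u m a g c k) • u i := by
      rw [add_apply, fr_apply]
    have h2 : ∀ i ∈ Finset.range m, E i =
        (∫ z, (z - a) ^ k * ((g z : ℂ) * c i z)) - v i (VV Ψ u m a g c k) := by
      intro i hi
      obtain ⟨h3, h4⟩ := VV_pair h u (v i) (fun j => ct φ (v' i) (u' j)) (fun j _ => hF i j) k
      have h5 := ((hHT ρ h.rpos).choose_spec.2 a _ _ (h.bd (Finset.mem_range.1 hi) k)).1
      rw [h4, ← integral_sub h5 h3]
      simp only [hE]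
      refine integral_congr_ae (Eventually.of_forall fun z => ?_)
      simp only [Am]
      have e : ∑ j ∈ Finset.range m, ct φ (v' i) (u' j) z * c j z =
          ∑ j ∈ Finset.range m, c j z * ct φ (v' i) (u' j) z :=
        Finset.sum_congr rfl fun j _ => mul_comm _ _
      rw [e]
      ring
    have h3 : ∑ i ∈ Finset.range m, E i • u i =
        (∑ j ∈ Finset.range m, (∫ z, (z - a) ^ k * ((g z : ℂ) * c j z)) • u j) -
        ∑ i ∈ Finset.range m, v i (VV Ψ u m a g c k) • u i := by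
      rw [← Finset.sum_sub_distrib]
      refine Finset.sum_congr rfl fun i hi => ?_
      rw [h2 i hi, sub_smul]
    rw [h1, h3]
    have h4 := VV_step hΨ h u k
    have h5 : N (VV Ψ u m a g c k) = a • VV Ψ u m a g c k + (VV Ψ u m a g c (k + 1) -
      ∑ j ∈ Finset.range m, (∫ z, (z - a) ^ k * ((g z : ℂ) * c j z)) • u j) := by
      rw [← h4]
      abel
    rw [h5]
    abel
  rw [e1, norm_neg]
  have h2 : nm m E ≤ ρ ^ k * ∫ z, g z * nm m (Am φ u' v' m z fun j => c j z) := by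
    rw [← integral_const_mul]
    refine nm_integral hkey (hi2.const_mul _) fun z => ?_
    have e : (fun i => (z - a) ^ k * ((g z : ℂ) * Am φ u' v' m z (fun j => c j z) i)) =
        fun i => ((z - a) ^ k * (g z : ℂ)) * Am φ u' v' m z (fun j => c j z) i := by
      funext i
      ring
    rw [e, nm_smul, norm_mul, norm_pow, Complex.norm_real, Real.norm_of_nonneg (h.g0 z)]
    by_cases hz : z ∈ ball a ρ
    · rw [mem_ball, dist_eq_norm] at hz
      rw [mul_assoc]
      exact mul_le_mul_of_nonneg_right (pow_le_pow_left₀ (norm_nonneg _) hz.le k)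
        (mul_nonneg (h.g0 z) (nm_nonneg _ _))
    · rw [h.gs z hz]
      simp
  calc ‖∑ i ∈ Finset.range m, E i • u i‖ ≤ U₀ * nm m E := hU.cst m E
    _ ≤ U₀ * (ρ ^ k * ∫ z, g z * nm m (Am φ u' v' m z fun j => c j z)) :=
        mul_le_mul_of_nonneg_left h2 hU.nn
    _ = _ := by ring

end err

end Pool.Agent.Q98.SK
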