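import Pool.Agent.Q98.SK.Base

/-!
# Case A for row bounded families (project SK)

The proofs are those of `Pool.Agent.Q88.NB.Min`, `Pool.Agent.Q88.NB.CaseA`.
-/

set_option autoImplicit false

namespace Pool.Agent.Q98.SK

open MeasureTheory Set Metric Filter Topology
open scoped ENNReal NNReal ComplexConjugate
open Pool.Agent.Y283.NK (ct)
open Pool.Agent.Y271.RO (ht Bd hHT hCTG)
open Pool.Agent.Q98.RB
open Pool.Agent.Q98.NR (IsK)
open Pool.Agent.Q88.NB
open Pool.Agent.Q130.TC (cau S_CAU WT S_MZ nm Am sm S_SM S_CMA IsW)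

variable {X : Type} [NormedAddCommGroup X] [NormedSpace ℂ X]
variable {N : X →L[ℂ] X} {R : ℝ} {Ψ : C(DD R, ℂ) →ₐ[ℂ] (X →L[ℂ] X)}

section min

variable {m : ℕ} {a : ℂ} {ρ B : ℝ} {g : ℂ → ℝ} {c : ℕ → ℂ → ℂ}

/-- MIN for a reflexive (in fact for every) Banach space -/
theorem min_main2 (hMZ : S_MZ) :
    ∃ C₁ : ℝ, 0 < C₁ ∧ ∀ (u : ℕ → X) (m : ℕ) (U₀ : ℝ), RB Ψ u U₀ →
      ∀ (h : ℂ → ℝ) (C δ ρ B : ℝ) (a : ℂ) (c : ℕ → ℂ → ℂ), Dat m a ρ B h c → 0 < C → 0 ≤ δ →
      WT h C δ → C₁ * δ ≤ ∫ z, h z → ∃ g : ℂ → ℝ, Dat m a ρ B g c ∧ (∀ z, g z ≤ h z) ∧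
        (∫ z, h z) / 2 ≤ ∫ z, g z ∧ ‖VV Ψ u m a g c 0‖ ≤ C₁ * C * U₀ + 1 := by
  obtain ⟨D₀, hD₀, hMZ⟩ := hMZ
  refine ⟨4 * D₀, by positivity, fun u m U₀ hU h C δ ρ B a c hd hCp hδ hWT hδI => ?_⟩
  have hU0 : 0 ≤ U₀ := hU.nn
  set I : ℝ := ∫ z, h z with hI
  have hI0 : 0 ≤ I := integral_nonneg hd.g0
  by_cases hIz : I = 0
  · refine ⟨h, hd, fun z => le_rfl, by linarith, ?_⟩
    have h1 : h =ᵐ[volume] 0 := (integral_eq_zero_iff_of_nonneg hd.g0 hd.gint).1 hIz
    have h2 : VV Ψ u m a h c 0 = 0 := by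
      unfold VV
      refine Finset.sum_eq_zero fun j _ => ?_
      have h3 : ht (fun z => (z - a) ^ 0 * ((h z : ℂ) * c j z)) = fun _ => 0 := by
        funext l
        unfold ht
        refine integral_eq_zero_of_ae ?_
        filter_upwards [h1] with z hz
        rw [hz]
        simp
      rw [h3, op_zero]
      rfl
    rw [h2, norm_zero]
    positivity
  have hIp : 0 < I := lt_of_le_of_ne hI0 (Ne.symm hIz)
  set M : ℝ := 4 * D₀ * C * U₀ + 1 with hM
  have hMp : 0 < M := by positivity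
  by_contra hcon
  push Not at hcon
  -- the convex set
  set W : Set X := {y | ∃ g : ℂ → ℝ, Dat m a ρ B g c ∧ (∀ z, g z ≤ h z) ∧ I / 2 ≤ ∫ z, g z ∧
    VV Ψ u m a g c 0 = y} with hW
  have hWc : Convex ℝ W := by
    rintro _ ⟨g₁, d₁, l₁, i₁, rfl⟩ _ ⟨g₂, d₂, l₂, i₂, rfl⟩ t₁ t₂ ht₁ ht₂ hsum
    refine ⟨fun z => t₁ * g₁ z + t₂ * g₂ z, ?_, fun z => ?_, ?_, ?_⟩
    · refine ⟨d₁.rpos, (d₁.gm.const_mul t₁).add (d₂.gm.const_mul t₂), fun z => ?_, fun z => ?_,
        fun z hz => ?_, d₁.cm, d₁.c1⟩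
      · exact add_nonneg (mul_nonneg ht₁ (d₁.g0 z)) (mul_nonneg ht₂ (d₂.g0 z))
      · have h1 := mul_le_mul_of_nonneg_left (d₁.gB z) ht₁
        have h2 := mul_le_mul_of_nonneg_left (d₂.gB z) ht₂
        have h3 : t₁ * B + t₂ * B = B := by rw [← add_mul, hsum, one_mul]
        linarith
      · rw [d₁.gs z hz, d₂.gs z hz, mul_zero, mul_zero, add_zero]
    · have h1 := mul_le_mul_of_nonneg_left (l₁ z) ht₁
      have h2 := mul_le_mul_of_nonneg_left (l₂ z) ht₂
      have h3 : t₁ * h z + t₂ * h z = h z := by rw [← add_mul, hsum, one_mul]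
      linarith
    · rw [integral_add (d₁.gint.const_mul t₁) (d₂.gint.const_mul t₂), integral_const_mul,
        integral_const_mul]
      have h1 := mul_le_mul_of_nonneg_left i₁ ht₁
      have h2 := mul_le_mul_of_nonneg_left i₂ ht₂
      have h3 : t₁ * (I / 2) + t₂ * (I / 2) = I / 2 := by rw [← add_mul, hsum, one_mul]
      linarith
    · rw [VV_lin d₁ d₂]
      rfl
  have hdisj : Disjoint (ball (0:X) M) W := by
    rw [Set.disjoint_left]
    rintro _ hy ⟨g, d, l, i, rfl⟩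
    have h1 := hcon g d l i
    rw [mem_ball_zero_iff] at hy
    linarith
  obtain ⟨f, s, hf1, hf2⟩ := RCLike.geometric_hahn_banach_open (𝕜 := ℂ)
    (convex_ball (0:X) M) isOpen_ball hWc hdisj
  have hmemW : ∀ g : ℂ → ℝ, Dat m a ρ B g c → (∀ z, g z ≤ h z) → I / 2 ≤ ∫ z, g z →
      s ≤ (f (VV Ψ u m a g c 0)).re := fun g d l i => hf2 _ ⟨g, d, l, i, rfl⟩
  have hs0 : 0 < s := by
    have := hf1 0 (mem_ball_self hMp)
    simpa using this
  have hfM : ‖f‖ * M ≤ s := by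
    have h1 : ‖f‖ ≤ s / M := by
      refine ContinuousLinearMap.opNorm_le_of_unit_norm (by positivity) fun x hx => ?_
      by_contra hlt
      push Not at hlt
      have hfx : 0 < ‖f x‖ := lt_trans (by positivity) hlt
      have h2 : s / ‖f x‖ < M := by
        rw [div_lt_iff₀ hMp] at hlt
        rw [div_lt_iff₀ hfx]
        linarith
      have h3 := hf1 (((s / ‖f x‖ ^ 2 : ℝ) : ℂ) • (conj (f x)) • x) (by
        rw [mem_ball_zero_iff, norm_smul, norm_smul, RCLike.norm_conj, hx, Complex.norm_real,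
          Real.norm_of_nonneg (by positivity)]
        have e : s / ‖f x‖ ^ 2 * (‖f x‖ * 1) = s / ‖f x‖ := by
          field_simp
        rw [e]
        exact h2)
      have e0 : f (((s / ‖f x‖ ^ 2 : ℝ) : ℂ) • (conj (f x)) • x) =
          ((s / ‖f x‖ ^ 2 : ℝ) : ℂ) * (conj (f x) * f x) := by
        rw [f.map_smul, f.map_smul, smul_eq_mul, smul_eq_mul]
      rw [e0] at h3
      have e : ((s / ‖f x‖ ^ 2 : ℝ) : ℂ) * (conj (f x) * f x) = ((s : ℝ) : ℂ) := by
        have e2 : conj (f x) * f x = ((‖f x‖ ^ 2 : ℝ) : ℂ) := by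
          rw [mul_comm, Complex.mul_conj, Complex.normSq_eq_norm_sq]
        rw [e2, ← Complex.ofReal_mul]
        congr 1
        field_simp
      rw [e] at h3
      simp at h3
    rwa [le_div_iff₀ hMp] at h1
  have hf0 : 0 < ‖f‖ := by
    rcases (norm_nonneg f).eq_or_lt with h0 | h0
    · exfalso
      have h1 := hmemW h hd (fun z => le_rfl) (by linarith)
      have h2 : f = 0 := norm_eq_zero.1 h0.symm
      rw [h2] at h1
      simp at h1
      linarith
    · exact h0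
  obtain ⟨S, _, μ, _, φ, k, hφ, hk, hkb, hK⟩ := hU.real f m
  set Λ : ℝ := ‖f‖ * (4 * D₀ * C * U₀ + 1 / 2) / I with hΛ
  have hΛ0 : 0 < Λ := by positivity
  -- the bad set
  set T : Set ℂ := {z | Λ ≤ √(∑ i, ‖cau μ φ (k i) z‖ ^ 2)} with hT
  have hTm : MeasurableSet T := by
    refine measurableSet_le measurable_const ?_
    exact (Finset.measurable_sum _ fun i _ => ((hK i).meas.norm.pow_const 2)).sqrt
  have hbad : ∫ z in T, h z ≤ I / 2 := by
    have h1 := hMZ h C δ hd.gint hd.g0 hCp.le hδ hWT (Fin m) S μ φ k hφ hk Λ hΛ0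
    refine h1.trans ?_
    have h2 : C * (∫ s, √(∑ i, ‖k i s‖ ^ 2) ∂μ) / Λ ≤ C * (U₀ * ‖f‖) / Λ := by
      gcongr
    have h3 : D₀ * (C * (U₀ * ‖f‖) / Λ) ≤ I / 4 := by
      rw [hΛ]
      have e : D₀ * (C * (U₀ * ‖f‖) / (‖f‖ * (4 * D₀ * C * U₀ + 1 / 2) / I)) =
          I / 4 * ((4 * D₀ * C * U₀) / (4 * D₀ * C * U₀ + 1 / 2)) := by
        field_simp
      rw [e]
      refine mul_le_of_le_one_right (by positivity) ?_
      rw [div_le_one (by positivity)]
      linarith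
    have h4 : D₀ * δ ≤ I / 4 := by
      linarith
    calc D₀ * (C * (∫ s, √(∑ i, ‖k i s‖ ^ 2) ∂μ) / Λ + δ) ≤
          D₀ * (C * (U₀ * ‖f‖) / Λ + δ) := by gcongr
      _ = D₀ * (C * (U₀ * ‖f‖) / Λ) + D₀ * δ := by ring
      _ ≤ _ := by linarith
  -- the density
  have hd' : Dat m a ρ B (Tᶜ.indicator h) c := by
    refine ⟨hd.rpos, hd.gm.indicator hTm.compl, fun z => indicator_nonneg (fun z _ => hd.g0 z) z,
      fun z => ?_, fun z hz => ?_, hd.cm, hd.c1⟩
    · by_cases hz : z ∈ Tᶜ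
      · rw [indicator_of_mem hz]
        exact hd.gB z
      · rw [indicator_of_notMem hz]
        exact hd.B0
    · by_cases hz' : z ∈ Tᶜ
      · rw [indicator_of_mem hz']
        exact hd.gs z hz
      · rw [indicator_of_notMem hz']
  have hle : ∀ z, Tᶜ.indicator h z ≤ h z := fun z => indicator_le_self' (fun z _ => hd.g0 z) z
  have hmass : I / 2 ≤ ∫ z, Tᶜ.indicator h z := by
    rw [integral_indicator hTm.compl]
    have h1 := integral_add_compl hTm hd.gint
    linarith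
  have h1 := hmemW _ hd' hle hmass
  -- the pairing
  set K' : ℕ → ℂ → ℂ := fun j => if hj : j < m then cau μ φ (k ⟨j, hj⟩) else 0 with hK'
  have hKK : ∀ j < m, IsK Ψ f (u j) (K' j) := by
    intro j hj
    simp only [hK', dif_pos hj]
    exact hK ⟨j, hj⟩
  obtain ⟨-, h2⟩ := VV_pair hd' u f K' hKK 0
  have h3 : ‖f (VV Ψ u m a (Tᶜ.indicator h) c 0)‖ ≤ Λ * I := by
    rw [h2, hI, ← integral_const_mul]
    refine norm_integral_le_of_norm_le (hd.gint.const_mul _) (Eventually.of_forall fun z => ?_)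
    rw [pow_zero, one_mul, norm_mul, Complex.norm_real, Real.norm_of_nonneg (hd'.g0 z)]
    by_cases hz : z ∈ Tᶜ
    · rw [indicator_of_mem hz, mul_comm]
      refine mul_le_mul_of_nonneg_right ?_ (hd.g0 z)
      have h4 : √(∑ i, ‖cau μ φ (k i) z‖ ^ 2) < Λ := not_le.1 hz
      have h5 : ∑ i, ‖cau μ φ (k i) z‖ ^ 2 = ∑ j ∈ Finset.range m, ‖K' j z‖ ^ 2 := by
        rw [Finset.sum_range]
        refine Finset.sum_congr rfl fun i _ => ?_
        simp [hK']
      rw [h5] at h4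
      refine le_trans ?_ h4.le
      calc ‖∑ j ∈ Finset.range m, c j z * K' j z‖ ≤ ∑ j ∈ Finset.range m, ‖c j z‖ * ‖K' j z‖ := by
            refine (norm_sum_le _ _).trans (le_of_eq ?_)
            refine Finset.sum_congr rfl fun j _ => norm_mul _ _
        _ ≤ √(∑ j ∈ Finset.range m, ‖c j z‖ ^ 2) * √(∑ j ∈ Finset.range m, ‖K' j z‖ ^ 2) :=
            Real.sum_mul_le_sqrt_mul_sqrt _ _ _
        _ ≤ 1 * √(∑ j ∈ Finset.range m, ‖K' j z‖ ^ 2) :=
            mul_le_mul_of_nonneg_right (hd.c1 z) (Real.sqrt_nonneg _)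
        _ = _ := one_mul _
    · rw [indicator_of_notMem hz, zero_mul]
      exact mul_nonneg hΛ0.le (hd.g0 z)
  have h4 : ‖f‖ * M ≤ ‖f‖ * (4 * D₀ * C * U₀ + 1 / 2) := by
    have h5 : Λ * I = ‖f‖ * (4 * D₀ * C * U₀ + 1 / 2) := by
      rw [hΛ, div_mul_cancel₀ _ hIp.ne']
    rw [← h5]
    exact hfM.trans (h1.trans ((Complex.re_le_norm _).trans h3))
  have h5 := le_of_mul_le_mul_left h4 hf0
  rw [hM] at h5
  linarith

end min

section stepA

variable {S : Type} [MeasurableSpace S] {μ : Measure S} [SigmaFinite μ] {φ : S → ℂ}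
  {u' v' : ℕ → Lp ℂ 2 μ}

/-- one approximate chain -/
theorem stepA2 (hMZ : S_MZ) (hSM : S_SM) (hCMA : S_CMA)
    (hφ : Measurable φ) (hu' : Summable fun j => ‖u' j‖ ^ 2) (hv' : Summable fun j => ‖v' j‖ ^ 2)
    {u : ℕ → X} {v : ℕ → (X →L[ℂ] ℂ)} (hF : ∀ i j, IsK Ψ (v i) (u j) (ct φ (v' i) (u' j)))
    {U₀ : ℝ} (hsu : RB Ψ u U₀) {w : ℂ → ℝ} (hw : IsW φ u' v' w) {a : ℂ} {ρ C c₀ : ℝ}
    {l : ℕ → ℂ → ℝ} {B δ : ℕ → ℝ} (hρ : 0 < ρ) (hC : 0 < C) (hc₀ : 0 < c₀)
    (hlm : ∀ n, Measurable (l n)) (hlB : ∀ n z, 0 ≤ l n z ∧ l n z ≤ B n)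
    (hls : ∀ n z, z ∉ ball a ρ → l n z = 0) (hl1 : ∀ n, c₀ ≤ ∫ z, l n z)
    (hl2 : ∀ n, ∫ z, l n z ≤ C) (hδ : ∀ n, 0 ≤ δ n) (hδ0 : Tendsto δ atTop (𝓝 0))
    (hWT : ∀ n, WT (l n) C (δ n)) (hlw : Tendsto (fun n => ∫ z, w z * l n z) atTop (𝓝 0))
    (τ : ℕ → ℝ) (hτ : Tendsto τ atTop (𝓝 0)) :
    ∃ (A θ : ℝ) (J : ℕ), 0 < θ ∧ 0 ≤ A ∧ ∀ ε : ℝ, 0 < ε → ∃ (m : ℕ) (B' : ℝ) (g : ℂ → ℝ)
      (c : ℕ → ℂ → ℂ), Dat m a ρ B' g c ∧ ∫ z, g z ≤ C ∧ ‖VV Ψ u m a g c 0‖ ≤ A ∧
      (∫ z, g z * nm m (Am φ u' v' m z fun j => c j z)) ≤ ε ∧ τ m ≤ ε ∧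
      ∃ j, j < J ∧ j < m ∧ θ ≤ ‖∫ z, (g z : ℂ) * c j z‖ := by
  classical
  obtain ⟨C₁, hC₁, hmin⟩ := min_main2 (Ψ := Ψ) hMZ
  obtain ⟨J, θ, δ₀, hθ, hδ₀, hcma⟩ := hCMA S μ φ hφ u' v' hu' hv' C c₀ hC hc₀
  have hU0 : 0 ≤ U₀ := hsu.nn
  refine ⟨C₁ * C * U₀ + 1, θ * (θ / 2), J, by positivity, by positivity,
    fun ε hε => ?_⟩
  set ε' : ℝ := min ε δ₀ / 3 with hε'
  have hε'0 : 0 < ε' := by positivity
  -- the density
  obtain ⟨n, hn1, hn2, hn3⟩ : ∃ n, δ n ≤ δ₀ ∧ C₁ * δ n ≤ θ ∧ ∫ z, w z * l n z ≤ ε' := by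
    have e1 : ∀ᶠ n in atTop, δ n ≤ δ₀ := hδ0.eventually_le_const hδ₀
    have e2 : ∀ᶠ n in atTop, C₁ * δ n ≤ θ := by
      have : Tendsto (fun n => C₁ * δ n) atTop (𝓝 0) := by simpa using hδ0.const_mul C₁
      exact this.eventually_le_const hθ
    exact (e1.and (e2.and (hlw.eventually_le_const hε'0))).exists
  have hln : Integrable (l n) := by
    have h1 : Integrable (fun z => (ball a ρ).indicator (fun _ => B n) z) :=
      (integrable_indicator_iff measurableSet_ball).2 (integrableOn_const measure_ball_lt_top.ne)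
    refine h1.mono' (hlm n).aestronglyMeasurable (Eventually.of_forall fun z => ?_)
    rw [Real.norm_of_nonneg (hlB n z).1]
    by_cases hz : z ∈ ball a ρ
    · rw [indicator_of_mem hz]
      exact (hlB n z).2
    · rw [indicator_of_notMem hz, hls n z hz]
  have hB0 : 0 ≤ B n := (hlB n 0).1.trans (hlB n 0).2
  -- the size
  have hsub : ball a ρ ⊆ ball (0:ℂ) (‖a‖ + ρ) := by
    intro z hz
    rw [mem_ball, dist_eq_norm] at hz
    rw [mem_ball_zero_iff]
    calc ‖z‖ = ‖(z - a) + a‖ := by rw [sub_add_cancel]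
      _ ≤ ‖z - a‖ + ‖a‖ := norm_add_le _ _
      _ < _ := by linarith
  obtain ⟨m, hm1, hm2, hm3⟩ : ∃ m, 1 ≤ m ∧ τ m ≤ ε ∧
      (∫⁻ z in ball (0:ℂ) (‖a‖ + ρ), ‖sm φ u' v' m z - w z‖ₑ) ≤
        ENNReal.ofReal (ε' / (B n + 1)) := by
    have e1 : ∀ᶠ m in atTop, τ m ≤ ε := hτ.eventually_le_const hε
    have e2 := (hw.lim (‖a‖ + ρ)).eventually_le_const
      (show (0:ℝ≥0∞) < ENNReal.ofReal (ε' / (B n + 1)) from
        ENNReal.ofReal_pos.2 (by positivity))
    exact ((eventually_ge_atTop 1).and (e1.and e2)).exists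
  obtain ⟨hsmm, hsm0, hsmk, -⟩ := hSM S μ φ hφ u' v' m hm1
  obtain ⟨c, hcm, hc⟩ := hsmk (ε' / (C + 1)) (by positivity)
  -- integrals of the errors
  have hld : Dat m a ρ (B n) (l n) c :=
    ⟨hρ, hlm n, fun z => (hlB n z).1, fun z => (hlB n z).2, hls n, hcm, fun z => (hc z).1.le⟩
  obtain ⟨-, hAi⟩ := hld.Am_int hF
  have hwi : Integrable fun z => w z * l n z := by
    have h1 : IntegrableOn w (ball a ρ) :=
      (hw.loc.integrableOn_isCompact (isCompact_closedBall a ρ)).mono_set ball_subset_closedBall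
    have h2 : Integrable fun z => (ball a ρ).indicator (fun z => B n * w z) z :=
      (integrable_indicator_iff measurableSet_ball).2 (h1.const_mul _)
    refine h2.mono' ((hw.meas.mul (hlm n)).aestronglyMeasurable)
      (Eventually.of_forall fun z => ?_)
    rw [norm_mul, Real.norm_of_nonneg (hw.nonneg z), Real.norm_of_nonneg (hlB n z).1]
    by_cases hz : z ∈ ball a ρ
    · rw [indicator_of_mem hz, mul_comm]
      exact mul_le_mul_of_nonneg_right (hlB n z).2 (hw.nonneg z)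
    · rw [indicator_of_notMem hz, hls n z hz, mul_zero]
  have hdi : IntegrableOn (fun z => sm φ u' v' m z - w z) (ball (0:ℂ) (‖a‖ + ρ)) := by
    refine ⟨(hsmm.sub hw.meas).aestronglyMeasurable, ?_⟩
    unfold HasFiniteIntegral
    exact lt_of_le_of_lt hm3 ENNReal.ofReal_lt_top
  have hdi2 : Integrable fun z => (ball (0:ℂ) (‖a‖ + ρ)).indicator
      (fun z => B n * ‖sm φ u' v' m z - w z‖) z :=
    (integrable_indicator_iff measurableSet_ball).2 (hdi.norm.const_mul _)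
  have hd3 : ∫ z, (ball (0:ℂ) (‖a‖ + ρ)).indicator
      (fun z => B n * ‖sm φ u' v' m z - w z‖) z ≤ ε' := by
    rw [integral_indicator measurableSet_ball, integral_const_mul,
      integral_norm_eq_lintegral_enorm hdi.1]
    have h1 := ENNReal.toReal_mono ENNReal.ofReal_ne_top hm3
    rw [ENNReal.toReal_ofReal (by positivity)] at h1
    calc B n * _ ≤ B n * (ε' / (B n + 1)) := mul_le_mul_of_nonneg_left h1 hB0
      _ = ε' * (B n / (B n + 1)) := by ring
      _ ≤ ε' * 1 := by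
          refine mul_le_mul_of_nonneg_left ?_ hε'0.le
          rw [div_le_one (by positivity)]
          linarith
      _ = ε' := mul_one _
  have hpt : ∀ z, l n z * nm m (Am φ u' v' m z fun j => c j z) ≤ w z * l n z +
      (ball (0:ℂ) (‖a‖ + ρ)).indicator (fun z => B n * ‖sm φ u' v' m z - w z‖) z +
      ε' / (C + 1) * l n z := by
    intro z
    by_cases hz : z ∈ ball a ρ
    · rw [indicator_of_mem (hsub hz)]
      have h1 := (hc z).2
      have h2 : sm φ u' v' m z ≤ w z + ‖sm φ u' v' m z - w z‖ := by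
        have := le_abs_self (sm φ u' v' m z - w z)
        rw [Real.norm_eq_abs]
        linarith
      calc l n z * nm m (Am φ u' v' m z fun j => c j z) ≤
            l n z * (w z + ‖sm φ u' v' m z - w z‖ + ε' / (C + 1)) :=
            mul_le_mul_of_nonneg_left (by linarith) (hlB n z).1
        _ = w z * l n z + l n z * ‖sm φ u' v' m z - w z‖ + ε' / (C + 1) * l n z := by ring
        _ ≤ _ := by
            have := mul_le_mul_of_nonneg_right (hlB n z).2 (norm_nonneg (sm φ u' v' m z - w z))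
            linarith
    · rw [hls n z hz, zero_mul, mul_zero, mul_zero, add_zero, zero_add]
      exact indicator_nonneg (fun z _ => mul_nonneg hB0 (norm_nonneg _)) z
  have herr : ∫ z, l n z * nm m (Am φ u' v' m z fun j => c j z) ≤ 3 * ε' := by
    have h1 := integral_mono hAi ((hwi.add hdi2).add (hln.const_mul (ε' / (C + 1)))) hpt
    have h2 : ∫ z, (w z * l n z + (ball (0:ℂ) (‖a‖ + ρ)).indicator
        (fun z => B n * ‖sm φ u' v' m z - w z‖) z + ε' / (C + 1) * l n z) =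
        (∫ z, w z * l n z) + (∫ z, (ball (0:ℂ) (‖a‖ + ρ)).indicator
        (fun z => B n * ‖sm φ u' v' m z - w z‖) z) + ε' / (C + 1) * ∫ z, l n z := by
      have e1 := integral_add (hwi.add hdi2) (hln.const_mul (ε' / (C + 1)))
      have e2 := integral_add hwi hdi2
      rw [integral_const_mul] at e1
      simp only [Pi.add_apply] at e1
      rw [e2] at e1
      exact e1
    have h3 : ε' / (C + 1) * ∫ z, l n z ≤ ε' := by
      calc ε' / (C + 1) * ∫ z, l n z ≤ ε' / (C + 1) * (C + 1) :=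
            mul_le_mul_of_nonneg_left (by linarith [hl2 n]) (by positivity)
        _ = ε' := by field_simp
    have h4 : ∫ z, l n z * nm m (Am φ u' v' m z fun j => c j z) ≤
        (∫ z, w z * l n z) + (∫ z, (ball (0:ℂ) (‖a‖ + ρ)).indicator
        (fun z => B n * ‖sm φ u' v' m z - w z‖) z) + ε' / (C + 1) * ∫ z, l n z := by
      rw [← h2]
      exact h1
    linarith
  have h3ε : 3 * ε' = min ε δ₀ := by rw [hε']; ring
  rw [h3ε] at herr
  -- the component
  obtain ⟨j, hjJ, hjm, -, hjθ⟩ := hcma (l n) m c (hlm n) (fun z => (hlB n z).1) hln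
    (wt_mono hln (hlm n) (fun z => (hlB n z).1) (fun z => le_rfl) hn1 (hWT n)) hcm
    (fun z => (hc z).1) hAi (herr.trans (min_le_right _ _)) (hl1 n)
  -- normalisation
  set s : ℂ → ℂ := fun z => if c j z = 0 then 1 else conj (c j z) * ((‖c j z‖⁻¹ : ℝ) : ℂ) with hs
  have hsm : Measurable s := by
    refine Measurable.ite ((hcm j) (measurableSet_singleton 0)) measurable_const ?_
    exact (Complex.continuous_conj.measurable.comp (hcm j)).mul
      (Complex.measurable_ofReal.comp (hcm j).norm.inv)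
  have hs1 : ∀ z, ‖s z‖ = 1 := by
    intro z
    simp only [hs]
    split_ifs with h0
    · simp
    · have h1 : ‖c j z‖ ≠ 0 := norm_ne_zero_iff.2 h0
      rw [norm_mul, RCLike.norm_conj, Complex.norm_real, norm_inv, norm_norm,
        mul_inv_cancel₀ h1]
  have hsc : ∀ z, s z * c j z = (‖c j z‖ : ℂ) := by
    intro z
    simp only [hs]
    split_ifs with h0
    · simp [h0]
    · have h1 : (‖c j z‖ : ℂ) ≠ 0 := by exact_mod_cast norm_ne_zero_iff.2 h0
      have h2 : conj (c j z) * c j z = (‖c j z‖ : ℂ) ^ 2 := by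
        rw [mul_comm, Complex.mul_conj, Complex.normSq_eq_norm_sq]
        push_cast
        rfl
      calc conj (c j z) * ((‖c j z‖⁻¹ : ℝ) : ℂ) * c j z =
            (conj (c j z) * c j z) * ((‖c j z‖ : ℂ))⁻¹ := by
            push_cast
            ring
        _ = _ := by
            rw [h2]
            field_simp
  set c' : ℕ → ℂ → ℂ := fun i z => s z * c i z with hc'
  have hc'1 : ∀ z, nm m (fun i => c' i z) = 1 := fun z => by
    simp only [hc']
    rw [nm_smul, hs1, one_mul, (hc z).1]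
  have hA' : ∀ z, nm m (Am φ u' v' m z fun i => c' i z) =
      nm m (Am φ u' v' m z fun i => c i z) := by
    intro z
    have e : Am φ u' v' m z (fun i => c' i z) =
        fun i => s z * Am φ u' v' m z (fun i => c i z) i := by
      funext i
      exact Am_smul m z (s z) (fun i => c i z) i
    rw [e, nm_smul, hs1, one_mul]
  set T : Set ℂ := {z | θ ≤ ‖c j z‖} with hT
  have hTm : MeasurableSet T := measurableSet_le measurable_const (hcm j).norm
  have hh0 : ∀ z, 0 ≤ T.indicator (l n) z := fun z =>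
    indicator_nonneg (fun z _ => (hlB n z).1) z
  have hhl : ∀ z, T.indicator (l n) z ≤ l n z := fun z =>
    indicator_le_self' (fun z _ => (hlB n z).1) z
  have hd' : Dat m a ρ (B n) (T.indicator (l n)) c' :=
    ⟨hρ, (hlm n).indicator hTm, hh0, fun z => (hhl z).trans (hlB n z).2,
      fun z hz => le_antisymm ((hhl z).trans (hls n z hz).le) (hh0 z),
      fun i => hsm.mul (hcm i), fun z => (hc'1 z).le⟩
  have hhI : θ ≤ ∫ z, T.indicator (l n) z := by
    rw [integral_indicator hTm]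
    exact hjθ
  obtain ⟨g, hg, hgl, hgI, hgV⟩ := hmin u m _ hsu (T.indicator (l n)) C (δ n) ρ (B n) a c'
    hd' hC (hδ n) (wt_mono hln ((hlm n).indicator hTm) hh0 hhl le_rfl (hWT n)) (hn2.trans hhI)
  refine ⟨m, B n, g, c', hg, ?_, hgV, ?_, hm2, j, hjJ, hjm, ?_⟩
  · exact (integral_mono hg.gint hln fun z => (hgl z).trans (hhl z)).trans (hl2 n)
  · refine le_trans ?_ (herr.trans (min_le_left _ _))
    refine integral_mono (hg.Am_int hF).2 hAi fun z => ?_
    simp only [hA']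
    exact mul_le_mul_of_nonneg_right ((hgl z).trans (hhl z)) (nm_nonneg _ _)
  · -- the lower bound
    have e1 : ∫ z, (g z : ℂ) * c' j z = ((∫ z, g z * ‖c j z‖ : ℝ) : ℂ) := by
      rw [← integral_complex_ofReal]
      refine integral_congr_ae (Eventually.of_forall fun z => ?_)
      simp only [hc']
      rw [hsc]
      push_cast
      rfl
    have hgT : ∀ z, θ * g z ≤ g z * ‖c j z‖ := by
      intro z
      by_cases hz : z ∈ T
      · rw [mul_comm]
        exact mul_le_mul_of_nonneg_left hz (hg.g0 z)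
      · have h1 : g z ≤ 0 := by
          have := hgl z
          rwa [indicator_of_notMem hz] at this
        have h2 : g z = 0 := le_antisymm h1 (hg.g0 z)
        rw [h2]
        simp
    have hgi : Integrable fun z => g z * ‖c j z‖ := by
      refine hg.gint.mono' (hg.gm.mul (hcm j).norm).aestronglyMeasurable
        (Eventually.of_forall fun z => ?_)
      rw [norm_mul, norm_norm, Real.norm_of_nonneg (hg.g0 z)]
      exact mul_le_of_le_one_right (hg.g0 z) (hld.cb hjm z)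
    have h1 : θ * ∫ z, g z ≤ ∫ z, g z * ‖c j z‖ := by
      rw [← integral_const_mul]
      exact integral_mono (hg.gint.const_mul _) hgi hgT
    rw [e1, Complex.norm_real]
    refine le_trans ?_ (le_abs_self _)
    refine le_trans ?_ h1
    refine mul_le_mul_of_nonneg_left ?_ hθ.le
    linarith

end stepA

/-- case A -/
theorem caseA2 (hMZ : S_MZ) (hSM : S_SM) (hCMA : S_CMA) (hX : Refl X)
    (hΨ : Cal N R Ψ) {S : Type} [MeasurableSpace S] {μ : Measure S} [SigmaFinite μ] {φ : S → ℂ}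
    {u' v' : ℕ → Lp ℂ 2 μ}
    (hφ : Measurable φ) (hu' : Summable fun j => ‖u' j‖ ^ 2) (hv' : Summable fun j => ‖v' j‖ ^ 2)
    {K : X →L[ℂ] X} {u : ℕ → X} {v : ℕ → (X →L[ℂ] ℂ)}
    (hF : ∀ i j, IsK Ψ (v i) (u j) (ct φ (v' i) (u' j))) {U : ℝ} (hU : RB Ψ u U) (hK : TL K u v)
    {f : ℕ → (X →L[ℂ] ℂ)} (hf : ∀ i j, f i (u j) = if i = j then 1 else 0)
    {w : ℂ → ℝ} (hw : IsW φ u' v' w) {a : ℂ} {ρ C c₀ : ℝ}
    {l : ℕ → ℂ → ℝ} {B δ : ℕ → ℝ} (hρ : 0 < ρ) (hC : 0 < C) (hc₀ : 0 < c₀)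
    (hlm : ∀ n, Measurable (l n)) (hlB : ∀ n z, 0 ≤ l n z ∧ l n z ≤ B n)
    (hls : ∀ n z, z ∉ ball a ρ → l n z = 0) (hl1 : ∀ n, c₀ ≤ ∫ z, l n z)
    (hl2 : ∀ n, ∫ z, l n z ≤ C) (hδ : ∀ n, 0 ≤ δ n) (hδ0 : Tendsto δ atTop (𝓝 0))
    (hWT : ∀ n, WT (l n) C (δ n)) (hlw : Tendsto (fun n => ∫ z, w z * l n z) atTop (𝓝 0)) :
    HasCh (N + K) a (4 * ρ) := by
  classical
  by_contra hno
  have hch : ∀ Y, IsChain (N + K) a (4 * ρ) Y → Y 0 = 0 := by
    intro Y hY
    by_contra h0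
    exact hno ⟨Y, hY, h0⟩
  obtain ⟨τ, hτ0, hτ, htail⟩ := hK
  obtain ⟨C₀, hC₀⟩ := exists_CB hΨ
  have hC₀0 := hC₀.1
  have hU0 : 0 ≤ U := hU.nn
  obtain ⟨A, θ, J, hθ, hA, hstep⟩ := stepA2 hMZ hSM hCMA hφ hu' hv' hF hU hw hρ hC hc₀
    hlm hlB hls hl1 hl2 hδ hδ0 hWT hlw τ hτ
  choose m B' g c hd hgC hgA hge hτe j hjJ hjm hjθ using fun n : ℕ =>
    hstep (1 / (n + 1)) (by positivity)
  set Z : ℕ → ℕ → X := fun n k => VV Ψ u (m n) a (g n) (c n) k with hZ
  set M : ℝ := (C₀ + 1) * (A + 2 * C * U / ρ) with hM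
  have hM0 : 0 ≤ M := by positivity
  have hZb : ∀ n k, ‖Z n k‖ ≤ M * (4 * ρ) ^ k := by
    intro n k
    have h1 := VV_bound2 hΨ hC₀ (hd n) hU k
    refine h1.trans ?_
    rw [hM]
    have h2 : 2 * (∫ z, g n z) * U / ρ ≤ 2 * C * U / ρ := by
      have := hgC n
      gcongr
    have := hgA n
    gcongr
  have hlim1 : Tendsto (fun n : ℕ => (1:ℝ) / (n + 1)) atTop (𝓝 0) :=
    tendsto_one_div_add_atTop_nhds_zero_nat
  have hZc : ∀ k, Tendsto (fun n => (N + K) (Z n k) - a • Z n k - Z n (k + 1)) atTop (𝓝 0) := by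
    intro k
    have hb : ∀ n, ‖(N + K) (Z n k) - a • Z n k - Z n (k + 1)‖ ≤
        (U * ρ ^ k + M * (4 * ρ) ^ k) * (1 / (n + 1)) := by
      intro n
      have e : (N + K) (Z n k) - a • Z n k - Z n (k + 1) =
          ((N + fr u v (m n)) (Z n k) - a • Z n k - Z n (k + 1)) +
          (K (Z n k) - fr u v (m n) (Z n k)) := by
        rw [add_apply, add_apply]
        abel
      rw [e]
      have h1 := VV_err2 hΨ (hd n) hF hU k
      have h2 := htail (m n) (Z n k)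
      have h3 : U * ρ ^ k * ∫ z, g n z * nm (m n) (Am φ u' v' (m n) z fun j => c n j z) ≤
          U * ρ ^ k * (1 / (n + 1)) := mul_le_mul_of_nonneg_left (hge n) (by positivity)
      have h4 : τ (m n) * ‖Z n k‖ ≤ (1 / (n + 1)) * (M * (4 * ρ) ^ k) :=
        mul_le_mul (hτe n) (hZb n k) (norm_nonneg _) (by positivity)
      refine (norm_add_le _ _).trans ?_
      have h5 := h1.trans h3
      have h6 := h2.trans h4
      calc _ ≤ U * ρ ^ k * (1 / (n + 1)) + (1 / (n + 1)) * (M * (4 * ρ) ^ k) := add_le_add h5 h6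
        _ = _ := by ring
    refine squeeze_zero_norm hb ?_
    have := hlim1.const_mul (U * ρ ^ k + M * (4 * ρ) ^ k)
    simpa using this
  have hw0 := (wlim_chain hX (N + K) a (4 * ρ) M Z hZb hZc).2 hch
  -- the functionals
  have hq : ∀ i : ℕ, Tendsto (fun n => f i (N (Z n 0) - a • Z n 0 - Z n 1)) atTop (𝓝 0) := by
    intro i
    have e1 : ∀ n, f i (N (Z n 0) - a • Z n 0 - Z n 1) =
        f i ((N + K) (Z n 0) - a • Z n 0 - Z n 1) - ((f i).comp K) (Z n 0) := by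
      intro n
      rw [add_apply]
      simp only [map_sub, map_add, ContinuousLinearMap.comp_apply]
      ring
    have h1 : Tendsto (fun n => f i ((N + K) (Z n 0) - a • Z n 0 - Z n 1)) atTop (𝓝 0) := by
      have := ((f i).continuous.tendsto 0).comp (hZc 0)
      rwa [map_zero] at this
    have h2 := h1.sub (hw0 ((f i).comp K))
    rw [sub_zero] at h2
    exact h2.congr fun n => (e1 n).symm
  have hval : ∀ n, ‖f (j n) (N (Z n 0) - a • Z n 0 - Z n 1)‖ =
      ‖∫ z, (g n z : ℂ) * c n (j n) z‖ := by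
    intro n
    have h1 := VV_step hΨ (hd n) u 0
    have h2 : N (Z n 0) - a • Z n 0 - Z n 1 =
        -∑ j ∈ Finset.range (m n), (∫ z, (z - a) ^ 0 * ((g n z : ℂ) * c n j z)) • u j := by
      simp only [hZ]
      rw [h1]
      simp only [zero_add]
      abel
    rw [h2, map_neg, norm_neg, map_sum]
    have h3 : ∀ i ∈ Finset.range (m n), f (j n)
        ((∫ z, (z - a) ^ 0 * ((g n z : ℂ) * c n i z)) • u i) =
        if i = j n then ∫ z, (g n z : ℂ) * c n i z else 0 := by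
      intro i _
      rw [map_smul, hf, smul_eq_mul]
      by_cases h : i = j n
      · rw [if_pos h, if_pos h.symm, mul_one]
        simp
      · rw [if_neg h, if_neg (Ne.symm h), mul_zero]
    rw [Finset.sum_congr rfl h3, Finset.sum_ite_eq' (Finset.range (m n)) (j n)
      (fun i => ∫ z, (g n z : ℂ) * c n i z), if_pos (Finset.mem_range.2 (hjm n))]
  have hsum : Tendsto (fun n => ∑ i ∈ Finset.range J,
      ‖f i (N (Z n 0) - a • Z n 0 - Z n 1)‖) atTop (𝓝 0) := by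
    have h1 := tendsto_finsetSum (Finset.range J) fun i _ => (hq i).norm
    simpa using h1
  have hlow : ∀ n, θ ≤ ∑ i ∈ Finset.range J, ‖f i (N (Z n 0) - a • Z n 0 - Z n 1)‖ := by
    intro n
    refine (hjθ n).trans ?_
    rw [← hval n]
    exact Finset.single_le_sum (f := fun i => ‖f i (N (Z n 0) - a • Z n 0 - Z n 1)‖)
      (fun _ _ => norm_nonneg _) (Finset.mem_range.2 (hjJ n))
  have := ge_of_tendsto' hsum hlow
  linarith

end Pool.Agent.Q98.SK
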