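import Pool.Agent.Q98.SK.CaseA
import Pool.Agent.Q88.NB.Fin

/-!
# Case B for row bounded families
-/

set_option autoImplicit false

namespace Pool.Agent.Q98.SK

open MeasureTheory Set Metric Filter Topology
open scoped ENNReal NNReal ComplexConjugate ContDiff
open Pool.Agent.Y283.NK (ct)
open Pool.Agent.Y271.RO (ht Bd db Cut hHT hCTG hPOM)
open Pool.Agent.Y941.RO (CO)
open Pool.Agent.Q98.RB
open Pool.Agent.Q98.NR (IsK)
open Pool.Agent.Q88.NB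
open Pool.Agent.Q130.TC (cau S_CAU WT S_MZ nm Am sm S_SM S_CMA IsW)

variable {X : Type} [NormedAddCommGroup X] [NormedSpace ℂ X]
variable {N : X →L[ℂ] X} {R : ℝ} {Ψ : C(DD R, ℂ) →ₐ[ℂ] (X →L[ℂ] X)}

theorem nm_zero (m : ℕ) : nm m (fun _ => (0:ℂ)) = 0 := by simp [nm]

theorem nm_congr {m : ℕ} {c d : ℕ → ℂ} (h : ∀ i < m, c i = d i) : nm m c = nm m d := by
  unfold nm
  congr 1
  exact Finset.sum_congr rfl fun i hi => by rw [h i (Finset.mem_range.1 hi)]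

theorem nm_meas {m : ℕ} {q : ℕ → ℂ → ℂ} (h : ∀ j < m, Measurable (q j)) :
    Measurable fun z => nm m (fun j => q j z) := by
  unfold nm
  exact (Finset.measurable_fun_sum _ fun j hj =>
    (h j (Finset.mem_range.1 hj)).norm.pow_const 2).sqrt

theorem far_eq {η : ℂ → ℂ} {a z : ℂ} {τ : ℝ} (hτ : 0 < τ)
    (hη0 : ∀ z, z ∉ ball a (τ / 2) → η z = 0) (hz : τ ≤ ‖z - a‖) :
    (fun l : ℂ => η l * (z - l)⁻¹) = fun l => -(η l * Hm z (τ / 2) l) := by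
  funext l
  by_cases h : l ∈ ball a (τ / 2)
  · have h1 : τ / 2 ≤ ‖l - z‖ := by
      have := far_bd (z := z) h
      rw [norm_sub_rev]
      linarith
    rw [Hm_far (by positivity) h1, ← mul_neg, ← inv_neg, neg_sub]
  · rw [hη0 l h]
    simp

theorem far_cont {η : ℂ → ℂ} (hη : Continuous η) {a z : ℂ} {τ : ℝ} (hτ : 0 < τ)
    (hη0 : ∀ z, z ∉ ball a (τ / 2) → η z = 0) (hz : τ ≤ ‖z - a‖) :
    Continuous fun l : ℂ => η l * (z - l)⁻¹ := by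
  rw [far_eq hτ hη0 hz]
  exact (hη.mul (Hm_cont z (by positivity))).neg

/-- the `ℓ²` bound for the Cauchy transforms far from `a` -/
theorem far_nm {C₀ : ℝ} (hC : CB Ψ C₀) {v : ℕ → (X →L[ℂ] ℂ)} {V₀ : ℝ} (hV : VB v V₀) (x₀ : X)
    {η : ℂ → ℂ} (hη : Continuous η) {a : ℂ} {τ Mη : ℝ} (hτ : 0 < τ) (hM0 : 0 ≤ Mη)
    (hMη : ∀ z, ‖z‖ ≤ R → ‖η z‖ ≤ Mη) (hη0 : ∀ z, z ∉ ball a (τ / 2) → η z = 0) (m : ℕ)
    {z : ℂ} (hz : τ ≤ ‖z - a‖) :
    nm m (fun i => v i (op Ψ (fun l => η l * (z - l)⁻¹) x₀)) ≤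
      V₀ * (C₀ * (Mη * (2 / τ)) * ‖x₀‖) := by
  refine (hV.2 m _).trans (mul_le_mul_of_nonneg_left ?_ hV.1)
  refine ((op Ψ _).le_opNorm _).trans (mul_le_mul_of_nonneg_right ?_ (norm_nonneg _))
  refine hC.op _ _ (far_cont hη hτ hη0 hz) (by positivity) fun l hl => ?_
  by_cases h : l ∈ ball a (τ / 2)
  · have h1 : τ / 2 ≤ ‖z - l‖ := by
      have := far_bd (z := z) h
      linarith
    rw [norm_mul, norm_inv]
    refine mul_le_mul (hMη l hl) ?_ (by positivity) hM0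
    calc ‖z - l‖⁻¹ ≤ (τ / 2)⁻¹ := inv_anti₀ (by positivity) h1
      _ = 2 / τ := by rw [inv_div]
  · rw [hη0 l h, zero_mul, norm_zero]
    positivity

/-- the Cauchy transform of a pair `(v, η(N) x₀)`, with its values far from `a` -/
theorem pairB1 (hΨ : Cal N R Ψ) {C₀ : ℝ} (hC : CB Ψ C₀) (v : X →L[ℂ] ℂ) (x₀ : X) {η : ℂ → ℂ}
    (hη : Continuous η) {a : ℂ} {τ Mη : ℝ} (hτ : 0 < τ) (hM0 : 0 ≤ Mη)
    (hMη : ∀ z, ‖z‖ ≤ R → ‖η z‖ ≤ Mη) (hη0 : ∀ z, z ∉ ball a (τ / 2) → η z = 0) :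
    ∃ k : ℂ → ℂ, Measurable k ∧
      (∀ z, τ ≤ ‖z - a‖ → k z = v (op Ψ (fun l => η l * (z - l)⁻¹) x₀)) ∧
      ∀ (Θ : ℂ → ℂ) (r : ℝ), 0 < r → CO Θ a τ r →
        (∀ j : ℕ, Integrable (fun z => (z - a) ^ j * db Θ z * k z) ∧
          ∫ z, (z - a) ^ j * db Θ z * k z =
            -(Real.pi * v (op Ψ (fun z => (z - a) ^ j * η z) x₀))) ∧
        Integrable (fun z => (z - a)⁻¹ * db Θ z * k z) ∧
          ∫ z, (z - a)⁻¹ * db Θ z * k z = 0 := by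
  obtain ⟨μ, hμ, σ, hσ, hσ1, hm, hr⟩ := pair_polar hΨ hC v x₀
  have h1 : MemLp (fun _ : DD R => (1:ℂ)) 2 μ := memLp_const 1
  have hxm : Measurable fun s : DD R => η (ι R s) * σ s :=
    (hη.measurable.comp (ι_meas R)).mul hσ
  have hxb : ∀ s, ‖η (ι R s) * σ s‖ ≤ Mη := by
    intro s
    rw [norm_mul]
    calc ‖η (ι R s)‖ * ‖σ s‖ ≤ Mη * 1 :=
          mul_le_mul (hMη _ (ι_bd R s)) (hσ1 s) (norm_nonneg _) hM0
      _ = Mη := mul_one _
  have h2 : MemLp (fun s : DD R => η (ι R s) * σ s) 2 μ :=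
    MemLp.of_bound hxm.aestronglyMeasurable Mη (Eventually.of_forall hxb)
  set v₁ : Lp ℂ 2 μ := h1.toLp _ with hv₁
  set x₁ : Lp ℂ 2 μ := h2.toLp _ with hx₁
  have hx : ∀ᵐ s ∂μ, ι R s ∉ ball a (τ / 2) → x₁ s = 0 := by
    filter_upwards [h2.coeFn_toLp] with s hs hb
    rw [hx₁, hs, hη0 _ hb, zero_mul]
  refine ⟨ct (ι R) v₁ x₁, (hCTG (DD R) μ (ι R) (ι_meas R) v₁ x₁).1, fun z hz => ?_,
    fun Θ r hr0 hΘ => ⟨fun j => ?_, ?_⟩⟩
  · have hc : Continuous fun l : ℂ => η l * (z - l)⁻¹ := far_cont hη hτ hη0 hz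
    rw [hr _ hc]
    unfold ct
    refine integral_congr_ae ?_
    filter_upwards [h1.coeFn_toLp, h2.coeFn_toLp] with s e1 e2
    rw [hv₁, hx₁, e1, e2, map_one]
    ring
  · obtain ⟨p1, p2⟩ := pair_pow (ι_meas R) v₁ x₁ hΘ hτ hr0 hx j
    refine ⟨p1, ?_⟩
    rw [p2, hr _ (by fun_prop)]
    congr 2
    refine integral_congr_ae ?_
    filter_upwards [h1.coeFn_toLp, h2.coeFn_toLp] with s e1 e2
    rw [hv₁, hx₁, e1, e2, map_one]
    ring
  · exact pair_inv (ι_meas R) v₁ x₁ hΘ hτ hr0 hx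

/-- the `ℓ²` bound for the Cauchy transforms of bounded functions -/
theorem ht_nm {a : ℂ} {r Kr : ℝ}
    (hK : ∀ (c : ℂ) (M : ℝ) (g : ℂ → ℂ), Bd g c r M →
      Integrable g ∧ Measurable (ht g) ∧ (∀ l, Integrable (fun z => g z * (z - l)⁻¹)) ∧
      (∀ l, ‖ht g l‖ ≤ Kr * M) ∧
      ∀ b l : ℂ, ht (fun z => (z - b) * g z) l = (l - b) * ht g l + ∫ z, g z)
    {m : ℕ} {q : ℕ → ℂ → ℂ} {M : ℝ} (hq : ∀ j < m, Bd (q j) a r M) (hM : 0 ≤ M)
    (hqn : ∀ z, nm m (fun j => q j z) ≤ M) (l : ℂ) : nm m (fun j => ht (q j) l) ≤ Kr * M := by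
  have hmeas : Measurable fun z => nm m (fun j => q j z) := nm_meas fun j hj => (hq j hj).meas
  set g' : ℂ → ℂ := fun z => (nm m (fun j => q j z) : ℂ) * ((z - l) / ((‖z - l‖ : ℝ) : ℂ)) with hg'
  have hb : Bd g' a r M := by
    refine ⟨(Complex.measurable_ofReal.comp hmeas).mul (by fun_prop), hM, fun z => ?_,
      fun z hz => ?_⟩
    · simp only [hg']
      rw [norm_mul, Complex.norm_real, Real.norm_of_nonneg (nm_nonneg _ _), norm_div,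
        Complex.norm_real, norm_norm]
      calc nm m (fun j => q j z) * (‖z - l‖ / ‖z - l‖) ≤ M * 1 :=
            mul_le_mul (hqn z) (div_self_le_one _) (by positivity) hM
        _ = M := mul_one _
    · simp only [hg']
      rw [nm_congr (d := fun _ => 0) fun j hj => (hq j hj).supp z hz, nm_zero]
      simp
  obtain ⟨-, -, h3, h4, -⟩ := hK a M g' hb
  have e1 : ∀ z, g' z * (z - l)⁻¹ = ((nm m (fun j => q j z) * ‖z - l‖⁻¹ : ℝ) : ℂ) := by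
    intro z
    simp only [hg']
    rcases eq_or_ne z l with h | h
    · rw [h]
      simp
    · have h1 : z - l ≠ 0 := sub_ne_zero.2 h
      push_cast
      field_simp
  have h5 : Integrable fun z => nm m (fun j => q j z) * ‖z - l‖⁻¹ := by
    have h6 := (h3 l).norm
    refine h6.congr (Eventually.of_forall fun z => ?_)
    simp only
    rw [e1, Complex.norm_real, Real.norm_of_nonneg (mul_nonneg (nm_nonneg _ _) (by positivity))]
  have h6 : ht g' l = ((∫ z, nm m (fun j => q j z) * ‖z - l‖⁻¹ : ℝ) : ℂ) := by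
    unfold ht
    simp_rw [e1]
    exact integral_ofReal
  have h7 : ∫ z, nm m (fun j => q j z) * ‖z - l‖⁻¹ ≤ Kr * M := by
    have h8 := h4 l
    rw [h6, Complex.norm_real] at h8
    exact (le_abs_self _).trans h8
  refine le_trans ?_ h7
  unfold ht
  refine nm_integral (fun j hj => (hK a M _ (hq j hj)).2.2.1 l) h5 fun z => ?_
  have e2 : (fun j => q j z * (z - l)⁻¹) = fun j => (z - l)⁻¹ * q j z := by
    funext j
    ring
  rw [e2, nm_smul, norm_inv, mul_comm]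

theorem YY_bound2 {a : ℂ} {r Kr : ℝ} (hr : 0 < r)
    (hK0 : 0 ≤ Kr)
    (hK : ∀ (c : ℂ) (M : ℝ) (g : ℂ → ℂ), Bd g c r M →
      Integrable g ∧ Measurable (ht g) ∧ (∀ l, Integrable (fun z => g z * (z - l)⁻¹)) ∧
      (∀ l, ‖ht g l‖ ≤ Kr * M) ∧
      ∀ b l : ℂ, ht (fun z => (z - b) * g z) l = (l - b) * ht g l + ∫ z, g z)
    {u : ℕ → X} {U₀ : ℝ} (hU : RB Ψ u U₀)
    {m : ℕ} {q : ℕ → ℂ → ℂ} {M : ℝ} (hq : ∀ j < m, Bd (q j) a r M) (hM : 0 ≤ M)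
    (hqn : ∀ z, nm m (fun j => q j z) ≤ M) : ‖YY Ψ u m q‖ ≤ U₀ * (Kr * M) := by
  unfold YY
  exact hU.row m (fun j => ht (q j)) (Kr * M) (by positivity)
    (fun j hj => ht_cont hr (hq j hj)) fun z _ => ht_nm hK hq hM hqn z

end Pool.Agent.Q98.SK
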