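import Pool.Agent.Q98.SK.CaseB

/-!
# Case B for row bounded families, the vectors
-/

set_option autoImplicit false

namespace Pool.Agent.Q98.SK

open MeasureTheory Set Metric Filter Topology
open scoped ENNReal NNReal ComplexConjugate ContDiff
open Pool.Agent.Y283.NK (ct)
open Pool.Agent.Y271.RO (ht Bd db Cut hHT hCTG hPOM)
open Pool.Agent.Y941.RO (CO)
open Pool.Agent.Q98.RB
open Pool.Agent.Q98.NR (IsK)
open Pool.Agent.Q88.NB
open Pool.Agent.Q130.TC (cau S_CAU WT S_MZ nm Am sm S_SM S_CMA IsW)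

variable {X : Type} [NormedAddCommGroup X] [NormedSpace ℂ X]
variable {N : X →L[ℂ] X} {R : ℝ} {Ψ : C(DD R, ℂ) →ₐ[ℂ] (X →L[ℂ] X)}

theorem cutvB2 (hSM : S_SM) (hΨ : Cal N R Ψ) {S : Type} [MeasurableSpace S] {μ : Measure S}
    [SigmaFinite μ] {φ : S → ℂ} {u' v' : ℕ → Lp ℂ 2 μ} (hφ : Measurable φ)
    {K : X →L[ℂ] X} {u : ℕ → X} {v : ℕ → (X →L[ℂ] ℂ)}
    (hF : ∀ i j, IsK Ψ (v i) (u j) (ct φ (v' i) (u' j))) (hK : TL K u v)
    {U₀ V₀ : ℝ} (hUR : RB Ψ u U₀) (hVB : VB v V₀)
    {w : ℂ → ℝ} (hw : IsW φ u' v' w) {a : ℂ} {τ r : ℝ} (hτ : 0 < τ) (hτr : τ < r)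
    (hcut : Cut (fun z => (w z : ℂ)) a τ r) (x₀ : X) {η : ℂ → ℂ}
    (hη : Continuous η) (hη0 : ∀ z, z ∉ ball a (τ / 2) → η z = 0) :
    ∃ (Z : ℕ → ℕ → X) (V : ℕ → X) (C : ℝ), (∀ n k, ‖Z n k‖ ≤ C * r ^ k) ∧
      (∀ n, ‖V n‖ ≤ C) ∧
      (∀ k, Tendsto (fun n => (N + K) (Z n k) - a • Z n k - Z n (k + 1)) atTop (𝓝 0)) ∧
      Tendsto (fun n => op Ψ η x₀ - Z n 0 - ((N + K) (V n) - a • V n)) atTop (𝓝 0) := by
  classical
  obtain ⟨Θ, g, Cg, c1, c2, c3, c4, c5, c6, c7, c8⟩ := hcut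
  have hr : 0 < r := hτ.trans hτr
  obtain ⟨Kr, hK0, hKr⟩ := hHT r hr
  obtain ⟨C₀, hC⟩ := exists_CB hΨ
  have hC₀ := hC.1
  obtain ⟨Mη, hMη0, hMη⟩ := exists_bd hη R
  have hCg0 : 0 ≤ Cg := (norm_nonneg _).trans (c5 0 0)
  have hΘ : ∀ n, CO (Θ n) a τ r := fun n => ⟨(c1 n).of_le (by exact_mod_cast le_top), c2 n, c3 n⟩
  choose k hkm hkb hkΘ using fun i => pairB1 hΨ hC (v i) x₀ hη hτ hMη0 hMη hη0
  obtain ⟨tl, htl0, htl, htail⟩ := hK
  have hU0 : 0 ≤ U₀ := hUR.nn
  have hV0 : 0 ≤ V₀ := hVB.1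
  set KV : ℝ := V₀ * (C₀ * (Mη * (2 / τ)) * ‖x₀‖) with hKV
  have hKV0 : 0 ≤ KV := by positivity
  have hkn : ∀ m z, τ ≤ ‖z - a‖ → nm m (fun i => k i z) ≤ KV := by
    intro m z hz
    rw [nm_congr (d := fun i => v i (op Ψ (fun l => η l * (z - l)⁻¹) x₀)) fun i _ => hkb i z hz]
    exact far_nm hC hVB x₀ hη hτ hMη0 hMη hη0 m hz
  set b : ℕ → ℂ → ℂ := fun i z => if z ∈ ball a τ then 0 else k i z with hb
  have hbm : ∀ i, Measurable (b i) := fun i =>
    Measurable.ite measurableSet_ball measurable_const (hkm i)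
  have hnb : ∀ m z, nm m (fun i => b i z) ≤ KV := by
    intro m z
    by_cases h : z ∈ ball a τ
    · have e : (fun i => b i z) = fun _ => 0 := by
        funext i
        simp only [hb]
        rw [if_pos h]
      rw [e, nm_zero]
      exact hKV0
    · have e : (fun i => b i z) = fun i => k i z := by
        funext i
        simp only [hb]
        rw [if_neg h]
      rw [e]
      rw [mem_ball, dist_eq_norm, not_lt] at h
      exact hkn m z h
  -- the sizes
  have hsub : ball a (r + 1) ⊆ ball (0:ℂ) (‖a‖ + (r + 1)) := by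
    intro z hz
    rw [mem_ball, dist_eq_norm] at hz
    rw [mem_ball_zero_iff]
    calc ‖z‖ = ‖(z - a) + a‖ := by rw [sub_add_cancel]
      _ ≤ ‖z - a‖ + ‖a‖ := norm_add_le _ _
      _ < _ := by linarith
  set R' : ℝ := ‖a‖ + (r + 1) with hR'
  have hm : ∀ n : ℕ, ∃ m, 1 ≤ m ∧ tl m ≤ 1 / (n + 1) ∧
      (∫⁻ z in ball (0:ℂ) R', ‖sm φ u' v' m z - w z‖ₑ) ≤ ENNReal.ofReal (1 / (n + 1)) := by
    intro n
    have e1 : ∀ᶠ m in atTop, tl m ≤ 1 / ((n:ℝ) + 1) := htl.eventually_le_const (by positivity)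
    have e2 := (hw.lim R').eventually_le_const
      (show (0:ℝ≥0∞) < ENNReal.ofReal (1 / ((n:ℝ) + 1)) from ENNReal.ofReal_pos.2 (by positivity))
    exact ((eventually_ge_atTop 1).and (e1.and e2)).exists
  choose m hm1 hm2 hm3 using hm
  have hSM' : ∀ n, Measurable (sm φ u' v' (m n)) ∧ (∀ z, 0 ≤ sm φ u' v' (m n) z) ∧
      ∃ h : ℕ → ℂ → ℂ, (∀ j, Measurable (h j)) ∧
        ∀ z, (∀ i < m n, Am φ u' v' (m n) z (fun j => h j z) i =
          (sm φ u' v' (m n) z : ℂ) * b i z) ∧ nm (m n) (fun j => h j z) ≤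
            nm (m n) (fun j => b j z) := by
    intro n
    obtain ⟨h1, h2, -, h3⟩ := hSM S μ φ hφ u' v' (m n) (hm1 n)
    exact ⟨h1, h2, h3 b hbm⟩
  choose hsmm hsm0 h hhm hh using hSM'
  have hhb : ∀ n, ∀ j < m n, ∀ z, ‖h n j z‖ ≤ KV := fun n j hj z =>
    (nm_coord (c := fun j => h n j z) hj).trans ((hh n z).2.trans (hnb _ _))
  -- the product of a bounded function with `g n` and `h n j`
  set q : (ℂ → ℂ) → ℕ → ℕ → ℂ → ℂ := fun P n j z => P z * (g n z * h n j z) with hq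
  have hbd : ∀ (P : ℂ → ℂ) (B : ℝ), Measurable P → 0 ≤ B →
      (∀ z, τ ≤ ‖z - a‖ → ‖z - a‖ ≤ r → ‖P z‖ ≤ B) → ∀ n, ∀ j < m n,
      Bd (q P n j) a r (B * (Cg * KV)) := by
    intro P B hP hB0 hB n j hj
    refine ⟨hP.mul ((c4 n).mul (hhm n j)), by positivity, ?_, ?_⟩
    · intro z
      simp only [hq]
      by_cases h1 : z ∈ ball a τ
      · rw [c6 n z h1]
        simp only [zero_mul, mul_zero, norm_zero]
        positivity
      · rw [mem_ball, dist_eq_norm, not_lt] at h1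
        by_cases h2 : ‖z - a‖ ≤ r
        · rw [norm_mul, norm_mul]
          exact mul_le_mul (hB z h1 h2) (mul_le_mul (c5 n z) (hhb n j hj z) (norm_nonneg _) hCg0)
            (by positivity) hB0
        · rw [c7 n z (not_le.mp h2).le]
          simp only [zero_mul, mul_zero, norm_zero]
          positivity
    · intro z hz
      rw [mem_ball, dist_eq_norm, not_lt] at hz
      simp only [hq]
      rw [c7 n z hz]
      ring
  have hqn : ∀ (P : ℂ → ℂ) (B : ℝ), 0 ≤ B →
      (∀ z, τ ≤ ‖z - a‖ → ‖z - a‖ ≤ r → ‖P z‖ ≤ B) → ∀ n z,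
      nm (m n) (fun j => q P n j z) ≤ B * (Cg * KV) := by
    intro P B hB0 hB n z
    have e : (fun j => q P n j z) = fun j => (P z * g n z) * h n j z := by
      funext j
      simp only [hq]
      ring
    rw [e]
    by_cases h1 : z ∈ ball a τ
    · rw [c6 n z h1]
      simp only [zero_mul, mul_zero]
      rw [nm_zero]
      positivity
    · rw [mem_ball, dist_eq_norm, not_lt] at h1
      by_cases h2 : ‖z - a‖ ≤ r
      · have h3 : ‖P z * g n z‖ ≤ B * Cg := by
          rw [norm_mul]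
          exact mul_le_mul (hB z h1 h2) (c5 n z) (norm_nonneg _) hB0
        refine (nm_mul_le h3 ((hh n z).2.trans (hnb _ _)) (by positivity)).trans (le_of_eq ?_)
        ring
      · rw [c7 n z (not_le.mp h2).le]
        simp only [zero_mul, mul_zero]
        rw [nm_zero]
        positivity
  -- integrability of the differences
  have hdbi : ∀ n, Integrable (db (Θ n)) := by
    intro n
    obtain ⟨M, hM⟩ := (hΘ n).bd hPOM (fun _ => 1) measurable_const 1 zero_le_one
      (fun z _ _ => by simp)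
    have h1 := ((hHT (r + 1) (by linarith)).choose_spec.2 a M _ hM).1
    simpa using h1
  have hwg : ∀ n, Integrable fun z => (w z : ℂ) * g n z := by
    intro n
    have h1 : IntegrableOn w (ball a r) :=
      (hw.loc.integrableOn_isCompact (isCompact_closedBall a r)).mono_set ball_subset_closedBall
    have h2 : Integrable fun z => (ball a r).indicator (fun z => Cg * w z) z :=
      (integrable_indicator_iff measurableSet_ball).2 (h1.const_mul _)
    refine h2.mono' ((Complex.measurable_ofReal.comp hw.meas).mul (c4 n)).aestronglyMeasurable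
      (Eventually.of_forall fun z => ?_)
    rw [norm_mul, Complex.norm_real, Real.norm_of_nonneg (hw.nonneg z)]
    by_cases hz : z ∈ ball a r
    · rw [indicator_of_mem hz, mul_comm]
      exact mul_le_mul_of_nonneg_right (c5 n z) (hw.nonneg z)
    · rw [indicator_of_notMem hz]
      rw [mem_ball, dist_eq_norm, not_lt] at hz
      rw [c7 n z hz, norm_zero, mul_zero]
  have hD1 : ∀ n, Integrable fun z => ‖(w z : ℂ) * g n z - db (Θ n) z‖ := fun n =>
    ((hwg n).sub (hdbi n)).norm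
  have hdi : ∀ n, IntegrableOn (fun z => sm φ u' v' (m n) z - w z) (ball (0:ℂ) R') := by
    intro n
    refine ⟨((hsmm n).sub hw.meas).aestronglyMeasurable, ?_⟩
    unfold HasFiniteIntegral
    exact lt_of_le_of_lt (hm3 n) ENNReal.ofReal_lt_top
  have hD2 : ∀ n, Integrable fun z => (ball (0:ℂ) R').indicator
      (fun z => Cg * ‖sm φ u' v' (m n) z - w z‖) z := fun n =>
    (integrable_indicator_iff measurableSet_ball).2 ((hdi n).norm.const_mul _)
  set ε : ℕ → ℝ := fun n => (∫ z, ‖(w z : ℂ) * g n z - db (Θ n) z‖) + Cg * (1 / (n + 1)) with hε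
  have hε0 : Tendsto ε atTop (𝓝 0) := by
    have h1 : Tendsto (fun n => ∫ z, ‖(w z : ℂ) * g n z - db (Θ n) z‖) atTop (𝓝 0) := by
      have h2 : ∀ n, ∫ z, ‖(w z : ℂ) * g n z - db (Θ n) z‖ =
          (∫⁻ z, ‖(w z : ℂ) * g n z - db (Θ n) z‖ₑ).toReal := fun n =>
        integral_norm_eq_lintegral_enorm ((hwg n).sub (hdbi n)).1
      simp_rw [h2]
      have := (ENNReal.tendsto_toReal ENNReal.zero_ne_top).comp c8
      rw [ENNReal.toReal_zero] at this
      exact this
    have h2 : Tendsto (fun n : ℕ => Cg * (1 / ((n:ℝ) + 1))) atTop (𝓝 0) := by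
      simpa using (tendsto_one_div_add_atTop_nhds_zero_nat (𝕜 := ℝ)).const_mul Cg
    have h3 := h1.add h2
    rw [add_zero] at h3
    exact h3
  have hD3 : ∀ n, ∫ z, (‖(w z : ℂ) * g n z - db (Θ n) z‖ + (ball (0:ℂ) R').indicator
      (fun z => Cg * ‖sm φ u' v' (m n) z - w z‖) z) ≤ ε n := by
    intro n
    rw [integral_add (hD1 n) (hD2 n)]
    refine add_le_add le_rfl ?_
    rw [integral_indicator measurableSet_ball, integral_const_mul,
      integral_norm_eq_lintegral_enorm (hdi n).1]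
    have h1 := ENNReal.toReal_mono ENNReal.ofReal_ne_top (hm3 n)
    rw [ENNReal.toReal_ofReal (by positivity)] at h1
    exact mul_le_mul_of_nonneg_left h1 hCg0
  -- the errors
  have herr : ∀ (P : ℂ → ℂ) (B : ℝ), Measurable P → 0 ≤ B →
      (∀ z, τ ≤ ‖z - a‖ → ‖z - a‖ ≤ r → ‖P z‖ ≤ B) → ∀ n,
      (∀ i, Integrable fun z => P z * db (Θ n) z * k i z) →
      ‖∑ i ∈ Finset.range (m n), ((∫ z, (q P n i z - ∑ j ∈ Finset.range (m n),
        ct φ (v' i) (u' j) z * q P n j z)) - ∫ z, P z * db (Θ n) z * k i z) • u i‖ ≤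
        B * KV * U₀ * ε n := by
    intro P B hP hB0 hB n hPi
    have hs1 : ∀ i, Integrable fun z => ∑ j ∈ Finset.range (m n),
        ct φ (v' i) (u' j) z * q P n j z := fun i => integrable_finsetSum _ fun j hj => by
      have h1 := ((hF i j).int a r _ _ (hbd P B hP hB0 hB n j (Finset.mem_range.1 hj))).1
      exact h1.congr (Eventually.of_forall fun z => mul_comm _ _)
    have hs2 : ∀ i < m n, Integrable (q P n i) := fun i hi =>
      (hKr a _ _ (hbd P B hP hB0 hB n i hi)).1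
    set F : ℕ → ℂ → ℂ := fun i z => (q P n i z - ∑ j ∈ Finset.range (m n),
        ct φ (v' i) (u' j) z * q P n j z) - P z * db (Θ n) z * k i z with hFF
    have hFi : ∀ i < m n, Integrable (F i) := fun i hi =>
      ((hs2 i hi).sub (hs1 i)).sub (hPi i)
    have e0 : ∀ i ∈ Finset.range (m n), ((∫ z, (q P n i z - ∑ j ∈ Finset.range (m n),
        ct φ (v' i) (u' j) z * q P n j z)) - ∫ z, P z * db (Θ n) z * k i z) • u i =
        (∫ z, F i z) • u i := by
      intro i hi
      have e1 := integral_sub ((hs2 i (Finset.mem_range.1 hi)).sub (hs1 i)) (hPi i)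
      simp only [Pi.sub_apply] at e1
      rw [← e1]
    rw [Finset.sum_congr rfl e0]
    have hG : Integrable fun z => B * KV * (‖(w z : ℂ) * g n z - db (Θ n) z‖ +
        (ball (0:ℂ) R').indicator (fun z => Cg * ‖sm φ u' v' (m n) z - w z‖) z) :=
      ((hD1 n).add (hD2 n)).const_mul _
    have hpt : ∀ z, nm (m n) (fun i => F i z) ≤ B * KV * (‖(w z : ℂ) * g n z - db (Θ n) z‖ +
        (ball (0:ℂ) R').indicator (fun z => Cg * ‖sm φ u' v' (m n) z - w z‖) z) := by
      intro z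
      have hnn : 0 ≤ (ball (0:ℂ) R').indicator
          (fun z => Cg * ‖sm φ u' v' (m n) z - w z‖) z :=
        indicator_nonneg (fun z _ => mul_nonneg hCg0 (norm_nonneg _)) z
      have e3 : ∀ i < m n, F i z =
          P z * g n z * ((sm φ u' v' (m n) z : ℂ) * b i z) - P z * db (Θ n) z * k i z := by
        intro i hi
        simp only [hFF]
        rw [← (hh n z).1 i hi]
        simp only [hq, Am]
        rw [mul_sub, Finset.mul_sum]
        congr 1
        congr 1
        · ring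
        · refine Finset.sum_congr rfl fun j _ => ?_
          ring
      by_cases h1 : z ∈ ball a τ
      · rw [nm_congr (d := fun _ => 0) fun i hi => by
          rw [e3 i hi, c6 n z h1, (hΘ n).db_in hPOM z h1]
          simp, nm_zero]
        positivity
      · have hbk : ∀ i, b i z = k i z := fun i => by
          simp only [hb]
          rw [if_neg h1]
        rw [mem_ball, dist_eq_norm, not_lt] at h1
        by_cases h2 : ‖z - a‖ ≤ r
        · have hz' : z ∈ ball (0:ℂ) R' := hsub (by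
            rw [mem_ball, dist_eq_norm]
            linarith)
          rw [indicator_of_mem hz']
          rw [nm_congr (d := fun i => (P z * (((w z : ℂ) * g n z - db (Θ n) z) +
                g n z * ((sm φ u' v' (m n) z - w z : ℝ) : ℂ))) * k i z) fun i hi => by
            rw [e3 i hi, hbk]
            push_cast
            ring]
          have h3 : ‖P z * (((w z : ℂ) * g n z - db (Θ n) z) +
                g n z * ((sm φ u' v' (m n) z - w z : ℝ) : ℂ))‖ ≤
              B * (‖(w z : ℂ) * g n z - db (Θ n) z‖ + Cg * ‖sm φ u' v' (m n) z - w z‖) := by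
            rw [norm_mul]
            refine mul_le_mul (hB z h1 h2) ?_ (norm_nonneg _) hB0
            refine (norm_add_le _ _).trans (add_le_add le_rfl ?_)
            rw [norm_mul, Complex.norm_real]
            exact mul_le_mul_of_nonneg_right (c5 n z) (norm_nonneg _)
          refine (nm_mul_le h3 (hkn (m n) z h1) (by positivity)).trans (le_of_eq ?_)
          ring
        · rw [nm_congr (d := fun _ => 0) fun i hi => by
            rw [e3 i hi, c7 n z (not_le.mp h2).le, (hΘ n).db_out hPOM z (not_le.mp h2)]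
            simp, nm_zero]
          positivity
    refine (hUR.cst (m n) _).trans ?_
    calc U₀ * nm (m n) (fun i => ∫ z, F i z) ≤ U₀ * ∫ z, B * KV *
          (‖(w z : ℂ) * g n z - db (Θ n) z‖ +
          (ball (0:ℂ) R').indicator (fun z => Cg * ‖sm φ u' v' (m n) z - w z‖) z) :=
          mul_le_mul_of_nonneg_left (nm_integral hFi hG hpt) hU0
      _ = B * KV * U₀ * ∫ z, (‖(w z : ℂ) * g n z - db (Θ n) z‖ +
          (ball (0:ℂ) R').indicator (fun z => Cg * ‖sm φ u' v' (m n) z - w z‖) z) := by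
          rw [integral_const_mul]
          ring
      _ ≤ _ := mul_le_mul_of_nonneg_left (hD3 n) (by positivity)
  -- the vectors `(N - a)^k x`
  set A : ℕ → X := fun k => op Ψ (fun z => (z - a) ^ k * η z) x₀ with hA
  have hAc : ∀ k : ℕ, Continuous (fun z => (z - a) ^ k * η z) := fun k => by fun_prop
  have hA0 : A 0 = op Ψ η x₀ := by
    simp only [hA, pow_zero, one_mul]
  have hAs : ∀ k, N (A k) - a • A k = A (k + 1) := by
    intro k
    have h1 := op_step hΨ (hAc k) (hAc (k + 1)) a 0 (fun z => by ring) x₀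
    rw [zero_smul, add_zero] at h1
    exact h1
  have hAb : ∀ k, ‖A k‖ ≤ C₀ * Mη * ‖x₀‖ * r ^ k := by
    intro k
    have h1 := hC.op (fun z => (z - a) ^ k * η z) (r ^ k * Mη) (hAc k) (by positivity)
      (fun z hz => by
        by_cases hb : z ∈ ball a (τ / 2)
        · rw [norm_mul, norm_pow]
          rw [mem_ball, dist_eq_norm] at hb
          exact mul_le_mul (pow_le_pow_left₀ (norm_nonneg _) (by linarith) k) (hMη z hz)
            (norm_nonneg _) (by positivity)
        · rw [hη0 z hb, mul_zero, norm_zero]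
          positivity)
    calc ‖A k‖ ≤ ‖op Ψ (fun z => (z - a) ^ k * η z)‖ * ‖x₀‖ := (op Ψ _).le_opNorm x₀
      _ ≤ C₀ * (r ^ k * Mη) * ‖x₀‖ := by gcongr
      _ = _ := by ring
  have hpi : (Real.pi : ℂ) ≠ 0 := by exact_mod_cast Real.pi_ne_zero
  have hpi' : ‖(1 / Real.pi : ℂ)‖ = 1 / Real.pi := by
    rw [norm_div, norm_one, Complex.norm_real, Real.norm_eq_abs, abs_of_pos Real.pi_pos]
  have hpB : ∀ (k : ℕ) (z : ℂ), τ ≤ ‖z - a‖ → ‖z - a‖ ≤ r → ‖(z - a) ^ k‖ ≤ r ^ k :=
    fun k z _ hz => by rw [norm_pow]; exact pow_le_pow_left₀ (norm_nonneg _) hz k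
  have hiB : ∀ z : ℂ, τ ≤ ‖z - a‖ → ‖z - a‖ ≤ r → ‖(z - a)⁻¹‖ ≤ τ⁻¹ :=
    fun z hz _ => by rw [norm_inv]; exact inv_anti₀ hτ hz
  have hpm : ∀ k : ℕ, Measurable fun z : ℂ => (z - a) ^ k := fun k => by fun_prop
  have him : Measurable fun z : ℂ => (z - a)⁻¹ := by fun_prop
  have hYp : ∀ n k, _ := fun n k => YY_step hΨ hC hF hr hK0 hKr
    (hbd (fun z => (z - a) ^ k) (r ^ k) (hpm k) (by positivity) (hpB k) n)
    (by positivity : 0 ≤ r ^ k * (Cg * KV))
    (le_refl (∑ j ∈ Finset.range (m n), ‖u j‖))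
  have hYi : ∀ n, _ := fun n => YY_step hΨ hC hF hr hK0 hKr
    (hbd (fun z => (z - a)⁻¹) τ⁻¹ him (by positivity) hiB n)
    (by positivity : 0 ≤ τ⁻¹ * (Cg * KV))
    (le_refl (∑ j ∈ Finset.range (m n), ‖u j‖))
  have hYpb : ∀ n k, ‖YY Ψ u (m n) (q (fun z => (z - a) ^ k) n)‖ ≤
      U₀ * (Kr * (r ^ k * (Cg * KV))) := fun n k => YY_bound2 hr hK0 hKr hUR
    (hbd (fun z => (z - a) ^ k) (r ^ k) (hpm k) (by positivity) (hpB k) n)
    (by positivity : 0 ≤ r ^ k * (Cg * KV)) (hqn _ _ (by positivity) (hpB k) n)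
  have hYib : ∀ n, ‖YY Ψ u (m n) (q (fun z => (z - a)⁻¹) n)‖ ≤
      U₀ * (Kr * (τ⁻¹ * (Cg * KV))) := fun n => YY_bound2 hr hK0 hKr hUR
    (hbd (fun z => (z - a)⁻¹) τ⁻¹ him (by positivity) hiB n)
    (by positivity : 0 ≤ τ⁻¹ * (Cg * KV)) (hqn _ _ (by positivity) hiB n)
  have hlim1 : Tendsto (fun n : ℕ => (1:ℝ) / (n + 1)) atTop (𝓝 0) :=
    tendsto_one_div_add_atTop_nhds_zero_nat
  set Z : ℕ → ℕ → X := fun n k => A k - (1 / Real.pi : ℂ) •
    YY Ψ u (m n) (q (fun z => (z - a) ^ k) n) with hZ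
  set V : ℕ → X := fun n => (1 / Real.pi : ℂ) • YY Ψ u (m n) (q (fun z => (z - a)⁻¹) n) with hV
  set CC : ℝ := (C₀ * Mη * ‖x₀‖ + 1 / Real.pi * (U₀ * (Kr * (Cg * KV)))) +
      1 / Real.pi * (U₀ * (Kr * (τ⁻¹ * (Cg * KV)))) with hCC
  have hCC1 : 0 ≤ C₀ * Mη * ‖x₀‖ + 1 / Real.pi * (U₀ * (Kr * (Cg * KV))) := by positivity
  have hCC2 : 0 ≤ 1 / Real.pi * (U₀ * (Kr * (τ⁻¹ * (Cg * KV)))) := by positivity
  have hZb : ∀ n k, ‖Z n k‖ ≤ CC * r ^ k := by
    intro n k
    have h3 := hYpb n k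
    have h4 := hAb k
    have hrk : 0 < r ^ k := by positivity
    simp only [hZ]
    calc _ ≤ ‖A k‖ + ‖(1 / Real.pi : ℂ) • YY Ψ u (m n) (q (fun z => (z - a) ^ k) n)‖ :=
          norm_sub_le _ _
      _ ≤ C₀ * Mη * ‖x₀‖ * r ^ k + 1 / Real.pi * (U₀ * (Kr * (r ^ k * (Cg * KV)))) := by
          rw [norm_smul, hpi']
          gcongr
      _ = (C₀ * Mη * ‖x₀‖ + 1 / Real.pi * (U₀ * (Kr * (Cg * KV)))) * r ^ k := by ring
      _ ≤ _ := mul_le_mul_of_nonneg_right (by rw [hCC]; linarith) hrk.le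
  have hVb : ∀ n, ‖V n‖ ≤ CC := by
    intro n
    have h3 := hYib n
    simp only [hV]
    calc _ ≤ 1 / Real.pi * (U₀ * (Kr * (τ⁻¹ * (Cg * KV)))) := by
          rw [norm_smul, hpi']
          gcongr
      _ ≤ _ := by rw [hCC]; linarith
  -- the errors in the limit
  have hlimE : ∀ B : ℝ, Tendsto (fun n => 1 / Real.pi * (B * KV * U₀ * ε n) +
      (1 / ((n:ℝ) + 1)) * CC * (B + 1)) atTop (𝓝 0) := by
    intro B
    have h1 := (hε0.const_mul (B * KV * U₀)).const_mul (1 / Real.pi)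
    have h2 := (hlim1.mul_const CC).mul_const (B + 1)
    have h3 := h1.add h2
    simpa using h3
  refine ⟨Z, V, CC, hZb, hVb, fun k' => ?_, ?_⟩
  · refine squeeze_zero_norm (fun n => ?_) (hlimE (r ^ k'))
    obtain ⟨-, i2, -⟩ := hYp n k'
    have e4 : (fun j z => (z - a) * q (fun z => (z - a) ^ k') n j z) =
        q (fun z => (z - a) ^ (k' + 1)) n := by
      funext j z
      simp only [hq]
      ring
    rw [e4] at i2
    have hfr : (N + fr u v (m n)) (A k') - a • A k' = A (k' + 1) +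
        ∑ i ∈ Finset.range (m n), v i (A k') • u i := by
      rw [add_apply, fr_apply, add_sub_right_comm, hAs]
    have hE : (N + fr u v (m n)) (Z n k') - a • Z n k' - Z n (k' + 1) =
        (1 / Real.pi : ℂ) • ∑ i ∈ Finset.range (m n),
          ((∫ z, (q (fun z => (z - a) ^ k') n i z - ∑ j ∈ Finset.range (m n),
          ct φ (v' i) (u' j) z * q (fun z => (z - a) ^ k') n j z)) -
            ∫ z, (z - a) ^ k' * db (Θ n) z * k i z) • u i := by
      have h5 : ∀ i, ∫ z, (z - a) ^ k' * db (Θ n) z * k i z = -(Real.pi * v i (A k')) := fun i =>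
        (((hkΘ i) (Θ n) r hr (hΘ n)).1 k').2
      simp_rw [h5]
      simp only [hZ, map_sub, map_smul]
      rw [eq_add_of_sub_eq hfr, eq_add_of_sub_eq i2]
      simp only [sub_neg_eq_add, add_smul, Finset.sum_add_distrib, smul_sub, smul_add,
        Finset.smul_sum, smul_smul]
      have h6 : ∀ i, (1 / Real.pi : ℂ) * (Real.pi * v i (A k')) = v i (A k') := fun i => by
        field_simp
      simp_rw [h6]
      rw [mul_comm (1 / Real.pi : ℂ) a]
      abel
    have e : (N + K) (Z n k') - a • Z n k' - Z n (k' + 1) =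
        ((N + fr u v (m n)) (Z n k') - a • Z n k' - Z n (k' + 1)) +
        (K (Z n k') - fr u v (m n) (Z n k')) := by
      rw [add_apply, add_apply]
      abel
    rw [e, hE]
    refine (norm_add_le _ _).trans (add_le_add ?_ ?_)
    · rw [norm_smul, hpi']
      exact mul_le_mul_of_nonneg_left (herr _ (r ^ k') (hpm k') (by positivity) (hpB k') n
        (fun i => (((hkΘ i) (Θ n) r hr (hΘ n)).1 k').1)) (by positivity)
    · have h2 := htail (m n) (Z n k')
      have h4 : tl (m n) * ‖Z n k'‖ ≤ (1 / ((n:ℝ) + 1)) * (CC * r ^ k') :=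
        mul_le_mul (hm2 n) (hZb n k') (norm_nonneg _) (by positivity)
      refine (h2.trans h4).trans ?_
      have h5 : 0 ≤ CC := by rw [hCC]; linarith
      have h6 : (0:ℝ) ≤ 1 / ((n:ℝ) + 1) := by positivity
      calc (1 / ((n:ℝ) + 1)) * (CC * r ^ k') = (1 / ((n:ℝ) + 1)) * CC * r ^ k' := by ring
        _ ≤ (1 / ((n:ℝ) + 1)) * CC * (r ^ k' + 1) :=
            mul_le_mul_of_nonneg_left (by linarith) (mul_nonneg h6 h5)
  · refine squeeze_zero_norm (fun n => ?_) (hlimE τ⁻¹)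
    obtain ⟨-, i2, -⟩ := hYi n
    have e4 : YY Ψ u (m n) (fun j z => (z - a) * q (fun z => (z - a)⁻¹) n j z) =
        YY Ψ u (m n) (q (fun z => (z - a) ^ 0) n) := by
      congr 1
      funext j z
      simp only [hq]
      by_cases hz : z = a
      · rw [hz, c6 n a (mem_ball_self hτ)]
        simp
      · have : z - a ≠ 0 := sub_ne_zero.mpr hz
        field_simp
    rw [e4] at i2
    have hE : op Ψ η x₀ - Z n 0 - ((N + fr u v (m n)) (V n) - a • V n) =
        (1 / Real.pi : ℂ) • ∑ i ∈ Finset.range (m n),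
          ((∫ z, (q (fun z => (z - a)⁻¹) n i z - ∑ j ∈ Finset.range (m n),
          ct φ (v' i) (u' j) z * q (fun z => (z - a)⁻¹) n j z)) -
            ∫ z, (z - a)⁻¹ * db (Θ n) z * k i z) • u i := by
      have h5 : ∀ i, ∫ z, (z - a)⁻¹ * db (Θ n) z * k i z = 0 := fun i =>
        ((hkΘ i) (Θ n) r hr (hΘ n)).2.2
      simp_rw [h5, sub_zero]
      rw [← hA0]
      simp only [hZ, hV, map_smul]
      rw [eq_add_of_sub_eq i2]
      simp only [smul_sub, smul_add, smul_smul]
      rw [mul_comm (1 / Real.pi : ℂ) a]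
      abel
    have e : op Ψ η x₀ - Z n 0 - ((N + K) (V n) - a • V n) =
        (op Ψ η x₀ - Z n 0 - ((N + fr u v (m n)) (V n) - a • V n)) +
        -(K (V n) - fr u v (m n) (V n)) := by
      rw [add_apply, add_apply]
      abel
    rw [e, hE]
    refine (norm_add_le _ _).trans (add_le_add ?_ ?_)
    · rw [norm_smul, hpi']
      exact mul_le_mul_of_nonneg_left (herr _ τ⁻¹ him (by positivity) hiB n
        (fun i => ((hkΘ i) (Θ n) r hr (hΘ n)).2.1)) (by positivity)
    · rw [norm_neg]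
      have h2 := htail (m n) (V n)
      have h4 : tl (m n) * ‖V n‖ ≤ (1 / ((n:ℝ) + 1)) * CC :=
        mul_le_mul (hm2 n) (hVb n) (norm_nonneg _) (by positivity)
      refine (h2.trans h4).trans ?_
      have h5 : 0 ≤ CC := by rw [hCC]; linarith
      have h6 : (0:ℝ) ≤ 1 / ((n:ℝ) + 1) := by positivity
      have h7 : 0 ≤ τ⁻¹ := by positivity
      calc (1 / ((n:ℝ) + 1)) * CC = (1 / ((n:ℝ) + 1)) * CC * 1 := (mul_one _).symm
        _ ≤ (1 / ((n:ℝ) + 1)) * CC * (τ⁻¹ + 1) :=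
            mul_le_mul_of_nonneg_left (by linarith) (mul_nonneg h6 h5)

end Pool.Agent.Q98.SK
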