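import Pool.Agent.Q98.SK.CaseB2

/-!
# Chains at the points of the essential spectrum, row bounded families
-/

set_option autoImplicit false

namespace Pool.Agent.Q98.SK

open MeasureTheory Set Metric Filter Topology
open scoped ENNReal NNReal ComplexConjugate ContDiff
open Pool.Agent.Y283.NK (ct)
open Pool.Agent.Y271.RO (ht Bd db Cut hHT hCTG hPOM pw fd Cheap)
open Pool.Agent.Y941.RO (CO)
open Pool.Agent.Q98.RB
open Pool.Agent.Q98.NR (IsK)
open Pool.Agent.Q88.NB
open Pool.Agent.Q130.TC (cau S_CAU WT S_MZ nm Am sm S_SM S_CMA IsW S_WTI S_LW S_LNK)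

variable {X : Type} [NormedAddCommGroup X] [NormedSpace ℂ X]
variable {N : X →L[ℂ] X} {R : ℝ} {Ψ : C(DD R, ℂ) →ₐ[ℂ] (X →L[ℂ] X)}

/-- the data: an operator `∑ v j ⊗ u j` with row bounded `u`, bounded `v`, and a realization of the pairs -/
structure Dt (Ψ : C(DD R, ℂ) →ₐ[ℂ] (X →L[ℂ] X)) (K : X →L[ℂ] X) (u : ℕ → X)
    (v : ℕ → (X →L[ℂ] ℂ)) : Prop where
  tl : TL K u v
  rb : ∃ U₀, RB Ψ u U₀
  vb : ∃ V₀, VB v V₀
  mat : ∃ (S : Type) (_ : MeasurableSpace S) (μ : Measure S) (_ : SigmaFinite μ) (φ : S → ℂ)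
    (u' v' : ℕ → Lp ℂ 2 μ), Measurable φ ∧ Summable (fun j => ‖u' j‖ ^ 2) ∧
    Summable (fun j => ‖v' j‖ ^ 2) ∧ ∀ i j, IsK Ψ (v i) (u j) (ct φ (v' i) (u' j))

/-- case B -/
theorem caseB3 (hSM : S_SM) [CompleteSpace X] (hX : Refl X) (hΨ : Cal N R Ψ) {S : Type}
    [MeasurableSpace S] {μ : Measure S}
    [SigmaFinite μ] {φ : S → ℂ} {u' v' : ℕ → Lp ℂ 2 μ} (hφ : Measurable φ)
    {K : X →L[ℂ] X} {u : ℕ → X} {v : ℕ → (X →L[ℂ] ℂ)}
    (hF : ∀ i j, IsK Ψ (v i) (u j) (ct φ (v' i) (u' j))) (hK : TL K u v)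
    {U₀ V₀ : ℝ} (hUR : RB Ψ u U₀) (hVB : VB v V₀)
    (hKc : IsCompactOperator (⇑K))
    {w : ℂ → ℝ} (hw : IsW φ u' v' w) {a : ℂ} {τ r : ℝ} (hτ : 0 < τ) (hτr : τ < r)
    (hcut : Cut (fun z => (w z : ℂ)) a τ r) (hE : Ess Ψ a) : HasCh (N + K) a r := by
  by_contra hno
  have hch : ∀ Y, IsChain (N + K) a r Y → Y 0 = 0 := by
    intro Y hY
    by_contra h0
    exact hno ⟨Y, hY, h0⟩
  refine surK hΨ hKc hE fun x => ?_
  -- the splitting of `x`
  have ht : 0 < τ / 4 := by positivity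
  have hη := cf_cont a (τ / 4)
  set k : ℂ → ℂ := fun z => Hm a (τ / 4) z * (1 - cf a (τ / 4) z) with hk
  have hkc : Continuous k := (Hm_cont a ht).mul (continuous_const.sub hη)
  obtain ⟨Z, V, C, h1, h2, h3, h4⟩ := cutvB2 hSM hΨ hφ hF hK hUR hVB hw hτ hτr hcut x hη (fun z hz => by
    rw [mem_ball, dist_eq_norm, not_lt] at hz
    exact cf_zero ht (by linarith))
  obtain ⟨Y, W', hY, hx⟩ := (wlim_chain hX (N + K) a r C Z h1 h3).1 a (op Ψ (cf a (τ / 4)) x)
    V C h2 h4
  have h5 : x = op Ψ (cf a (τ / 4)) x + (N (op Ψ k x) - a • op Ψ k x) := by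
    have h6 := op_step hΨ hkc (k := fun z => 1 - cf a (τ / 4) z) (continuous_const.sub hη) a 0
      (fun z => by
        rw [hk, add_zero]
        rcases le_or_gt (τ / 4) ‖z - a‖ with h | h
        · have hne : z - a ≠ 0 := by
            intro h0
            rw [h0, norm_zero] at h
            linarith
          simp only
          rw [Hm_far ht h]
          field_simp
        · simp only
          rw [cf_one ht h.le]
          simp) x
    rw [h6, zero_smul, add_zero, op_sub continuous_const hη, op_const, one_smul]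
    simp
  refine ⟨W' + op Ψ k x, -(op Ψ k x), ?_⟩
  conv_lhs => rw [h5, hx, hch Y hY]
  rw [map_add, smul_add, map_neg, add_apply N K (op Ψ k x)]
  abel

/-- chains at the points of the essential spectrum, if there are biorthogonal functionals -/
theorem chain_bio2 (H : TCH) [CompleteSpace X] (hX : Refl X) (hΨ : Cal N R Ψ)
    {K : X →L[ℂ] X} {u : ℕ → X} {v : ℕ → (X →L[ℂ] ℂ)} (hD : Dt Ψ K u v)
    {f : ℕ → (X →L[ℂ] ℂ)} (hf : ∀ i j, f i (u j) = if i = j then 1 else 0)
    (a : ℂ) {r : ℝ} (hr : 0 < r) (hE : Ess Ψ a) : HasCh (N + K) a r := by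
  have hK := hD.tl
  have hKc : IsCompactOperator (⇑K) := hK.compact
  obtain ⟨U₀, hUR⟩ := hD.rb
  obtain ⟨V₀, hVB⟩ := hD.vb
  obtain ⟨S, _, μ, _, φ, u', v', hφ, hu', hv', hF⟩ := hD.mat
  obtain ⟨w, hw⟩ := H.lw S μ φ hφ u' v' hu' hv'
  set ρ : ℝ := r / 4 with hρ
  have hρ0 : 0 < ρ := by positivity
  have hwm : Measurable fun z => (w z : ℂ) := Complex.measurable_ofReal.comp hw.meas
  by_cases hne : ∀ᵐ z ∂(volume.restrict (ball a ρ)), (w z : ℂ) ≠ 0
  · by_cases hcheap : ∀ k : ℕ, ∃ n : ℕ, k ≤ n ∧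
      Cheap (pw (fd (fun z => (w z : ℂ)) a ρ) (1 / (n + 1))) a (1 / (k + 1)) ρ (1 / (k + 1))
    · have hi : IntegrableOn (fun z => (w z : ℂ)) (ball a ρ) := by
        have h1 : IntegrableOn w (ball a ρ) :=
          (hw.loc.integrableOn_isCompact (isCompact_closedBall a ρ)).mono_set
            ball_subset_closedBall
        exact h1.ofReal
      obtain ⟨C, c₀, l, δ, hC, hc₀, hl1, hl2, hl3, hδ, hδ0, hWT, hlim⟩ :=
        H.lnk _ a ρ hρ0 hwm hi hcheap
      have hB : ∀ n, ∃ B : ℝ, ∀ z, l n z ≤ B := by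
        intro n
        obtain ⟨B, hB⟩ := (hl1 n).cont.bounded_above_of_compact_support (hl1 n).supp
        exact ⟨B, fun z => (le_abs_self _).trans (hB z)⟩
      choose B hB using hB
      have h4 := caseA2 (C := max C c₀) H.mz H.sm H.cma hX hΨ hφ hu' hv' hF hUR hK hf hw hρ0
        (lt_max_of_lt_left hC) hc₀ (fun n => (hl1 n).cont.measurable)
        (fun n z => ⟨(hl1 n).nonneg z, hB n z⟩) hl2 (fun n => (hl3 n).ge)
        (fun n => (hl3 n).le.trans (le_max_right _ _)) hδ hδ0 (fun n => by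
          intro S' _ μ' _ φ' k' hφ' hk' t ht
          refine (hWT n S' μ' φ' k' hφ' hk' t ht).trans ?_
          have h5 : 0 ≤ ∫ s, ‖k' s‖ ∂μ' := integral_nonneg fun s => norm_nonneg _
          have h6 := le_max_left C c₀
          gcongr) (by
          refine hlim.congr fun n => ?_
          refine integral_congr_ae (Eventually.of_forall fun z => ?_)
          simp only
          rw [Complex.norm_real, Real.norm_of_nonneg (hw.nonneg z)])
      rwa [show 4 * ρ = r by rw [hρ]; ring] at h4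
    · -- case B
      have hi : IntegrableOn (fun z => (w z : ℂ)) (ball a ρ) := by
        have h1 : IntegrableOn w (ball a ρ) :=
          (hw.loc.integrableOn_isCompact (isCompact_closedBall a ρ)).mono_set
            ball_subset_closedBall
        exact h1.ofReal
      push Not at hcheap
      obtain ⟨k, hk⟩ := hcheap
      have hk1 : (0:ℝ) < 1 / ((k:ℝ) + 1) := by positivity
      set τ0 : ℝ := min (1 / ((k:ℝ) + 1)) (ρ / 2) with hτ0
      have hτpos : 0 < τ0 := lt_min hk1 (by positivity)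
      have hτr : τ0 < ρ := (min_le_right _ _).trans_lt (by linarith)
      obtain ⟨hc, hL⟩ := Pool.Agent.Y271.RO.hPCA (fd (fun z => (w z : ℂ)) a ρ)
        (Pool.Agent.Y271.RO.fd_integrable hi) (Pool.Agent.Y271.RO.fd_nonneg _ a ρ)
      have hstep : ∀ n : ℕ, ∃ Θ' : ℂ → ℂ, ContDiff ℝ ∞ Θ' ∧ (∀ z ∈ ball a (τ0 / 2), Θ' z = 1) ∧
          (∀ z, 2 * ρ ≤ ‖z - a‖ → Θ' z = 0) ∧
          ∀ z, ‖db Θ' z‖ ≤ 1 / (1 / ((k:ℝ) + 1)) *
            (pw (fd (fun z => (w z : ℂ)) a ρ) (1 / ((n + k : ℕ) + 1)) z + 1 / (n + 1)) := by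
        intro n
        have hε : (0:ℝ) < 1 / (((n + k : ℕ) : ℝ) + 1) := by positivity
        obtain ⟨hWc, hW0⟩ := hc _ hε
        rcases Pool.Agent.Y271.RO.hALT _ a τ0 ρ (1 / ((k:ℝ) + 1)) hWc hW0 hτpos hτr hk1 with
          h1 | ⟨Θ, h1, h2, h3, h4⟩
        · exact absurd (h1.mono (min_le_left _ _)) (hk (n + k) (by omega))
        · exact Pool.Agent.Y271.RO.hSMO _ Θ a τ0 ρ (1 / ((k:ℝ) + 1)) (1 / ((n:ℝ) + 1)) hWc hW0
            hτpos hτr hk1 (by positivity) h1 h2 h3 h4
      choose Θ' h1 h2 h3 h4 using hstep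
      have hcut : Cut (fun z => (w z : ℂ)) a (τ0 / 2) (2 * ρ) :=
        Pool.Agent.Y271.RO.hCUTA Pool.Agent.Y271.RO.hPCA (fun z => (w z : ℂ)) a (τ0 / 2) ρ
          (1 / ((k:ℝ) + 1)) k (by positivity) (by linarith) hk1 hwm hi hne Θ' h1 h2 h3 h4
      exact (caseB3 H.sm hX hΨ hφ hF hK hUR hVB hKc hw (by positivity) (by linarith) hcut hE).mono
        (by positivity) (by rw [hρ]; linarith)
  · -- zeros of positive area
    set G : Set ℂ := ball a ρ ∩ {z | w z = 0} with hG
    have hGm : MeasurableSet G := measurableSet_ball.inter (hw.meas (measurableSet_singleton 0))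
    have hGpos : volume G ≠ 0 := by
      intro h0
      apply hne
      rw [ae_restrict_iff' measurableSet_ball, ae_iff]
      refine measure_mono_null (fun z hz => ?_) h0
      simp only [ne_eq, mem_setOf_eq, Classical.not_imp, not_not] at hz
      exact ⟨hz.1, by exact_mod_cast hz.2⟩
    have hGfin : volume G ≠ ⊤ :=
      ne_top_of_le_ne_top measure_ball_lt_top.ne (measure_mono inter_subset_left)
    have hGr : 0 < volume.real G := by
      rw [measureReal_def]
      exact ENNReal.toReal_pos hGpos hGfin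
    obtain ⟨C, hC, hWT⟩ := H.wti ρ hρ0
    have hI : ∫ z, G.indicator (fun _ => (1:ℝ)) z = volume.real G := by
      rw [integral_indicator hGm]
      simp
    have h4 := caseA2 (C := max C (volume.real G)) (l := fun _ => G.indicator fun _ => (1:ℝ))
      (B := fun _ => 1) (δ := fun _ => 0) H.mz H.sm H.cma hX hΨ hφ hu' hv' hF hUR hK hf hw hρ0
      (lt_max_of_lt_left hC) hGr (fun n => measurable_const.indicator hGm)
      (fun n z => ⟨indicator_nonneg (fun _ _ => zero_le_one) z,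
        indicator_le_self' (fun _ _ => zero_le_one) z⟩)
      (fun n z hz => indicator_of_notMem (fun h => hz h.1) _) (fun n => hI.ge)
      (fun n => hI.le.trans (le_max_right _ _)) (fun n => le_rfl) tendsto_const_nhds
      (fun n => by
        intro S' _ μ' _ φ' k' hφ' hk' t ht
        refine (hWT a G hGm inter_subset_left S' μ' φ' k' hφ' hk' t ht).trans ?_
        have h5 : 0 ≤ ∫ s, ‖k' s‖ ∂μ' := integral_nonneg fun s => norm_nonneg _
        have h6 := le_max_left C (volume.real G)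
        gcongr) (by
        have h5 : ∀ z, w z * G.indicator (fun _ => (1:ℝ)) z = 0 := by
          intro z
          by_cases hz : z ∈ G
          · rw [hz.2, zero_mul]
          · rw [indicator_of_notMem hz, mul_zero]
        simp_rw [h5]
        simp)
    rwa [show 4 * ρ = r by rw [hρ]; ring] at h4

end Pool.Agent.Q98.SK
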