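import Pool.Agent.Q98.SK.Chain
import Pool.Agent.Q88.NB.Ext

/-!
# Chains at the points of the essential spectrum: the general case, row bounded families
-/

set_option autoImplicit false

namespace Pool.Agent.Q98.SK

open MeasureTheory Set Metric Filter Topology
open scoped ENNReal NNReal ComplexConjugate
open Pool.Agent.Y283.NK (ct)
open Pool.Agent.Y271.RO (ht Bd)
open Pool.Agent.Q98.RB
open Pool.Agent.Q98.NR (IsK)
open Pool.Agent.Q88.NB
open Pool.Agent.Q130.TC (cau nm wCAU)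

variable {X : Type} [NormedAddCommGroup X] [NormedSpace ℂ X]
variable {N : X →L[ℂ] X} {R : ℝ} {Ψ : C(DD R, ℂ) →ₐ[ℂ] (X →L[ℂ] X)}

section real

variable {S : Type} [MeasurableSpace S] {μ : Measure S} {φ k : S → ℂ}

/-- realizations by Cauchy transforms of measures -/
theorem isK_cau [SigmaFinite μ] {w : X →L[ℂ] ℂ} {x : X} (hφ : Measurable φ) (hk : Integrable k μ)
    (h : ∀ (c : ℂ) (r M : ℝ) (g : ℂ → ℂ), 0 < r → Bd g c r M →
      w (op Ψ (ht g) x) = ∫ s, k s * ht g (φ s) ∂μ) : IsK Ψ w x (cau μ φ k) := by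
  refine ⟨(wCAU.1 S μ φ k hφ hk).1, fun c r M g hg => ?_⟩
  by_cases hr : 0 < r
  · obtain ⟨M₀, -, h1⟩ := wCAU.2 r hr
    obtain ⟨h2, -, h3⟩ := h1 S μ φ k hφ hk c M g hg
    exact ⟨h2, by rw [h3, h c r M g hr hg]⟩
  · have e : g = fun _ => 0 := by
      funext z
      refine hg.supp z ?_
      rw [ball_eq_empty.2 (not_lt.1 hr)]
      exact notMem_empty z
    subst e
    have e2 : ht (fun _ => (0:ℂ)) = fun _ => 0 := by
      funext l
      simp [ht]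
    rw [e2, op_const, zero_smul]
    simp

/-- the values of a realization -/
theorem IsK.cau_eq [SigmaFinite μ] {w : X →L[ℂ] ℂ} {x : X} (h : IsK Ψ w x (cau μ φ k)) (hφ : Measurable φ)
    (hk : Integrable k μ) {c : ℂ} {r M : ℝ} {g : ℂ → ℂ} (hr : 0 < r) (hg : Bd g c r M) :
    w (op Ψ (ht g) x) = ∫ s, k s * ht g (φ s) ∂μ := by
  obtain ⟨M₀, -, h1⟩ := wCAU.2 r hr
  obtain ⟨-, -, h3⟩ := h1 S μ φ k hφ hk c M g hg
  rw [← (h.int c r M g hg).2, h3]

theorem emb_inl : MeasurableEmbedding (Sum.inl : S → S ⊕ Unit) :=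
  ⟨Sum.inl_injective, measurable_inl, fun _ hs => hs.inl_image⟩

theorem emb_inr : MeasurableEmbedding (Sum.inr : Unit → S ⊕ Unit) :=
  ⟨Sum.inr_injective, measurable_inr, fun _ hs => hs.inr_image⟩

/-- the sum of a measure space and a point -/
noncomputable def pm (μ : Measure S) : Measure (S ⊕ Unit) :=
  μ.map Sum.inl + (Measure.dirac ()).map Sum.inr

instance [SigmaFinite μ] : SigmaFinite (pm μ) := by
  unfold pm
  have h1 : SigmaFinite (μ.map (Sum.inl : S → S ⊕ Unit)) := emb_inl.sigmaFinite_map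
  have h2 : SigmaFinite ((Measure.dirac ()).map (Sum.inr : Unit → S ⊕ Unit)) :=
    emb_inr.sigmaFinite_map
  infer_instance

theorem pm_int {E : Type} [NormedAddCommGroup E] [NormedSpace ℝ E] [CompleteSpace E]
    {F : S ⊕ Unit → E} (hF : Integrable (fun s => F (Sum.inl s)) μ) :
    Integrable F (pm μ) ∧ ∫ s, F s ∂(pm μ) = (∫ s, F (Sum.inl s) ∂μ) + F (Sum.inr ()) := by
  have h1 : Integrable F (μ.map Sum.inl) := by
    rw [emb_inl.integrable_map_iff]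
    exact hF
  have h2 : Integrable F ((Measure.dirac ()).map Sum.inr) := by
    rw [emb_inr.integrable_map_iff]
    exact Integrable.of_finite
  refine ⟨h1.add_measure h2, ?_⟩
  unfold pm
  rw [integral_add_measure h1 h2, emb_inl.integral_map,
    emb_inr.integral_map, integral_dirac]

end real

/-- the calculus of a direct sum, with its values -/
theorem prodM2 {Z : Type} [NormedAddCommGroup Z] [NormedSpace ℂ Z] (hΨ : Cal N R Ψ) (μ : ℂ) :
    ∃ (R' : ℝ) (Ψ' : C(DD R', ℂ) →ₐ[ℂ] (X × Z →L[ℂ] X × Z)),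
      Cal (N.prodMap (μ • (1 : Z →L[ℂ] Z))) R' Ψ' ∧
      (∀ a, Ess Ψ a → Ess Ψ' a) ∧ R ≤ R' ∧ ‖μ‖ ≤ R' ∧
      ∀ h : ℂ → ℂ, Continuous h → ∀ p, op Ψ' h p = (op Ψ h p.1, h μ • p.2) := by
  set R' : ℝ := max R ‖μ‖ with hR'
  have hR : R ≤ R' := le_max_left _ _
  have hμ : μ ∈ closedBall (0:ℂ) R' := mem_closedBall_zero_iff.2 (le_max_right _ _)
  let f : C(DD R, DD R') := ⟨fun z => ⟨z, closedBall_subset_closedBall hR z.2⟩, by fun_prop⟩
  let Ψ₁ : C(DD R', ℂ) →ₐ[ℂ] (X →L[ℂ] X) := Ψ.comp (ContinuousMap.compRightAlgHom ℂ ℂ f)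
  have hΨ₁ : Continuous Ψ₁ := hΨ.cont.comp (ContinuousMap.compRightAlgHom_continuous ℂ ℂ f)
  let Ψ₂ : C(DD R', ℂ) →ₐ[ℂ] (X × Z →L[ℂ] X × Z) := AlgHom.ofLinearMap
    { toFun := fun g => (Ψ₁ g).prodMap (g ⟨μ, hμ⟩ • (1 : Z →L[ℂ] Z))
      map_add' := by
        intro g h
        refine ContinuousLinearMap.ext fun p => ?_
        show ((Ψ₁ (g + h)) p.1, (g ⟨μ, hμ⟩ + h ⟨μ, hμ⟩) • p.2) =
          (Ψ₁ g p.1, g ⟨μ, hμ⟩ • p.2) + (Ψ₁ h p.1, h ⟨μ, hμ⟩ • p.2)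
        rw [map_add, Prod.mk_add_mk, add_smul]
        rfl
      map_smul' := by
        intro c g
        refine ContinuousLinearMap.ext fun p => ?_
        show ((Ψ₁ (c • g)) p.1, (c * g ⟨μ, hμ⟩) • p.2) =
          c • (Ψ₁ g p.1, g ⟨μ, hμ⟩ • p.2)
        rw [map_smul, Prod.smul_mk, smul_smul]
        rfl }
    (by
      refine ContinuousLinearMap.ext fun p => ?_
      show ((Ψ₁ 1) p.1, (1 : ℂ) • p.2) = p
      rw [map_one, one_smul]
      rfl)
    (by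
      intro g h
      refine ContinuousLinearMap.ext fun p => ?_
      show ((Ψ₁ (g * h)) p.1, (g ⟨μ, hμ⟩ * h ⟨μ, hμ⟩) • p.2) =
        (Ψ₁ g (Ψ₁ h p.1), g ⟨μ, hμ⟩ • (h ⟨μ, hμ⟩ • p.2))
      rw [map_mul, smul_smul]
      rfl)
  have hval : ∀ h : ℂ → ℂ, Continuous h → ∀ p, op Ψ₂ h p = (op Ψ h p.1, h μ • p.2) := by
    intro h hc p
    have h2 : (rs R' h).comp f = rs R h := by
      ext s
      rw [ContinuousMap.comp_apply, rs_apply hc, rs_apply hc]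
      rfl
    have h3 : rs R' h ⟨μ, hμ⟩ = h μ := rs_apply hc _
    show (Ψ ((rs R' h).comp f) p.1, rs R' h ⟨μ, hμ⟩ • p.2) = _
    rw [h2, h3]
    rfl
  refine ⟨R', Ψ₂, ⟨lt_of_lt_of_le hΨ.pos hR, ?_, ?_⟩, fun a hE t ht hF => hE t ht ?_, hR,
    le_max_right _ _, hval⟩
  · have h1 : Continuous fun g : C(DD R', ℂ) =>
        ContinuousLinearMap.prodMapL ℂ X X Z Z (Ψ₁ g, g ⟨μ, hμ⟩ • (1 : Z →L[ℂ] Z)) := by
      refine (ContinuousLinearMap.continuous _).comp (hΨ₁.prodMk ?_)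
      exact (continuous_eval_const (F := C(DD R', ℂ)) _).smul continuous_const
    exact h1
  · have h1 := hΨ.id
    show (Ψ ((⟨Subtype.val, continuous_subtype_val⟩ : C(DD R', ℂ)).comp f)).prodMap
      (μ • (1 : Z →L[ℂ] Z)) = _
    rw [← h1]
    rfl
  · have h1 : ∀ x : X, (op Ψ₂ (cf a t) (x, 0)).1 = op Ψ (cf a t) x := by
      intro x
      rw [hval _ (cf_cont a t)]
    have hF' : FiniteDimensional ℂ (LinearMap.range (op Ψ₂ (cf a t) : X × Z →ₗ[ℂ] X × Z)) := hF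
    have h2 : FiniteDimensional ℂ ((LinearMap.range (op Ψ₂ (cf a t) : X × Z →ₗ[ℂ] X × Z)).map
        (LinearMap.fst ℂ X Z)) := inferInstance
    refine Submodule.finiteDimensional_of_le (S₂ := (LinearMap.range
      (op Ψ₂ (cf a t) : X × Z →ₗ[ℂ] X × Z)).map (LinearMap.fst ℂ X Z)) ?_
    rintro _ ⟨x, rfl⟩
    exact ⟨_, ⟨(x, 0), rfl⟩, h1 x⟩

end Pool.Agent.Q98.SK
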