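import Pool.Agent.Q98.SK.Ext

/-!
# Chains at the points of the essential spectrum: the general case, row bounded families, part 2
-/

set_option autoImplicit false

namespace Pool.Agent.Q98.SK

open MeasureTheory Set Metric Filter Topology
open scoped ENNReal NNReal ComplexConjugate
open Pool.Agent.Y283.NK (ct)
open Pool.Agent.Y271.RO (ht Bd hHT)
open Pool.Agent.Q98.RB
open Pool.Agent.Q98.NR (IsK)
open Pool.Agent.Q88.NB
open Pool.Agent.Q130.TC (cau nm wCAU)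

variable {X : Type} [NormedAddCommGroup X] [NormedSpace ℂ X]
variable {N : X →L[ℂ] X} {R : ℝ} {Ψ : C(DD R, ℂ) →ₐ[ℂ] (X →L[ℂ] X)}

theorem Bd_nonpos {g : ℂ → ℂ} {c : ℂ} {r M : ℝ} (hr : ¬ 0 < r) (hg : Bd g c r M) :
    g = fun _ => 0 := by
  funext z
  refine hg.supp z ?_
  rw [ball_eq_empty.2 (not_lt.1 hr)]
  exact notMem_empty z

theorem ht_zero : ht (fun _ => (0:ℂ)) = fun _ => 0 := by
  funext l
  simp [ht]

theorem ht_cont' {g : ℂ → ℂ} {c : ℂ} {r M : ℝ} (hg : Bd g c r M) : Continuous (ht g) := by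
  by_cases hr : 0 < r
  · exact ht_cont hr hg
  · rw [Bd_nonpos hr hg, ht_zero]
    exact continuous_const

theorem int_k_ht {S : Type} [MeasurableSpace S] {μ : Measure S} {φ k : S → ℂ}
    (hφ : Measurable φ) (hk : Integrable k μ) {g : ℂ → ℂ} {c : ℂ} {r M : ℝ} (hr : 0 < r)
    (hg : Bd g c r M) : Integrable (fun s => k s * ht g (φ s)) μ := by
  obtain ⟨K, hK0, hK⟩ := hHT r hr
  obtain ⟨-, hm, -, hb, -⟩ := hK c M g hg
  refine (hk.norm.mul_const (K * M)).mono' (hk.1.mul (hm.comp hφ).aestronglyMeasurable)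
    (Eventually.of_forall fun s => ?_)
  rw [norm_mul]
  exact mul_le_mul_of_nonneg_left (hb _) (norm_nonneg _)

theorem int_sqrt {S : Type} [MeasurableSpace S] {μ : Measure S} {m : ℕ} {k : Fin m → S → ℂ}
    (hk : ∀ i, Integrable (k i) μ) : Integrable (fun s => √(∑ i, ‖k i s‖ ^ 2)) μ := by
  refine (integrable_finsetSum Finset.univ fun i _ => (hk i).norm).mono' ?_
    (Eventually.of_forall fun s => ?_)
  · exact Real.continuous_sqrt.comp_aestronglyMeasurable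
      (Finset.aestronglyMeasurable_fun_sum _ fun i _ => (hk i).1.norm.pow 2)
  · rw [Real.norm_of_nonneg (Real.sqrt_nonneg _), Real.sqrt_le_left
      (Finset.sum_nonneg fun _ _ => norm_nonneg _)]
    exact Finset.sum_sq_le_sq_sum_of_nonneg fun _ _ => norm_nonneg _

variable {Z : Type} [NormedAddCommGroup Z] [NormedSpace ℂ Z] {R' : ℝ}
  {Ψ' : C(DD R', ℂ) →ₐ[ℂ] (X × Z →L[ℂ] X × Z)}

/-- row bounds in a direct sum -/
theorem RB.prod {u : ℕ → X} {U₀ : ℝ} (hU : RB Ψ u U₀) {ν : ℂ} (hR : R ≤ R') (hν : ‖ν‖ ≤ R')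
    (hval : ∀ h : ℂ → ℂ, Continuous h → ∀ p, op Ψ' h p = (op Ψ h p.1, h ν • p.2))
    {w : ℕ → Z} (hw : ∀ j, ‖w j‖ ≤ (1 / 2) ^ j) : RB Ψ' (fun j => (u j, w j)) (U₀ + 2) := by
  have hU0 := hU.nn
  refine ⟨by linarith, fun m h M hM hc hb => ?_, fun f m => ?_⟩
  · have e : ∑ j ∈ Finset.range m, op Ψ' (h j) (u j, w j) =
        (∑ j ∈ Finset.range m, op Ψ (h j) (u j), ∑ j ∈ Finset.range m, h j ν • w j) := by
      rw [Finset.sum_congr rfl fun j hj => hval (h j) (hc j (Finset.mem_range.1 hj)) (u j, w j)]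
      exact Prod.ext (by simp [Prod.fst_sum]) (by simp [Prod.snd_sum])
    rw [e, Prod.norm_def]
    refine max_le ?_ ?_
    · refine (hU.row m h M hM hc fun z hz => hb z (hz.trans hR)).trans ?_
      exact mul_le_mul_of_nonneg_right (by linarith) hM
    · calc ‖∑ j ∈ Finset.range m, h j ν • w j‖ ≤ ∑ j ∈ Finset.range m, M * (1 / 2) ^ j := by
            refine (norm_sum_le _ _).trans (Finset.sum_le_sum fun j hj => ?_)
            rw [norm_smul]
            refine mul_le_mul ?_ (hw j) (norm_nonneg _) hM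
            exact (nm_coord (c := fun j => h j ν) (Finset.mem_range.1 hj)).trans (hb ν hν)
        _ = M * ∑ j ∈ Finset.range m, (1 / 2) ^ j := by rw [Finset.mul_sum]
        _ ≤ M * 2 := mul_le_mul_of_nonneg_left (sum_geometric_two_le m) hM
        _ ≤ _ := by nlinarith
  · set f₁ : X →L[ℂ] ℂ := f.comp (ContinuousLinearMap.inl ℂ X Z) with hf₁
    set f₂ : Z →L[ℂ] ℂ := f.comp (ContinuousLinearMap.inr ℂ X Z) with hf₂
    have hn1 : ‖f₁‖ ≤ ‖f‖ := by
      refine f₁.opNorm_le_bound (norm_nonneg _) fun x => ?_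
      refine (f.le_opNorm (x, 0)).trans (le_of_eq ?_)
      rw [Prod.norm_def, norm_zero, max_eq_left (norm_nonneg _)]
    have hn2 : ‖f₂‖ ≤ ‖f‖ := by
      refine f₂.opNorm_le_bound (norm_nonneg _) fun x => ?_
      refine (f.le_opNorm (0, x)).trans (le_of_eq ?_)
      rw [Prod.norm_def, norm_zero, max_eq_right (norm_nonneg _)]
    obtain ⟨S, _, μ, _, φ, k, hφ, hk, hkb, hK⟩ := hU.real f₁ m
    set φ' : S ⊕ Unit → ℂ := Sum.elim φ fun _ => ν with hφ'
    set k' : Fin m → S ⊕ Unit → ℂ := fun i => Sum.elim (k i) fun _ => f₂ (w i) with hk'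
    have hφm : Measurable φ' := hφ.sumElim measurable_const
    have hki : ∀ i, Integrable (k' i) (pm μ) := fun i => (pm_int (F := k' i) (hk i)).1
    refine ⟨S ⊕ Unit, inferInstance, pm μ, inferInstance, φ', k', hφm, hki, ?_, fun i => ?_⟩
    · rw [(pm_int (μ := μ) (F := fun s => √(∑ i, ‖k' i s‖ ^ 2)) (int_sqrt hk)).2]
      have h1 : √(∑ i : Fin m, ‖k' i (Sum.inr ())‖ ^ 2) ≤ 2 * ‖f‖ := by
        calc √(∑ i : Fin m, ‖k' i (Sum.inr ())‖ ^ 2) ≤ ∑ i : Fin m, ‖k' i (Sum.inr ())‖ := by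
              rw [Real.sqrt_le_left (Finset.sum_nonneg fun _ _ => norm_nonneg _)]
              exact Finset.sum_sq_le_sq_sum_of_nonneg fun _ _ => norm_nonneg _
          _ ≤ ∑ i : Fin m, ‖f‖ * (1 / 2) ^ (i : ℕ) := by
              refine Finset.sum_le_sum fun i _ => ?_
              show ‖f₂ (w i)‖ ≤ _
              exact (f₂.le_opNorm _).trans (mul_le_mul hn2 (hw i) (norm_nonneg _) (norm_nonneg _))
          _ = ‖f‖ * ∑ i : Fin m, (1 / 2) ^ (i : ℕ) := by rw [Finset.mul_sum]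
          _ = ‖f‖ * ∑ i ∈ Finset.range m, (1 / 2) ^ i := by
              rw [Finset.sum_range]
          _ ≤ ‖f‖ * 2 := mul_le_mul_of_nonneg_left (sum_geometric_two_le m) (norm_nonneg _)
          _ = _ := mul_comm _ _
      have h2 : ∫ s, √(∑ i, ‖k' i (Sum.inl s)‖ ^ 2) ∂μ ≤ U₀ * ‖f‖ :=
        hkb.trans (mul_le_mul_of_nonneg_left hn1 hU0)
      linarith
    · refine isK_cau hφm (hki i) fun c r M g hr hg => ?_
      have h1 := int_k_ht hφ (hk i) hr hg
      rw [(pm_int (μ := μ) (F := fun s => k' i s * ht g (φ' s)) h1).2,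
        hval (ht g) (ht_cont hr hg)]
      show f (op Ψ (ht g) (u i), ht g ν • w i) = (∫ s, k i s * ht g (φ s) ∂μ) + f₂ (w i) * ht g ν
      rw [← IsK.cau_eq (hK i) hφ (hk i) hr hg]
      have e : ((op Ψ (ht g) (u i), ht g ν • w i) : X × Z) =
          (op Ψ (ht g) (u i), 0) + ht g ν • ((0 : X), w i) := by
        rw [Prod.smul_mk, smul_zero, Prod.mk_add_mk, add_zero, zero_add]
      rw [e, map_add, map_smul, smul_eq_mul, mul_comm (ht g ν)]
      rfl

theorem VB.norm_le {v : ℕ → (X →L[ℂ] ℂ)} {V₀ : ℝ} (hV : VB v V₀) (j : ℕ) : ‖v j‖ ≤ V₀ :=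
  (v j).opNorm_le_bound hV.1 fun x =>
    (nm_coord (c := fun i => v i x) (Nat.lt_succ_self j)).trans (hV.2 (j + 1) x)

/-- the data in a direct sum -/
theorem Dt.prod [CompleteSpace Z] {K : X →L[ℂ] X} {u : ℕ → X} {v : ℕ → (X →L[ℂ] ℂ)}
    (hD : Dt Ψ K u v) {ν : ℂ} (hR : R ≤ R') (hν : ‖ν‖ ≤ R')
    (hval : ∀ h : ℂ → ℂ, Continuous h → ∀ p, op Ψ' h p = (op Ψ h p.1, h ν • p.2))
    {w : ℕ → Z} (hw : ∀ j, ‖w j‖ ≤ (1 / 2) ^ j) :
    ∃ T : X →L[ℂ] Z, Dt Ψ' ((K.prod T).comp (ContinuousLinearMap.fst ℂ X Z))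
      (fun j => (u j, w j)) (fun j => (v j).comp (ContinuousLinearMap.fst ℂ X Z)) := by
  obtain ⟨V₀, hV⟩ := hD.vb
  have hV0 := hV.1
  have hs : Summable fun j => (v j).smulRight (w j) := by
    refine Summable.of_norm_bounded (g := fun j => V₀ * (1 / 2) ^ j)
      (summable_geometric_two.mul_left V₀) fun j => ?_
    rw [ContinuousLinearMap.norm_smulRight_apply]
    exact mul_le_mul (hV.norm_le j) (hw j) (norm_nonneg _) hV0
  obtain ⟨T, hT⟩ := hs
  have hlim : Tendsto (fun m => ‖T - ∑ j ∈ Finset.range m, (v j).smulRight (w j)‖) atTop (𝓝 0) := by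
    have h1 := (tendsto_const_nhds (x := T)).sub hT.tendsto_sum_nat
    rw [sub_self] at h1
    simpa using h1.norm
  refine ⟨T, ?_, ?_, ⟨V₀, hV0, fun m p => ?_⟩, ?_⟩
  · obtain ⟨τ, hτ0, hτ, hb⟩ := hD.tl
    refine ⟨fun m => τ m + ‖T - ∑ j ∈ Finset.range m, (v j).smulRight (w j)‖,
      fun m => add_nonneg (hτ0 m) (norm_nonneg _), by simpa using hτ.add hlim, fun m p => ?_⟩
    have e : ((K.prod T).comp (ContinuousLinearMap.fst ℂ X Z)) p -
        fr (fun j => (u j, w j)) (fun j => (v j).comp (ContinuousLinearMap.fst ℂ X Z)) m p =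
        (K p.1 - fr u v m p.1, (T - ∑ j ∈ Finset.range m, (v j).smulRight (w j)) p.1) := by
      rw [fr_apply, fr_apply]
      refine Prod.ext ?_ ?_
      · show K p.1 - (∑ j ∈ Finset.range m, v j p.1 • ((u j, w j) : X × Z)).1 = _
        rw [Prod.fst_sum]
        rfl
      · show T p.1 - (∑ j ∈ Finset.range m, v j p.1 • ((u j, w j) : X × Z)).2 = _
        rw [Prod.snd_sum, sub_apply, sum_apply]
        rfl
    rw [e, Prod.norm_def]
    have h1 : ‖p.1‖ ≤ ‖p‖ := norm_fst_le p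
    have h2 := hb m p.1
    have h3 := (T - ∑ j ∈ Finset.range m, (v j).smulRight (w j)).le_opNorm p.1
    have h4 := norm_nonneg (T - ∑ j ∈ Finset.range m, (v j).smulRight (w j))
    have h5 := hτ0 m
    have h6 : τ m * ‖p.1‖ ≤ τ m * ‖p‖ := mul_le_mul_of_nonneg_left h1 h5
    have h7 := mul_le_mul_of_nonneg_left h1 h4
    have h8 : 0 ≤ τ m * ‖p‖ := by positivity
    have h9 := mul_nonneg h4 (norm_nonneg p)
    refine max_le ?_ ?_
    · show ‖K p.1 - fr u v m p.1‖ ≤ _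
      rw [add_mul]
      linarith
    · show ‖(T - ∑ j ∈ Finset.range m, (v j).smulRight (w j)) p.1‖ ≤ _
      rw [add_mul]
      linarith
  · obtain ⟨U₀, hU⟩ := hD.rb
    exact ⟨U₀ + 2, hU.prod hR hν hval hw⟩
  · exact (hV.2 m p.1).trans (mul_le_mul_of_nonneg_left (norm_fst_le p) hV0)
  · obtain ⟨S, hS, μ, hμ, φ, u', v', hφ, hu', hv', hF⟩ := hD.mat
    refine ⟨S, hS, μ, hμ, φ, u', v', hφ, hu', hv', fun i j => ⟨(hF i j).meas,
      fun c r M g hg => ⟨((hF i j).int c r M g hg).1, ?_⟩⟩⟩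
    rw [((hF i j).int c r M g hg).2]
    show _ = v i (op Ψ' (ht g) (u j, w j)).1
    rw [hval _ (ht_cont' hg)]

/-- **chains at the points of the essential spectrum** -/
theorem chain2 (H : TCH) [CompleteSpace X] (hX : Refl X) (hΨ : Cal N R Ψ)
    {K : X →L[ℂ] X} {u : ℕ → X} {v : ℕ → (X →L[ℂ] ℂ)} (hD : Dt Ψ K u v)
    (a : ℂ) {r : ℝ} (hr : 0 < r) (hE : Ess Ψ a) : HasCh (N + K) a r := by
  set Z := lp (fun _ : ℕ => ℂ) 2 with hZ
  set μ : ℂ := a + ((r + 1 : ℝ) : ℂ) with hμ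
  have hμa : r < ‖μ - a‖ := by
    rw [hμ, add_sub_cancel_left, Complex.norm_real, Real.norm_of_nonneg (by positivity)]
    linarith
  obtain ⟨R', Ψ', hΨ', hE', hR, hν, hval⟩ := prodM2 (Z := Z) hΨ μ
  have hXZ : Refl (X × Z) := Refl.prod hX Refl.hilbert
  -- the data
  let e : ℕ → Z := fun j => lp.single 2 j (1:ℂ)
  have he : ∀ j, ‖e j‖ = 1 := by
    intro j
    have := lp.norm_single (E := fun _ : ℕ => ℂ) (p := 2) (by norm_num) j (1:ℂ)
    rw [this, norm_one]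
  have hw : ∀ j, ‖((1/2:ℂ) ^ j) • e j‖ ≤ (1/2:ℝ) ^ j := by
    intro j
    rw [norm_smul, he, mul_one, norm_pow]
    norm_num
  let u' : ℕ → X × Z := fun j => (u j, ((1/2:ℂ) ^ j) • e j)
  obtain ⟨T, hT⟩ := hD.prod hR hν hval hw
  set K' : X × Z →L[ℂ] X × Z := (K.prod T).comp (ContinuousLinearMap.fst ℂ X Z) with hK'
  have hK1 : ∀ p, (K' p).1 = K p.1 := fun p => rfl
  have hK0 : ∀ p : X × Z, p.1 = 0 → K' p = 0 := by
    intro p hp
    show (K p.1, T p.1) = 0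
    rw [hp, map_zero, map_zero]
    rfl
  let f : ℕ → (X × Z →L[ℂ] ℂ) := fun i =>
    ((2:ℂ) ^ i) • (lp.evalCLM (𝕜 := ℂ) (fun _ : ℕ => ℂ) 2 i).comp (ContinuousLinearMap.snd ℂ X Z)
  have hf : ∀ i j, f i (u' j) = if i = j then 1 else 0 := by
    intro i j
    show (2:ℂ) ^ i * ((((1/2:ℂ) ^ j) • e j : Z) i) = _
    have h1 : ((((1/2:ℂ) ^ j) • e j : Z) i) = (1/2:ℂ) ^ j * (e j i) := rfl
    rw [h1]
    by_cases hij : i = j
    · subst hij
      rw [if_pos rfl]
      have h2 : e i i = 1 := lp.single_apply_self (E := fun _ : ℕ => ℂ) 2 i (1:ℂ)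
      rw [h2, mul_one, ← mul_pow]
      norm_num
    · rw [if_neg hij]
      have h2 : e j i = 0 := lp.single_apply_ne (E := fun _ : ℕ => ℂ) 2 j (1:ℂ) hij
      rw [h2, mul_zero, mul_zero]
  obtain ⟨Y, ⟨h1, C, h2⟩, h3⟩ := chain_bio2 H hXZ hΨ' hT hf a hr (hE' a hE)
  have hstep : ∀ k, (N + K) (Y k).1 - a • (Y k).1 = (Y (k + 1)).1 := by
    intro k
    rw [← h1 k, add_apply, add_apply]
    show _ = (N (Y k).1 + (K' (Y k)).1) - a • (Y k).1
    rw [hK1]
  refine ⟨fun k => (Y k).1, ⟨hstep, C, fun k => (norm_fst_le _).trans (h2 k)⟩, fun h0 => h3 ?_⟩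
  -- the first components vanish
  have hz : ∀ k, (Y k).1 = 0 := by
    intro k
    induction k with
    | zero => exact h0
    | succ k ih => rw [← hstep, ih, map_zero, smul_zero, sub_zero]
  have hs : ∀ k, (Y k).2 = (μ - a) ^ k • (Y 0).2 := by
    intro k
    induction k with
    | zero => simp
    | succ k ih =>
      rw [← h1 k, add_apply]
      show (μ • (Y k).2 + (K' (Y k)).2) - a • (Y k).2 = _
      rw [hK0 _ (hz k)]
      show (μ • (Y k).2 + 0) - a • (Y k).2 = _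
      rw [add_zero, ← sub_smul, ih, smul_smul, pow_succ, mul_comm]
  have hY2 : (Y 0).2 = 0 := by
    by_contra hne
    have hpos : 0 < ‖(Y 0).2‖ := norm_pos_iff.2 hne
    have hbd : ∀ k : ℕ, (‖μ - a‖ / r) ^ k ≤ C / ‖(Y 0).2‖ := by
      intro k
      have h4 : ‖(Y k).2‖ ≤ C * r ^ k := (norm_snd_le _).trans (h2 k)
      rw [hs, norm_smul, norm_pow] at h4
      rw [div_pow, div_le_div_iff₀ (by positivity) hpos]
      linarith
    obtain ⟨k, hk⟩ := pow_unbounded_of_one_lt (C / ‖(Y 0).2‖) ((one_lt_div hr).2 hμa)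
    exact absurd (hbd k) (not_le.2 hk)
  exact Prod.ext (hz 0) hY2

end Pool.Agent.Q98.SK
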