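import Pool.Agent.Q98.SK.Ext2
import Pool.Agent.Q98.NR.Sls

/-!
# Row bounded families: adjoints, the theorem
-/

set_option autoImplicit false

namespace Pool.Agent.Q98.SK

open MeasureTheory Set Metric Filter Topology
open scoped ENNReal NNReal ComplexConjugate
open Pool.Agent.Y283.NK (ct)
open Pool.Agent.Y271.RO (ht Bd)
open Pool.Agent.Q98.RB
open Pool.Agent.Q98.NR (IsK uu SLS noness sls_chain sls_eig)
open Pool.Agent.Q88.NB
open Pool.Agent.Q130.TC (cau nm)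

variable {X : Type} [NormedAddCommGroup X] [NormedSpace ℂ X]
variable {N : X →L[ℂ] X} {R : ℝ} {Ψ : C(DD R, ℂ) →ₐ[ℂ] (X →L[ℂ] X)}
variable {K : X →L[ℂ] X} {u : ℕ → X} {v : ℕ → (X →L[ℂ] ℂ)}

theorem RB.vb {U₀ : ℝ} (hU : RB Ψ u U₀) : VB (uu u) U₀ := by
  refine ⟨hU.nn, fun m f => ?_⟩
  set c : ℕ → ℂ := fun i => uu u i f with hc
  rcases (nm_nonneg m c).eq_or_lt with h0 | h0
  · rw [← h0]
    exact mul_nonneg hU.nn (norm_nonneg _)
  have h1 := hU.cst m (fun i => conj (c i))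
  rw [nm_conj] at h1
  have h2 : f (∑ j ∈ Finset.range m, conj (c j) • u j) = ((nm m c * nm m c : ℝ) : ℂ) := by
    rw [nm_sq, map_sum]
    push_cast
    refine Finset.sum_congr rfl fun i _ => ?_
    rw [map_smul, smul_eq_mul]
    have h3 : f (u i) = c i := rfl
    rw [h3, mul_comm, Complex.mul_conj, Complex.normSq_eq_norm_sq]
    push_cast
    rfl
  have h3 : nm m c * nm m c ≤ nm m c * (U₀ * ‖f‖) := by
    calc nm m c * nm m c = ‖f (∑ j ∈ Finset.range m, conj (c j) • u j)‖ := by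
          rw [h2, Complex.norm_real, Real.norm_of_nonneg (mul_self_nonneg _)]
      _ ≤ ‖f‖ * (U₀ * nm m c) :=
          (f.le_opNorm _).trans (mul_le_mul_of_nonneg_left h1 (norm_nonneg _))
      _ = _ := by ring
  exact le_of_mul_le_mul_left h3 h0

theorem TL.tr (h : TL K u v) : TL (RB.tr K) v (uu u) := by
  obtain ⟨τ, hτ0, hτ, hb⟩ := h
  refine ⟨τ, hτ0, hτ, fun m w => ?_⟩
  refine ContinuousLinearMap.opNorm_le_bound _ (mul_nonneg (hτ0 m) (norm_nonneg _)) fun x => ?_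
  have e : (RB.tr K w - fr v (uu u) m w) x = w (K x - fr u v m x) := by
    rw [fr_apply, fr_apply, map_sub, map_sum, sub_apply]
    congr 1
    show (∑ j ∈ Finset.range m, uu u j w • v j) x = _
    rw [sum_apply]
    refine Finset.sum_congr rfl fun i _ => ?_
    rw [map_smul, smul_eq_mul, mul_comm]
    rfl
  rw [e]
  refine (w.le_opNorm _).trans ?_
  calc ‖w‖ * ‖K x - fr u v m x‖ ≤ ‖w‖ * (τ m * ‖x‖) :=
        mul_le_mul_of_nonneg_left (hb m x) (norm_nonneg _)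
    _ = _ := by ring

section star

variable {S : Type} [MeasurableSpace S] {μ : Measure S}

theorem memLp_conj (f : Lp ℂ 2 μ) : MemLp (fun s => conj (f s)) 2 μ :=
  (Lp.memLp f).of_le (Complex.continuous_conj.comp_aestronglyMeasurable (Lp.memLp f).1)
    (Eventually.of_forall fun s => by simp)

/-- the conjugate function -/
noncomputable def cj (f : Lp ℂ 2 μ) : Lp ℂ 2 μ := (memLp_conj f).toLp _

theorem cj_ae (f : Lp ℂ 2 μ) : cj f =ᵐ[μ] fun s => conj (f s) := (memLp_conj f).coeFn_toLp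

theorem cj_norm (f : Lp ℂ 2 μ) : ‖cj f‖ = ‖f‖ := by
  rw [Lp.norm_def, Lp.norm_def]
  congr 1
  rw [eLpNorm_congr_ae (cj_ae f)]
  exact eLpNorm_congr_norm_ae (Eventually.of_forall fun s => by simp)

theorem ct_cj (φ : S → ℂ) (f g : Lp ℂ 2 μ) : ct φ (cj f) (cj g) = ct φ g f := by
  funext z
  unfold ct
  refine integral_congr_ae ?_
  filter_upwards [cj_ae f, cj_ae g] with s h1 h2
  rw [h1, h2, Complex.conj_conj]
  ring

end star

/-- the dual data -/
theorem Dt.dual (hD : Dt Ψ K u v) {V₀ : ℝ} (hV : RB (trΨ Ψ) v V₀) :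
    Dt (trΨ Ψ) (RB.tr K) v (uu u) := by
  obtain ⟨U₀, hU⟩ := hD.rb
  obtain ⟨S, hS, μ, hμ, φ, u', v', hφ, hu', hv', hF⟩ := hD.mat
  refine ⟨hD.tl.tr, ⟨V₀, hV⟩, ⟨U₀, hU.vb⟩, S, hS, μ, hμ, φ, fun j => cj (v' j),
    fun i => cj (u' i), hφ, ?_, ?_, fun i j => ?_⟩
  · simpa only [cj_norm] using hv'
  · simpa only [cj_norm] using hu'
  · rw [ct_cj]
    refine ⟨(hF j i).meas, fun c r M g hg => ⟨((hF j i).int c r M g hg).1, ?_⟩⟩
    rw [((hF j i).int c r M g hg).2]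
    rfl

/-- **the theorem** -/
theorem main2 (H : TCH) [CompleteSpace X] (hX : Refl X) (hΨ : Cal N R Ψ) (hD : Dt Ψ K u v)
    {V₀ : ℝ} (hV : RB (trΨ Ψ) v V₀) :
    ((∃ c : ℂ, N + K = c • 1) ∨ HasHyp (N + K)) ∧ SLS (N + K) ∧ SLS (RB.tr (N + K)) := by
  have htr : RB.tr (N + K) = RB.tr N + RB.tr K := map_add _ _ _
  have hD' := hD.dual hV
  have hKc : IsCompactOperator (⇑K) := hD.tl.compact
  have hKc' : IsCompactOperator (⇑(RB.tr K)) := hD'.tl.compact
  refine ⟨?_, ?_, ?_⟩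
  · by_cases h : ∃ a b : ℂ, a ≠ b ∧ Ess Ψ a ∧ Ess Ψ b
    · right
      obtain ⟨a, b, hab, ha, hb⟩ := h
      have hdist : 0 < ‖a - b‖ := norm_pos_iff.2 (sub_ne_zero.2 hab)
      obtain ⟨x, ⟨X1, C₁, X2⟩, X3⟩ := chain2 H hX hΨ hD a (r := ‖a - b‖ / 3) (by positivity) ha
      obtain ⟨Y, ⟨Y1, C₂, Y2⟩, Y3⟩ := chain2 H hX.dual hΨ.tr hD' b (r := ‖a - b‖ / 3)
        (by positivity) hb.tr
      rw [← htr] at Y1
      exact ann (N + K) a b _ _ C₁ C₂ x Y (by positivity) (by positivity) (by linarith)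
        X1 X2 Y1 Y2 X3 Y3
    · have h3 : ∃ a₀ : ℂ, ∀ a, a ≠ a₀ → ¬ Ess Ψ a := by
        by_cases h2 : ∃ a, Ess Ψ a
        · obtain ⟨a, ha⟩ := h2
          exact ⟨a, fun b hb hE => h ⟨a, b, hb.symm, ha, hE⟩⟩
        · exact ⟨0, fun a _ hE => h2 ⟨a, hE⟩⟩
      obtain ⟨a, ha⟩ := h3
      have hc := compact_of_one hΨ a ha
      by_cases hsc : ∃ c : ℂ, N + K = c • 1
      · exact Or.inl hsc
      right
      have h1 : IsCompactOperator (⇑((N + K) - a • (1 : X →L[ℂ] X))) := by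
        have h4 : (N + K) - a • (1 : X →L[ℂ] X) =
            (N - a • (1 : X →L[ℂ] X)) + K := by abel
        rw [h4]
        exact hc.add hKc
      refine hyp_shift a (Pool.Agent.W577.HI.G1.main _ _ h1 ?_)
      rintro ⟨c, hc⟩
      apply hsc
      refine ⟨c + a, ?_⟩
      rw [add_smul, ← hc]
      abel
  · intro c hc ε hε
    by_cases hE : Ess Ψ c
    · exact sls_chain (chain2 H hX hΨ hD c hε hE)
    · obtain ⟨x, hx, h⟩ := noness hΨ hE hKc hc
      exact sls_eig hx h hε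
  · rw [htr]
    intro c hc ε hε
    by_cases hE : Ess (trΨ Ψ) c
    · exact sls_chain (chain2 H hX.dual hΨ.tr hD' c hε hE)
    · obtain ⟨x, hx, h⟩ := noness hΨ.tr hE hKc' hc
      exact sls_eig hx h hε

end Pool.Agent.Q98.SK
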