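import Pool.Agent.Q98.SK.Stm
import Pool.Agent.Q98.SK.Base
import Pool.Agent.Q98.RB.Exa

/-!
# Square functions in `L^p`
-/

set_option autoImplicit false

namespace Pool.Agent.Q98.SK

open MeasureTheory Set Metric Filter Topology
open scoped ENNReal NNReal ComplexConjugate
open Pool.Agent.Q98.RB
open Pool.Agent.Q88.NB
open Pool.Agent.Q130.TC (nm)

variable {S : Type} [MeasurableSpace S] {μ : Measure S} {p q : ℝ≥0∞}

/-- Hölder's inequality -/
theorem holder_int [p.HolderConjugate q] {F G : S → ℝ} (hF : MemLp F p μ) (hG : MemLp G q μ)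
    (hF0 : ∀ s, 0 ≤ F s) (hG0 : ∀ s, 0 ≤ G s) :
    Integrable (fun s => F s * G s) μ ∧
      ∫ s, F s * G s ∂μ ≤ (eLpNorm F p μ).toReal * (eLpNorm G q μ).toReal := by
  have hi : Integrable (fun s => F s * G s) μ := by
    have h1 : MemLp (F • G) 1 μ := MemLp.smul (p := p) (q := q) (r := 1) hG hF
    exact memLp_one_iff_integrable.1 h1
  refine ⟨hi, ?_⟩
  have h2 := eLpNorm_smul_le_mul_eLpNorm (μ := μ) (p := p) (q := q) (r := 1) hG.1 hF.1
  rw [eLpNorm_one_eq_lintegral_enorm] at h2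
  have h3 : ∫ s, F s * G s ∂μ = (∫⁻ s, ‖(F • G) s‖ₑ ∂μ).toReal := by
    have h4 := integral_norm_eq_lintegral_enorm (μ := μ) (f := F • G) hi.1
    rw [← h4]
    refine integral_congr_ae (Eventually.of_forall fun s => ?_)
    show F s * G s = ‖F s * G s‖
    rw [Real.norm_of_nonneg (mul_nonneg (hF0 s) (hG0 s))]
  rw [h3, ← ENNReal.toReal_mul]
  exact ENNReal.toReal_mono (ENNReal.mul_ne_top hF.2.ne hG.2.ne) h2

/-- the square function, with values in `[0, ∞]` -/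
noncomputable def sqe (u : ℕ → Lp ℂ p μ) (s : S) : ℝ≥0∞ := ∑' j, ‖u j s‖ₑ ^ 2

/-- the square function -/
noncomputable def sqf (u : ℕ → Lp ℂ p μ) (s : S) : ℝ := √(sqe u s).toReal

theorem lp_meas (f : Lp ℂ p μ) : Measurable f := (Lp.stronglyMeasurable f).measurable

theorem sqe_meas (u : ℕ → Lp ℂ p μ) : Measurable (sqe u) :=
  Measurable.tsum fun j => (lp_meas (u j)).enorm.pow_const 2

theorem sqf_meas (u : ℕ → Lp ℂ p μ) : Measurable (sqf u) := (sqe_meas u).ennreal_toReal.sqrt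

theorem sqf_nonneg (u : ℕ → Lp ℂ p μ) (s : S) : 0 ≤ sqf u s := Real.sqrt_nonneg _

theorem sqe_fin {u : ℕ → Lp ℂ p μ} (hp : 0 < p.toReal) (h : SQ μ p u) :
    ∀ᵐ s ∂μ, sqe u s ≠ ∞ := by
  have h1 := ae_lt_top ((sqe_meas u).pow_const (p.toReal / 2)) h
  filter_upwards [h1] with s hs
  intro h2
  rw [h2, ENNReal.top_rpow_of_pos (by positivity)] at hs
  exact lt_irrefl _ hs

theorem sqf_enorm {u : ℕ → Lp ℂ p μ} {s : S} (h : sqe u s ≠ ∞) :
    ‖sqf u s‖ₑ = (sqe u s) ^ ((1:ℝ) / 2) := by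
  unfold sqf
  rw [Real.sqrt_eq_rpow, Real.enorm_of_nonneg (Real.rpow_nonneg ENNReal.toReal_nonneg _),
    ← ENNReal.ofReal_rpow_of_nonneg ENNReal.toReal_nonneg (by norm_num), ENNReal.ofReal_toReal h]

theorem sqf_memLp {u : ℕ → Lp ℂ p μ} (hp : 0 < p.toReal) (h : SQ μ p u) : MemLp (sqf u) p μ := by
  have hp0 : p ≠ 0 := fun h0 => by simp [h0] at hp
  have hpt : p ≠ ∞ := fun h0 => by simp [h0] at hp
  refine ⟨(sqf_meas u).aestronglyMeasurable, ?_⟩
  rw [eLpNorm_lt_top_iff_lintegral_rpow_enorm_lt_top hp0 hpt]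
  have e : ∫⁻ s, ‖sqf u s‖ₑ ^ p.toReal ∂μ = ∫⁻ s, (sqe u s) ^ (p.toReal / 2) ∂μ := by
    refine lintegral_congr_ae ?_
    filter_upwards [sqe_fin hp h] with s hs
    rw [sqf_enorm hs, ← ENNReal.rpow_mul]
    congr 1
    ring
  rw [e]
  exact lt_top_iff_ne_top.2 h

theorem nm_le_sqf {u : ℕ → Lp ℂ p μ} {s : S} (h : sqe u s ≠ ∞) (m : ℕ) :
    nm m (fun j => u j s) ≤ sqf u s := by
  unfold nm sqf
  refine Real.sqrt_le_sqrt ?_
  rw [← ENNReal.ofReal_le_iff_le_toReal h, ENNReal.ofReal_sum_of_nonneg fun _ _ => by positivity]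
  unfold sqe
  refine le_trans (le_of_eq ?_) (ENNReal.sum_le_tsum (Finset.range m))
  refine Finset.sum_congr rfl fun j _ => ?_
  show ENNReal.ofReal (‖u j s‖ ^ 2) = _
  rw [ENNReal.ofReal_pow (norm_nonneg _), ofReal_norm]

theorem nm_sqf {u : ℕ → Lp ℂ p μ} (hp : 0 < p.toReal) (h : SQ μ p u) :
    ∀ᵐ s ∂μ, ∀ m, nm m (fun j => u j s) ≤ sqf u s := by
  filter_upwards [sqe_fin hp h] with s hs m
  exact nm_le_sqf hs m

end Pool.Agent.Q98.SK
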