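import Pool.Agent.Q98.SK.Lp1
import Pool.Agent.Q98.SK.Fin

/-!
# Multiplication operators on `L^p`: the data
-/

set_option autoImplicit false

namespace Pool.Agent.Q98.SK

open MeasureTheory Set Metric Filter Topology
open scoped ENNReal NNReal ComplexConjugate
open Pool.Agent.Y283.NK (ct)
open Pool.Agent.Y271.RO (ht Bd)
open Pool.Agent.Q98.RB
open Pool.Agent.Q98.NR (IsK uu)
open Pool.Agent.Q88.NB
open Pool.Agent.Q130.TC (cau nm)

variable {S : Type} [MeasurableSpace S] {μ : Measure S} {p q : ℝ≥0∞} [Fact (1 ≤ p)] [Fact (1 ≤ q)]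

/-- the calculus of a multiplication operator -/
theorem mulCal {φ : S → ℂ} (hφ : Measurable φ) {R : ℝ} (hR0 : 0 < R) (hR : ∀ s, ‖φ s‖ ≤ R)
    {N : Lp ℂ p μ →L[ℂ] Lp ℂ p μ} (hN : ∀ f, N f =ᵐ[μ] fun s => φ s * f s) :
    ∃ Ψ : C(DD R, ℂ) →ₐ[ℂ] (Lp ℂ p μ →L[ℂ] Lp ℂ p μ), Cal N R Ψ ∧
      ∀ h : ℂ → ℂ, Continuous h → ∀ x, op Ψ h x =ᵐ[μ] fun s => h (φ s) * x s := by
  have hz' : ∀ s, φ s ∈ closedBall (0:ℂ) R := fun s => by
    rw [mem_closedBall_zero_iff]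
    exact hR s
  have key : ∀ f : C(DD R, ℂ), ∃ A : Lp ℂ p μ →L[ℂ] Lp ℂ p μ, ‖A‖ ≤ ‖f‖ ∧
      ∀ h, A h =ᵐ[μ] fun s => f ⟨φ s, hz' s⟩ • h s := fun f =>
    Exa.exists_mul (fun s => f ⟨φ s, hz' s⟩) (f.continuous.measurable.comp (hφ.subtype_mk)) ‖f‖
      (norm_nonneg f) (fun s => f.norm_coe_le_norm _)
  choose A hA1 hA2 using key
  have hmul : ∀ f g, A (f * g) = A f * A g := by
    intro f g
    ext1 x
    refine Lp.ext ?_
    have e : (A f * A g) x = A f (A g x) := rfl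
    rw [e]
    filter_upwards [hA2 (f * g) x, hA2 f (A g x), hA2 g x] with s h1 h2 h3
    rw [h1, h2, h3, smul_smul]
    rfl
  have hadd : ∀ f g, A (f + g) = A f + A g := by
    intro f g
    ext1 x
    refine Lp.ext ?_
    have e : (A f + A g) x = A f x + A g x := rfl
    rw [e]
    filter_upwards [hA2 (f + g) x, hA2 f x, hA2 g x, Lp.coeFn_add (A f x) (A g x)]
      with s h1 h2 h3 h4
    rw [h1, h4, Pi.add_apply, h2, h3, ← add_smul]
    rfl
  have hsc : ∀ c : ℂ, A (algebraMap ℂ _ c) = algebraMap ℂ _ c := by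
    intro c
    ext1 x
    refine Lp.ext ?_
    have e : (algebraMap ℂ (Lp ℂ p μ →L[ℂ] Lp ℂ p μ) c) x = c • x := rfl
    rw [e]
    filter_upwards [hA2 (algebraMap ℂ _ c) x, Lp.coeFn_smul c x] with s h1 h2
    rw [h1, h2]
    rfl
  have hone : A 1 = 1 := by
    have h1 := hsc 1
    rw [map_one, map_one] at h1
    exact h1
  have hzero : A 0 = 0 := by
    have h1 := hsc 0
    rw [map_zero, map_zero] at h1
    exact h1
  let Ψ : C(DD R, ℂ) →ₐ[ℂ] (Lp ℂ p μ →L[ℂ] Lp ℂ p μ) :=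
    { toFun := A
      map_one' := hone
      map_mul' := hmul
      map_zero' := hzero
      map_add' := hadd
      commutes' := hsc }
  refine ⟨Ψ, ⟨hR0, ?_, ?_⟩, fun h hc x => ?_⟩
  · exact AddMonoidHomClass.continuous_of_bound Ψ 1 (fun f => by rw [one_mul]; exact hA1 f)
  · ext1 x
    refine Lp.ext ?_
    filter_upwards [hN x, hA2 ⟨Subtype.val, continuous_subtype_val⟩ x] with s h1 h2
    rw [h1]
    exact h2
  · filter_upwards [hA2 (rs R h) x] with s h1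
    have h2 : (op Ψ h x : S → ℂ) s = rs R h ⟨φ s, hz' s⟩ • x s := h1
    rw [h2, rs_apply hc]
    rfl

/-! ### The pairing -/

variable [p.HolderConjugate q]

omit [Fact (1 ≤ p)] [Fact (1 ≤ q)] in
theorem int_mul (g : Lp ℂ q μ) (x : Lp ℂ p μ) : Integrable (fun s => g s * x s) μ := by
  have h1 : MemLp ((x : S → ℂ) • (g : S → ℂ)) 1 μ :=
    MemLp.smul (p := p) (q := q) (r := 1) (Lp.memLp g) (Lp.memLp x)
  refine (memLp_one_iff_integrable.1 h1).congr (Eventually.of_forall fun s => ?_)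
  show x s * g s = g s * x s
  exact mul_comm _ _

/-- the functional of a function in `L^q` -/
noncomputable def pr (g : Lp ℂ q μ) : Lp ℂ p μ →L[ℂ] ℂ :=
  ((ContinuousLinearMap.mul ℂ ℂ).lpPairing μ p q).flip g

theorem pr_apply (g : Lp ℂ q μ) (x : Lp ℂ p μ) : pr g x = ∫ s, g s * x s ∂μ := by
  show (ContinuousLinearMap.mul ℂ ℂ).lpPairing μ p q x g = _
  rw [ContinuousLinearMap.lpPairing_eq_integral]
  refine integral_congr_ae (Eventually.of_forall fun s => ?_)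
  show x s * g s = g s * x s
  exact mul_comm _ _

theorem norm_memLp {r : ℝ≥0∞} (x : Lp ℂ r μ) : MemLp (fun s => ‖x s‖) r μ := (Lp.memLp x).norm

theorem norm_eLp {r : ℝ≥0∞} (x : Lp ℂ r μ) : (eLpNorm (fun s => ‖x s‖) r μ).toReal = ‖x‖ := by
  rw [eLpNorm_norm, Lp.norm_def]

end Pool.Agent.Q98.SK
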