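import Pool.Agent.Q98.SK.Lp2

/-!
# Multiplication operators on `L^p`: the row bounds
-/

set_option autoImplicit false

namespace Pool.Agent.Q98.SK

open MeasureTheory Set Metric Filter Topology
open scoped ENNReal NNReal ComplexConjugate
open Pool.Agent.Y283.NK (ct)
open Pool.Agent.Y271.RO (ht Bd)
open Pool.Agent.Q98.RB
open Pool.Agent.Q98.NR (IsK uu)
open Pool.Agent.Q88.NB
open Pool.Agent.Q130.TC (cau nm)

variable {S : Type} [MeasurableSpace S] {μ : Measure S} {p q : ℝ≥0∞} [Fact (1 ≤ p)] [Fact (1 ≤ q)]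
variable {R : ℝ} {Ψ : C(DD R, ℂ) →ₐ[ℂ] (Lp ℂ p μ →L[ℂ] Lp ℂ p μ)} {φ : S → ℂ}

/-- the calculus acts by multiplication -/
def Mul (Ψ : C(DD R, ℂ) →ₐ[ℂ] (Lp ℂ p μ →L[ℂ] Lp ℂ p μ)) (φ : S → ℂ) : Prop :=
  ∀ h : ℂ → ℂ, Continuous h → ∀ x, op Ψ h x =ᵐ[μ] fun s => h (φ s) * x s

theorem Mul.sum (hv : Mul Ψ φ) {m : ℕ} {h : ℕ → ℂ → ℂ} (hc : ∀ j < m, Continuous (h j))
    (u : ℕ → Lp ℂ p μ) : (∑ j ∈ Finset.range m, op Ψ (h j) (u j) : Lp ℂ p μ) =ᵐ[μ]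
      fun s => ∑ j ∈ Finset.range m, h j (φ s) * u j s := by
  have h1 := Lp.coeFn_finsetSum (Finset.range m) fun j => op Ψ (h j) (u j)
  have h2 : ∀ᵐ s ∂μ, ∀ j ∈ Finset.range m, op Ψ (h j) (u j) s = h j (φ s) * u j s :=
    (Finset.eventually_all _).2 fun j hj => hv (h j) (hc j (Finset.mem_range.1 hj)) (u j)
  filter_upwards [h1, h2] with s h3 h4
  rw [h3, Finset.sum_apply]
  exact Finset.sum_congr rfl h4

/-- row bounds in `L^p` -/
theorem rb_row (hv : Mul Ψ φ) (hR : ∀ s, ‖φ s‖ ≤ R) {u : ℕ → Lp ℂ p μ} (hp : 0 < p.toReal)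
    (hu : SQ μ p u) (m : ℕ) (h : ℕ → ℂ → ℂ) (M : ℝ) (hM : 0 ≤ M)
    (hc : ∀ j < m, Continuous (h j)) (hb : ∀ z, ‖z‖ ≤ R → nm m (fun j => h j z) ≤ M) :
    ‖∑ j ∈ Finset.range m, op Ψ (h j) (u j)‖ ≤ (eLpNorm (sqf u) p μ).toReal * M := by
  have h1 := sqf_memLp hp hu
  rw [mul_comm, ← Lp.norm_toLp (sqf u) h1]
  refine Lp.norm_le_mul_norm_of_ae_le_mul ?_
  filter_upwards [hv.sum hc u, h1.coeFn_toLp, nm_sqf hp hu] with s h2 h3 h4
  rw [h2, h3, Real.norm_of_nonneg (sqf_nonneg u s)]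
  exact (cs_nm m _ _).trans (mul_le_mul (hb _ (hR s)) (h4 m) (nm_nonneg _ _) hM)

variable [p.HolderConjugate q]

omit [Fact (1 ≤ p)] [Fact (1 ≤ q)] in
theorem sum_int {f : Lp ℂ q μ} {u : ℕ → Lp ℂ p μ} (hp : 0 < p.toReal) (hu : SQ μ p u) (m : ℕ) :
    ∫ s, √(∑ i : Fin m, ‖f s * u i s‖ ^ 2) ∂μ ≤ (eLpNorm (sqf u) p μ).toReal * ‖f‖ := by
  have h1 := holder_int (μ := μ) (p := p) (q := q) (sqf_memLp hp hu) (norm_memLp f)
    (sqf_nonneg u) (fun s => norm_nonneg _)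
  rw [norm_eLp] at h1
  refine le_trans (integral_mono_of_nonneg (Eventually.of_forall fun s => Real.sqrt_nonneg _)
    h1.1 ?_) h1.2
  filter_upwards [nm_sqf hp hu] with s h4
  have e : √(∑ i : Fin m, ‖f s * u i s‖ ^ 2) = ‖f s‖ * nm m (fun j => u j s) := by
    rw [← nm_smul]
    unfold nm
    rw [Finset.sum_range]
  rw [e, mul_comm]
  exact mul_le_mul_of_nonneg_right (h4 m) (norm_nonneg _)

/-- row bounded families in `L^p` -/
theorem rb_lp [SigmaFinite μ]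
    (hLPD : ∀ f : Lp ℂ p μ →L[ℂ] ℂ, ∃ g : Lp ℂ q μ, ‖g‖ ≤ ‖f‖ ∧
      ∀ x : Lp ℂ p μ, Integrable (fun s => g s * x s) μ ∧ f x = ∫ s, g s * x s ∂μ)
    (hv : Mul Ψ φ) (hφ : Measurable φ) (hR : ∀ s, ‖φ s‖ ≤ R) {u : ℕ → Lp ℂ p μ}
    (hp : 0 < p.toReal) (hu : SQ μ p u) : RB Ψ u (eLpNorm (sqf u) p μ).toReal := by
  refine ⟨ENNReal.toReal_nonneg, fun m h M hM hc hb => rb_row hv hR hp hu m h M hM hc hb,
    fun f m => ?_⟩
  obtain ⟨g, hg, hfg⟩ := hLPD f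
  refine ⟨S, inferInstance, μ, inferInstance, φ, fun i s => g s * u i s, hφ,
    fun i => (hfg (u i)).1, ?_, fun i => ?_⟩
  · refine (sum_int (f := g) hp hu m).trans ?_
    exact mul_le_mul_of_nonneg_left hg ENNReal.toReal_nonneg
  · refine isK_cau hφ (hfg (u i)).1 fun c r M g₀ hr hg₀ => ?_
    rw [(hfg _).2]
    refine integral_congr_ae ?_
    filter_upwards [hv _ (ht_cont hr hg₀) (u i)] with s h1
    rw [h1]
    ring

/-- bounded families of functionals on `L^p` -/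
theorem vb_lp {v : ℕ → Lp ℂ q μ} (hq : 0 < q.toReal) (hv : SQ μ q v) (m : ℕ) (x : Lp ℂ p μ) :
    nm m (fun i => pr (v i) x) ≤ (eLpNorm (sqf v) q μ).toReal * ‖x‖ := by
  have h1 := holder_int (μ := μ) (p := p) (q := q) (norm_memLp x) (sqf_memLp hq hv)
    (fun s => norm_nonneg _) (sqf_nonneg v)
  rw [norm_eLp] at h1
  have h0 : ∀ᵐ s ∂μ, nm m (fun i => v i s * x s) ≤ ‖x s‖ * sqf v s := by
    filter_upwards [nm_sqf hq hv] with s h4
    have e : nm m (fun i => v i s * x s) = ‖x s‖ * nm m (fun i => v i s) := by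
      rw [← nm_smul]
      congr 1
      funext i
      ring
    rw [e]
    exact mul_le_mul_of_nonneg_left (h4 m) (norm_nonneg _)
  -- make the bound hold everywhere
  classical
  obtain ⟨A, hA, hA0, hA1⟩ : ∃ A : Set S, MeasurableSet A ∧ μ Aᶜ = 0 ∧
      ∀ s ∈ A, nm m (fun i => v i s * x s) ≤ ‖x s‖ * sqf v s := by
    obtain ⟨B, hB1, hB2, hB3⟩ := exists_measurable_superset_of_null (ae_iff.1 h0)
    refine ⟨Bᶜ, hB2.compl, by rwa [compl_compl], fun s hs => ?_⟩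
    by_contra hcon
    exact hs (hB1 hcon)
  have hAe : ∀ᵐ s ∂μ, s ∈ A := by
    rw [ae_iff]
    exact hA0
  have e1 : ∀ i, pr (v i) x = ∫ s, A.indicator (fun s => v i s * x s) s ∂μ := by
    intro i
    rw [pr_apply]
    refine integral_congr_ae ?_
    filter_upwards [hAe] with s hs
    rw [indicator_of_mem hs]
  simp_rw [e1]
  refine (nm_integral (G := fun s => ‖x s‖ * sqf v s)
    (fun i _ => (int_mul (v i) x).indicator hA) h1.1 fun s => ?_).trans ?_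
  · by_cases hs : s ∈ A
    · simp only [indicator_of_mem hs]
      exact hA1 s hs
    · simp only [indicator_of_notMem hs]
      have : nm m (fun _ => (0:ℂ)) = 0 := by simp [nm]
      rw [this]
      exact mul_nonneg (norm_nonneg _) (sqf_nonneg _ _)
  · rw [mul_comm]
    exact h1.2

end Pool.Agent.Q98.SK
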