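import Pool.Agent.Q98.SK.Lp3

/-!
# Multiplication operators on `L^p`: the dual row bounds and the realization
-/

set_option autoImplicit false

namespace Pool.Agent.Q98.SK

open MeasureTheory Set Metric Filter Topology
open scoped ENNReal NNReal ComplexConjugate
open Pool.Agent.Y283.NK (ct)
open Pool.Agent.Y271.RO (ht Bd)
open Pool.Agent.Q98.RB
open Pool.Agent.Q98.NR (IsK uu)
open Pool.Agent.Q88.NB
open Pool.Agent.Q130.TC (cau nm)

variable {S : Type} [MeasurableSpace S] {μ : Measure S} {p q : ℝ≥0∞} [Fact (1 ≤ p)] [Fact (1 ≤ q)]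
variable {R : ℝ} {Ψ : C(DD R, ℂ) →ₐ[ℂ] (Lp ℂ p μ →L[ℂ] Lp ℂ p μ)} {φ : S → ℂ}
variable [hpq : p.HolderConjugate q]

/-- row bounds for the adjoint calculus -/
theorem rbd_row (hv : Mul Ψ φ) (hR : ∀ s, ‖φ s‖ ≤ R) {v : ℕ → Lp ℂ q μ} (hq : 0 < q.toReal)
    (hu : SQ μ q v) (m : ℕ) (h : ℕ → ℂ → ℂ) (M : ℝ) (hM : 0 ≤ M)
    (hc : ∀ j < m, Continuous (h j)) (hb : ∀ z, ‖z‖ ≤ R → nm m (fun j => h j z) ≤ M) :
    ‖∑ j ∈ Finset.range m, op (trΨ Ψ) (h j) (pr (v j))‖ ≤ (eLpNorm (sqf v) q μ).toReal * M := by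
  refine ContinuousLinearMap.opNorm_le_bound _ (mul_nonneg ENNReal.toReal_nonneg hM) fun x => ?_
  have e : (∑ j ∈ Finset.range m, op (trΨ Ψ) (h j) (pr (v j))) x =
      ∫ s, (∑ j ∈ Finset.range m, h j (φ s) * v j s) * x s ∂μ := by
    rw [sum_apply]
    have e1 : ∀ j ∈ Finset.range m, (op (trΨ Ψ) (h j) (pr (v j))) x =
        ∫ s, v j s * (op Ψ (h j) x) s ∂μ := fun j _ => pr_apply (v j) (op Ψ (h j) x)
    rw [Finset.sum_congr rfl e1, ← integral_finsetSum _ fun j _ => int_mul (v j) (op Ψ (h j) x)]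
    refine integral_congr_ae ?_
    have h2 : ∀ᵐ s ∂μ, ∀ j ∈ Finset.range m, op Ψ (h j) x s = h j (φ s) * x s :=
      (Finset.eventually_all _).2 fun j hj => hv (h j) (hc j (Finset.mem_range.1 hj)) x
    filter_upwards [h2] with s h3
    rw [Finset.sum_mul]
    refine Finset.sum_congr rfl fun j hj => ?_
    rw [h3 j hj]
    ring
  have h1 := holder_int (μ := μ) (p := p) (q := q) (norm_memLp x) (sqf_memLp hq hu)
    (fun s => norm_nonneg _) (sqf_nonneg v)
  rw [norm_eLp] at h1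
  rw [e]
  have h3 : ‖∫ s, (∑ j ∈ Finset.range m, h j (φ s) * v j s) * x s ∂μ‖ ≤
      ∫ s, M * (‖x s‖ * sqf v s) ∂μ := by
    refine norm_integral_le_of_norm_le (h1.1.const_mul M) ?_
    filter_upwards [nm_sqf hq hu] with s h4
    rw [norm_mul]
    calc _ ≤ (M * sqf v s) * ‖x s‖ := by
          refine mul_le_mul_of_nonneg_right ?_ (norm_nonneg _)
          exact (cs_nm m _ _).trans (mul_le_mul (hb _ (hR s)) (h4 m) (nm_nonneg _ _) hM)
      _ = _ := by ring
  refine h3.trans ?_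
  rw [integral_const_mul]
  calc M * ∫ s, ‖x s‖ * sqf v s ∂μ ≤ M * (‖x‖ * (eLpNorm (sqf v) q μ).toReal) :=
        mul_le_mul_of_nonneg_left h1.2 hM
    _ = _ := by ring

/-- row bounded families for the adjoint calculus -/
theorem rbd_lp [SigmaFinite μ] (hX : Refl (Lp ℂ p μ))
    (hv : Mul Ψ φ) (hφ : Measurable φ) (hR : ∀ s, ‖φ s‖ ≤ R) {v : ℕ → Lp ℂ q μ}
    (hq : 0 < q.toReal) (hu : SQ μ q v) :
    RB (trΨ Ψ) (fun i => pr (v i)) (eLpNorm (sqf v) q μ).toReal := by
  refine ⟨ENNReal.toReal_nonneg, fun m h M hM hc hb => rbd_row hv hR hq hu m h M hM hc hb,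
    fun F m => ?_⟩
  obtain ⟨x, rfl⟩ := hX F
  refine ⟨S, inferInstance, μ, inferInstance, φ, fun i s => x s * v i s, hφ,
    fun i => (int_mul (v i) x).congr (Eventually.of_forall fun s => mul_comm _ _), ?_,
    fun i => ?_⟩
  · have : q.HolderConjugate p := hpq.symm
    have h1 := sum_int (μ := μ) (p := q) (q := p) (f := x) hq hu m
    have h2 : ‖NormedSpace.inclusionInDoubleDual ℂ (Lp ℂ p μ) x‖ = ‖x‖ :=
      (NormedSpace.inclusionInDoubleDualLi ℂ (E := Lp ℂ p μ)).norm_map x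
    rw [h2]
    exact h1
  · refine isK_cau hφ ((int_mul (v i) x).congr (Eventually.of_forall fun s => mul_comm _ _))
      fun c r M g₀ hr hg₀ => ?_
    show pr (v i) (op Ψ (ht g₀) x) = _
    rw [pr_apply]
    refine integral_congr_ae ?_
    filter_upwards [hv _ (ht_cont hr hg₀) x] with s h1
    rw [h1]
    ring

omit [Fact (1 ≤ p)] [Fact (1 ≤ q)] hpq in
/-- families in `L²` -/
theorem l2_family {w : ℕ → S → ℂ} (hw : ∀ j, Measurable (w j)) {H : S → ℝ} (hH : Integrable H μ)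
    (hb : ∀ᵐ s ∂μ, ∀ m, nm m (fun j => w j s) ^ 2 ≤ H s) :
    ∃ w' : ℕ → Lp ℂ 2 μ, (∀ j, w' j =ᵐ[μ] w j) ∧ Summable fun j => ‖w' j‖ ^ 2 := by
  have hsq : ∀ (m : ℕ) (s : S), nm m (fun j => w j s) ^ 2 = ∑ j ∈ Finset.range m, ‖w j s‖ ^ 2 :=
    fun m s => by
      rw [sq]
      exact nm_sq m _
  have hi : ∀ j, Integrable (fun s => ‖w j s‖ ^ 2) μ := by
    intro j
    refine hH.mono' ((hw j).norm.pow_const 2).aestronglyMeasurable ?_
    filter_upwards [hb] with s hs
    rw [Real.norm_of_nonneg (by positivity)]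
    refine le_trans ?_ (hs (j + 1))
    rw [hsq]
    exact Finset.single_le_sum (f := fun i => ‖w i s‖ ^ 2) (fun _ _ => by positivity)
      (Finset.mem_range.2 (Nat.lt_succ_self j))
  have hm : ∀ j, MemLp (w j) 2 μ := fun j =>
    (memLp_two_iff_integrable_sq_norm (hw j).aestronglyMeasurable).2 (hi j)
  have hnorm : ∀ f : Lp ℂ 2 μ, ‖f‖ ^ 2 = ∫ s, ‖f s‖ ^ 2 ∂μ := by
    intro f
    have h1 := L2.inner_def (𝕜 := ℂ) f f
    have h2 : ((‖f‖ ^ 2 : ℝ) : ℂ) = ∫ s, ((‖f s‖ ^ 2 : ℝ) : ℂ) ∂μ := by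
      have h3 : inner ℂ f f = ((‖f‖ ^ 2 : ℝ) : ℂ) := by
        rw [inner_self_eq_norm_sq_to_K]
        push_cast
        rfl
      rw [← h3, h1]
      refine integral_congr_ae (Eventually.of_forall fun s => ?_)
      show inner ℂ (f s) (f s) = _
      rw [inner_self_eq_norm_sq_to_K]
      push_cast
      rfl
    rw [integral_complex_ofReal] at h2
    exact_mod_cast h2
  refine ⟨fun j => (hm j).toLp _, fun j => (hm j).coeFn_toLp, ?_⟩
  refine summable_of_sum_range_le (c := ∫ s, H s ∂μ) (fun j => by positivity) fun m => ?_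
  have e : ∀ j ∈ Finset.range m, ‖(hm j).toLp (w j)‖ ^ 2 = ∫ s, ‖w j s‖ ^ 2 ∂μ := by
    intro j _
    rw [hnorm]
    refine integral_congr_ae ?_
    filter_upwards [(hm j).coeFn_toLp] with s hs
    rw [hs]
  rw [Finset.sum_congr rfl e, ← integral_finsetSum _ fun j _ => hi j]
  refine integral_mono_ae (integrable_finsetSum _ fun j _ => hi j) hH ?_
  filter_upwards [hb] with s hs
  rw [← hsq]
  exact hs m

/-- the realization of the pairs -/
theorem mat_lp (hv : Mul Ψ φ) (hφ : Measurable φ) [SigmaFinite μ] {u : ℕ → Lp ℂ p μ}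
    {v : ℕ → Lp ℂ q μ} (hp : 0 < p.toReal) (hq : 0 < q.toReal) (hu : SQ μ p u) (hvv : SQ μ q v) :
    ∃ (u' v' : ℕ → Lp ℂ 2 μ), Summable (fun j => ‖u' j‖ ^ 2) ∧ Summable (fun j => ‖v' j‖ ^ 2) ∧
      ∀ i j, IsK Ψ (pr (v i)) (u j) (ct φ (v' i) (u' j)) := by
  set F : S → ℝ := sqf u with hF
  set G : S → ℝ := sqf v with hG
  have hF0 : ∀ s, 0 ≤ F s := sqf_nonneg u
  have hG0 : ∀ s, 0 ≤ G s := sqf_nonneg v
  have hFm : Measurable F := sqf_meas u
  have hGm : Measurable G := sqf_meas v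
  set θ : S → ℝ := fun s => √(G s / F s) with hθ
  have hθ0 : ∀ s, 0 ≤ θ s := fun s => Real.sqrt_nonneg _
  have hθm : Measurable θ := (hGm.div hFm).sqrt
  have hI : Integrable (fun s => F s * G s) μ :=
    (holder_int (μ := μ) (sqf_memLp hp hu) (sqf_memLp hq hvv) hF0 hG0).1
  obtain ⟨u', hu1, hu2⟩ := l2_family (μ := μ) (w := fun j s => (θ s : ℂ) * u j s)
    (fun j => (Complex.measurable_ofReal.comp hθm).mul (lp_meas (u j))) hI (by
      filter_upwards [nm_sqf hp hu] with s hs m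
      rw [nm_smul, Complex.norm_real, Real.norm_of_nonneg (hθ0 s), mul_pow]
      have h1 : θ s ^ 2 = G s / F s := Real.sq_sqrt (div_nonneg (hG0 s) (hF0 s))
      rw [h1]
      rcases (hF0 s).eq_or_lt with h0 | h0
      · rw [← h0]
        simp
      · calc G s / F s * nm m (fun j => u j s) ^ 2 ≤ G s / F s * F s ^ 2 := by
              have h2 := hs m
              have h3 := nm_nonneg m (fun j => u j s)
              have h4 : 0 ≤ G s / F s := div_nonneg (hG0 s) (hF0 s)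
              gcongr
          _ = F s * G s := by
              field_simp)
  obtain ⟨v', hv1, hv2⟩ := l2_family (μ := μ) (w := fun j s => ((θ s)⁻¹ : ℂ) * conj (v j s))
    (fun j => (Complex.measurable_ofReal.comp hθm).inv.mul
      (Complex.continuous_conj.measurable.comp (lp_meas (v j)))) hI (by
      filter_upwards [nm_sqf hq hvv] with s hs m
      rw [nm_smul, nm_conj, norm_inv, Complex.norm_real, Real.norm_of_nonneg (hθ0 s), mul_pow]
      have h1 : (θ s)⁻¹ ^ 2 = F s / G s := by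
        rw [inv_pow, Real.sq_sqrt (div_nonneg (hG0 s) (hF0 s)), inv_div]
      rw [h1]
      rcases (hG0 s).eq_or_lt with h0 | h0
      · rw [← h0]
        simp
      · calc F s / G s * nm m (fun j => v j s) ^ 2 ≤ F s / G s * G s ^ 2 := by
              have h2 := hs m
              have h3 := nm_nonneg m (fun j => v j s)
              have h4 : 0 ≤ F s / G s := div_nonneg (hF0 s) (hG0 s)
              gcongr
          _ = F s * G s := by
              field_simp)
  refine ⟨u', v', hu2, hv2, fun i j => ?_⟩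
  have hk : Integrable (fun s => conj (v' i s) * u' j s) μ := int_pair (v' i) (u' j)
  have hkey : (fun s => conj (v' i s) * u' j s) =ᵐ[μ] fun s => v i s * u j s := by
    filter_upwards [hu1 j, hv1 i, nm_sqf hp hu, nm_sqf hq hvv] with s h1 h2 h3 h4
    rw [h1, h2]
    rw [map_mul, map_inv₀, Complex.conj_conj, Complex.conj_ofReal]
    by_cases h0 : θ s = 0
    · rw [h0]
      have h5 : G s / F s = 0 := by
        have h6 : θ s ^ 2 = G s / F s := Real.sq_sqrt (div_nonneg (hG0 s) (hF0 s))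
        rw [← h6, h0]
        simp
      rcases div_eq_zero_iff.1 h5 with h6 | h6
      · have h7 : ‖v i s‖ ≤ 0 := (nm_coord (c := fun i => v i s) (Nat.lt_succ_self i)).trans
          ((h4 (i + 1)).trans h6.le)
        rw [norm_le_zero_iff.1 h7]
        simp
      · have h7 : ‖u j s‖ ≤ 0 := (nm_coord (c := fun i => u i s) (Nat.lt_succ_self j)).trans
          ((h3 (j + 1)).trans h6.le)
        rw [norm_le_zero_iff.1 h7]
        simp
    · have h5 : (θ s : ℂ) ≠ 0 := by exact_mod_cast h0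
      field_simp
  show IsK Ψ (pr (v i)) (u j) (cau μ φ fun s => conj (v' i s) * u' j s)
  refine isK_cau hφ hk fun c r M g₀ hr hg₀ => ?_
  rw [pr_apply]
  refine integral_congr_ae ?_
  filter_upwards [hv _ (ht_cont hr hg₀) (u j), hkey] with s h1 h2
  rw [h1, h2]
  ring

end Pool.Agent.Q98.SK
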