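import Pool.Agent.Q98.SK.Lp4
import Pool.Agent.Q208.SK.LPD
import Pool.Agent.Q208.SK.NUC
import Pool.Agent.Q208.SK.TLP
import Pool.Agent.Q88.NB.Fin

/-!
# Perturbations of multiplication operators on `L^p`: the theorem
-/

set_option autoImplicit false

namespace Pool.Agent.Q98.SK

open MeasureTheory Set Metric Filter Topology
open scoped ENNReal NNReal ComplexConjugate
open Pool.Agent.Q98.RB
open Pool.Agent.Q98.NR (SLS)
open Pool.Agent.Q88.NB

variable {S : Type} [MeasurableSpace S] {μ : Measure S} {p q : ℝ≥0∞} [Fact (1 ≤ p)] [Fact (1 ≤ q)]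

/-- **perturbations with square functions in `L^p` and `L^q`** -/
theorem lp_main [SigmaFinite μ] [hpq : p.HolderConjugate q] (hp1 : 1 < p) (hq1 : 1 < q)
    {φ : S → ℂ} (hφ : Measurable φ) {R : ℝ} (hR : ∀ s, ‖φ s‖ ≤ R)
    {N : Lp ℂ p μ →L[ℂ] Lp ℂ p μ} (hN : ∀ f, N f =ᵐ[μ] fun s => φ s * f s)
    {K : Lp ℂ p μ →L[ℂ] Lp ℂ p μ} {u : ℕ → Lp ℂ p μ} {v : ℕ → Lp ℂ q μ} (hu : SQ μ p u)
    (hv : SQ μ q v) (hK : ∀ f : Lp ℂ p μ, HasSum (fun j => (∫ s, v j s * f s ∂μ) • u j) (K f)) :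
    ((∃ c : ℂ, N + K = c • 1) ∨ HasHyp (N + K)) ∧ SLS (N + K) ∧ SLS (RB.tr (N + K)) := by
  have hpt : p ≠ ∞ := by
    intro h0
    have h1 := hpq.inv_add_inv_eq_inv
    rw [h0, ENNReal.inv_top, zero_add, inv_inj] at h1
    rw [h1] at hq1
    exact lt_irrefl _ hq1
  have hqt : q ≠ ∞ := by
    intro h0
    have h1 := hpq.inv_add_inv_eq_inv
    rw [h0, ENNReal.inv_top, add_zero, inv_inj] at h1
    rw [h1] at hp1
    exact lt_irrefl _ hp1
  have hp : 0 < p.toReal := ENNReal.toReal_pos (zero_lt_one.trans hp1).ne' hpt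
  have hq : 0 < q.toReal := ENNReal.toReal_pos (zero_lt_one.trans hq1).ne' hqt
  have hX : Refl (Lp ℂ p μ) := Q208.SK.ref Q208.SK.lpd S μ p q hp1 hq1
  have hLPD := Q208.SK.lpd S μ p q hp1 hq1
  obtain ⟨Ψ, hΨ, hmul⟩ := mulCal (μ := μ) (p := p) hφ (R := |R| + 1) (by positivity)
    (fun s => (hR s).trans ((le_abs_self R).trans (by linarith))) hN
  have hmul' : Mul Ψ φ := hmul
  have hR' : ∀ s, ‖φ s‖ ≤ |R| + 1 := fun s => (hR s).trans ((le_abs_self R).trans (by linarith))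
  obtain ⟨u', v', hu', hv', hmat⟩ := mat_lp (μ := μ) hmul' hφ hp hq hu hv
  have hD : Dt Ψ K u (fun i => pr (v i)) := by
    refine ⟨?_, ⟨_, rb_lp (q := q) hLPD hmul' hφ hR' hp hu⟩,
      ⟨_, ENNReal.toReal_nonneg, fun m x => vb_lp hq hv m x⟩, S, inferInstance, μ, inferInstance,
      φ, u', v', hφ, hu', hv', hmat⟩
    obtain ⟨τ, h1, h2, h3⟩ := Q208.SK.tlp S μ p q hp1 hq1 K u v hu hv hK
    refine ⟨τ, h1, h2, fun m x => ?_⟩
    rw [fr_apply]
    have e : ∀ j ∈ Finset.range m, pr (v j) x • u j = (∫ s, v j s * x s ∂μ) • u j := fun j _ => by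
      rw [pr_apply]
    rw [Finset.sum_congr rfl e]
    exact h3 m x
  exact main2 tch hX hΨ hD (rbd_lp hX hmul' hφ hR' hq hv)

end Pool.Agent.Q98.SK
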