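import Pool.Agent.Q98.SK.Lp5

/-!
# Nuclear operators on `L^p`
-/

set_option autoImplicit false

namespace Pool.Agent.Q98.SK

open MeasureTheory Set Metric Filter Topology
open scoped ENNReal NNReal ComplexConjugate

variable {S : Type} [MeasurableSpace S] {μ : Measure S} {p q : ℝ≥0∞} [Fact (1 ≤ p)] [Fact (1 ≤ q)]

/-- nuclear operators of order `r`, `1 / r ≥ 1 + |1/2 - 1/p|`, have square functions in `L^p`, `L^q` -/
theorem nuc_sq [SigmaFinite μ] [hpq : p.HolderConjugate q] (hp1 : 1 < p) (hq1 : 1 < q) {r : ℝ}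
    (hr : 0 < r) (hrp : 1 + |1 / 2 - 1 / p.toReal| ≤ 1 / r) {K : Lp ℂ p μ →L[ℂ] Lp ℂ p μ}
    {u : ℕ → Lp ℂ p μ} {w : ℕ → (Lp ℂ p μ →L[ℂ] ℂ)}
    (hs : Summable fun j => (‖u j‖ * ‖w j‖) ^ r) (hK : ∀ f, HasSum (fun j => w j f • u j) (K f)) :
    ∃ (u' : ℕ → Lp ℂ p μ) (v' : ℕ → Lp ℂ q μ), SQ μ p u' ∧ SQ μ q v' ∧
      ∀ f : Lp ℂ p μ, HasSum (fun j => (∫ s, v' j s * f s ∂μ) • u' j) (K f) := by
  have hLPD := Q208.SK.lpd S μ p q hp1 hq1
  choose g hg hgw using fun j => hLPD (w j)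
  obtain ⟨r₀, hr₀⟩ : ∃ r₀ : ℝ, r₀ = 1 / (1 + |1 / 2 - 1 / p.toReal|) := ⟨_, rfl⟩
  have h1 : 0 < 1 + |1 / 2 - 1 / p.toReal| := by positivity
  have hr₀0 : 0 < r₀ := by rw [hr₀]; positivity
  have hrr : r ≤ r₀ := by
    rw [hr₀, le_div_iff₀ h1]
    rw [le_div_iff₀ hr] at hrp
    linarith
  have h2 : 1 / r₀ = 1 + |1 / 2 - 1 / p.toReal| := by rw [hr₀, one_div_one_div]
  have hs1 : Summable fun j => (‖u j‖ * ‖w j‖) ^ r₀ :=
    Pool.Agent.Q98.NR.summable_mono (fun j => by positivity) hr hrr hs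
  have hs2 : Summable fun j => (‖u j‖ * ‖g j‖) ^ r₀ := by
    refine Summable.of_nonneg_of_le (fun j => by positivity) (fun j => ?_) hs1
    exact Real.rpow_le_rpow (by positivity)
      (mul_le_mul_of_nonneg_left (hg j) (norm_nonneg _)) hr₀0.le
  obtain ⟨α, β, hαβ, hu, hv⟩ := Q208.SK.nuc S μ p q hp1 hq1 r₀ hr₀0 h2 u g hs2
  refine ⟨_, _, hu, hv, fun f => ?_⟩
  have e : (fun j => (∫ s, (β j • g j : Lp ℂ q μ) s * f s ∂μ) • (α j • u j)) = fun j => w j f • u j := by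
    funext j
    have h3 : ∫ s, (β j • g j : Lp ℂ q μ) s * f s ∂μ = β j * w j f := by
      rw [(hgw j f).2, ← integral_const_mul]
      refine integral_congr_ae ?_
      filter_upwards [Lp.coeFn_smul (β j) (g j)] with s hs
      rw [hs, Pi.smul_apply, smul_eq_mul]
      ring
    rw [h3, smul_smul]
    rcases hαβ j with h4 | ⟨h4 | h4, h5, h6⟩
    · rw [mul_right_comm, mul_comm (β j), h4, one_mul]
    · rw [h4, smul_zero, smul_zero]
    · have h7 : w j f = 0 := by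
        rw [(hgw j f).2, h4]
        refine integral_eq_zero_of_ae ?_
        filter_upwards [Lp.coeFn_zero ℂ q μ] with s hs
        rw [hs]
        simp
      rw [h7, mul_zero, zero_mul]
  rw [e]
  exact hK f

end Pool.Agent.Q98.SK
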