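import Pool.Agent.Q98.RB.Lim

/-!
Project SK (helper98): perturbations of multiplication operators on `L^p(μ)`, `1 < p < ∞`, by operators with
kernel `∑ u_j(s) v_j(t)`, `(∑ |u_j|²)^(1/2) ∈ L^p`, `(∑ |v_j|²)^(1/2) ∈ L^q`; for instance all `r`-nuclear
operators, `1/r = 1 + |1/2 - 1/p|`. Statements on `L^p` (only Mathlib is needed), with proofs in the docstrings.
-/

set_option autoImplicit false

namespace Pool.Agent.Q98.SK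

open MeasureTheory Filter Topology
open scoped ENNReal

/-- the square function of `u` is in `L^p` -/
def SQ {S : Type} [MeasurableSpace S] (μ : Measure S) (p : ℝ≥0∞) (u : ℕ → Lp ℂ p μ) : Prop :=
  ∫⁻ s, (∑' j, ‖u j s‖ₑ ^ 2) ^ (p.toReal / 2) ∂μ ≠ ∞

/-- JOB LPD. The dual of `L^p`, `σ`-finite measures.
Proof. Choose `w ∈ L^p`, `w > 0` everywhere (`σ`-finite). `A ↦ f(1_A w)` is a complex measure `ν ≪ μ` (countably additive: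
dominated convergence in `L^p`; `VectorMeasure`), so (real and imaginary part, `SignedMeasure`, Radon-Nikodym) it has a density
`k ∈ L^1(μ)`, `f(h w) = ∫ h k` for simple `h` and so for bounded measurable `h`. Let `g = k / w`. Test with
`x = 1_B |g|^(q-1) (conj g / |g|)`, `B = {|g|^(q-1) ≤ n w}`, which is `h w` with `h` bounded:
`∫_B |g|^q = f(x) ≤ ‖f‖ (∫_B |g|^q)^(1/p)`, finite, so `∫_B |g|^q ≤ ‖f‖^q`; let `n → ∞`. So `g ∈ L^q`, `‖g‖ ≤ ‖f‖`, and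
`f(x) = ∫ g x` for the `x` with `|x| ≤ n w` for some `n`; these are dense in `L^p` (dominated convergence). (A different proof is
welcome.) -/
def S_LPD : Prop := ∀ (S : Type) [MeasurableSpace S] (μ : Measure S) [SigmaFinite μ] (p q : ℝ≥0∞)
  [Fact (1 ≤ p)] [Fact (1 ≤ q)] [p.HolderConjugate q], 1 < p → 1 < q →
  ∀ f : Lp ℂ p μ →L[ℂ] ℂ, ∃ g : Lp ℂ q μ, ‖g‖ ≤ ‖f‖ ∧
    ∀ x : Lp ℂ p μ, Integrable (fun s => g s * x s) μ ∧ f x = ∫ s, g s * x s ∂μ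

/-- JOB REF. `L^p` is reflexive (from S_LPD).
Proof. For `F` in the bidual, `G : Lp ℂ q μ →L[ℂ] ℂ`, `G g = F (x ↦ ∫ g x)` (`ContinuousLinearMap.lpPairing`, see Mathlib
`MeasureTheory/Function/Holder`) is represented by `x₀ ∈ L^p` (S_LPD with `p, q` exchanged), and `F f = f x₀` for all `f`, as `f` is the
pairing with some `g`. -/
def S_REF : Prop := ∀ (S : Type) [MeasurableSpace S] (μ : Measure S) [SigmaFinite μ] (p q : ℝ≥0∞)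
  [Fact (1 ≤ p)] [Fact (1 ≤ q)] [p.HolderConjugate q], 1 < p → 1 < q →
  Pool.Agent.Q98.RB.Refl (Lp ℂ p μ)

/-- JOB NUC. `r`-nuclear families can be rescaled to have square functions in `L^p`, `L^q`.
Proof. Let `λ_j = ‖u j‖ ‖v j‖`. If `λ_j = 0` take `α_j = β_j = 0`. Let `p ≥ 2 ≥ q`, so `1/r = 1/2 + 1/q`. Take
`α_j = λ_j^(r/2) / ‖u j‖`, `β_j = 1/α_j`: `‖α_j u_j‖² = λ_j^r`, `‖β_j v_j‖^q = λ_j^((1 - r/2) q) = λ_j^r`. By the triangle inequality in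
`L^(p/2)` (`p/2 ≥ 1`, infinite sums: monotone convergence) `‖∑ |α_j u_j|²‖_(p/2) ≤ ∑ ‖α_j u_j‖_p² < ∞`, and
`(∑ |β_j v_j|²)^(q/2) ≤ ∑ |β_j v_j|^q` as `q/2 ≤ 1`, integrate. The case `p < 2 < q` is the same with `u, v` exchanged. -/
def S_NUC : Prop := ∀ (S : Type) [MeasurableSpace S] (μ : Measure S) (p q : ℝ≥0∞)
  [Fact (1 ≤ p)] [Fact (1 ≤ q)] [p.HolderConjugate q], 1 < p → 1 < q → ∀ r : ℝ, 0 < r →
  1 / r = 1 + |1 / 2 - 1 / p.toReal| → ∀ (u : ℕ → Lp ℂ p μ) (v : ℕ → Lp ℂ q μ),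
  Summable (fun j => (‖u j‖ * ‖v j‖) ^ r) → ∃ α β : ℕ → ℂ,
    (∀ j, α j * β j = 1 ∨ ((u j = 0 ∨ v j = 0) ∧ α j = 0 ∧ β j = 0)) ∧
    SQ μ p (fun j => α j • u j) ∧ SQ μ q (fun j => β j • v j)

/-- JOB TLP. The finite sections converge in norm.
Proof. Let `F_m = (∑_{j ≥ m} |u_j|²)^(1/2)`, `G = (∑_j |v_j|²)^(1/2)`. For scalars `c_j` and `m ≤ n`
`‖∑_{m ≤ j < n} c_j u_j‖_p ≤ (∑ |c_j|²)^(1/2) ‖F_m‖_p` (Cauchy-Schwarz pointwise), and `(∑_{j < n} |∫ v_j f|²)^(1/2) ≤ ‖f‖_p ‖G‖_q`: with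
`c_j = ∫ v_j f`, `∑ |c_j|² = ∫ (∑ conj(c_j) v_j) f ≤ (∑ |c_j|²)^(1/2) ∫ G |f|`, Hölder. Let `n → ∞`: `τ_m = ‖F_m‖_p ‖G‖_q`, and
`‖F_m‖_p → 0` by dominated convergence. -/
def S_TLP : Prop := ∀ (S : Type) [MeasurableSpace S] (μ : Measure S) (p q : ℝ≥0∞)
  [Fact (1 ≤ p)] [Fact (1 ≤ q)] [p.HolderConjugate q], 1 < p → 1 < q →
  ∀ (K : Lp ℂ p μ →L[ℂ] Lp ℂ p μ) (u : ℕ → Lp ℂ p μ) (v : ℕ → Lp ℂ q μ), SQ μ p u → SQ μ q v →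
  (∀ f : Lp ℂ p μ, HasSum (fun j => (∫ s, v j s * f s ∂μ) • u j) (K f)) →
  ∃ τ : ℕ → ℝ, (∀ m, 0 ≤ τ m) ∧ Tendsto τ atTop (𝓝 0) ∧ ∀ (m : ℕ) (f : Lp ℂ p μ),
    ‖K f - ∑ j ∈ Finset.range m, (∫ s, v j s * f s ∂μ) • u j‖ ≤ τ m * ‖f‖

end Pool.Agent.Q98.SK
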